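import Pool.Agent.PSK.Lat

/-!
# PSK module NEA: the primes near `√N`

`near_general`: let `R, R' ≤ A`.  For a prime `p > A` the divisors `e ≤ R` of `n = p b` are the
divisors `e ≤ R` of `b` (`p ∤ e`), so `wt R (p b) = wt R b`, and `wt R' p = 1` (`Selberg.wt_prime`).
Hence (all terms are `≥ 0`)
`∑_{A < p ≤ B} TT N h R p ≤ ∑_{A < a ≤ B} wt R' a ∑_{b : a b ∈ (N, N+h)} wt R b`
`= ∑_{d1,d2 ≤ R'} ∑_{e1,e2 ≤ R} λ'_{d1} λ'_{d2} λ_{e1} λ_{e2} lat N h (lcm d1 d2) (lcm e1 e2) A B`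
(`Selberg.wt_expand`; `e ∣ b ↔ a e ∣ a b`).  If `|lat N h d e A B - (h/(de)) log (B/A)| ≤ X` for all
`d ≤ R'^2`, `e ≤ R^2`, the sum is at most
`h log (B/A) / (L_{R'} L_R) + X R'^4 R^4` (`Selberg.form_eq` twice, `Selberg.abs_sum_lam` twice).

`near_bound`: `A = A1 N`, `B = A2 N`, `R = RR N`, `R' = RP N`, `h = hh N`, `X = 3 N^(0.47)`:
`d e ≤ N^(0.002) N^(2δ) ≤ N^(1/125)`; `A1 ≥ h/R^5 - 1 ≥ N^(1/2 - 6δ)/2 - 1 ≥ N^(0.002)(N^(0.496) + 1)`;
`A2 ≤ 2 N^(1/2+δ) ≤ N^(0.504)`; `3 N^(0.47) N^(0.004) N^(4δ) ≤ N^(0.49)`.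
-/

set_option autoImplicit false

namespace Pool.Agent.PSK

open Finset Filter
open Pool.Agent.Helper4.ST

private lemma wt_div {R p n : ℕ} (hp : p.Prime) (hRp : R < p) (hpn : p ∣ n) :
    Selberg.wt R n = Selberg.wt R (n / p) := by
  unfold Selberg.wt
  congr 1
  refine Finset.sum_congr ?_ fun _ _ => rfl
  ext e
  simp only [Finset.mem_filter, Finset.mem_Icc]
  constructor
  · rintro ⟨⟨h1, h2⟩, h3⟩
    refine ⟨⟨h1, h2⟩, ?_⟩
    obtain ⟨b, rfl⟩ := hpn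
    rw [Nat.mul_div_cancel_left _ hp.pos]
    have hcop : Nat.Coprime e p := by
      rw [Nat.coprime_comm]
      exact (Nat.Prime.coprime_iff_not_dvd hp).2 (fun h4 => by
        have := Nat.le_of_dvd (by omega) h4
        omega)
    exact hcop.dvd_of_dvd_mul_left h3
  · rintro ⟨⟨h1, h2⟩, h3⟩
    exact ⟨⟨h1, h2⟩, h3.trans (Nat.div_dvd_of_dvd hpn)⟩

private lemma sum_wt_div (N h R a : ℕ) (ha : 0 < a) :
    ∑ n ∈ (JH N h).filter (fun n => a ∣ n), Selberg.wt R (n / a) =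
      ∑ y ∈ Icc 1 R ×ˢ Icc 1 R, Selberg.lam R y.1 * Selberg.lam R y.2 *
        (((JH N h).filter (fun n => a * Nat.lcm y.1 y.2 ∣ n)).card : ℝ) := by
  have h1 : ∀ n ∈ (JH N h).filter (fun n => a ∣ n), Selberg.wt R (n / a) =
      ∑ y ∈ Icc 1 R ×ˢ Icc 1 R, if a * Nat.lcm y.1 y.2 ∣ n then
        Selberg.lam R y.1 * Selberg.lam R y.2 else 0 := by
    intro n hn
    rw [Finset.mem_filter] at hn
    rw [Selberg.wt_expand, Finset.sum_product]
    refine Finset.sum_congr rfl fun e1 _ => Finset.sum_congr rfl fun e2 _ => ?_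
    have h2 : Nat.lcm e1 e2 ∣ n / a ↔ a * Nat.lcm e1 e2 ∣ n := by
      obtain ⟨b, rfl⟩ := hn.2
      rw [Nat.mul_div_cancel_left _ ha]
      exact (Nat.mul_dvd_mul_iff_left ha).symm
    simp only [h2]
  rw [Finset.sum_congr rfl h1, Finset.sum_comm]
  refine Finset.sum_congr rfl fun y _ => ?_
  rw [← Finset.sum_filter, Finset.sum_const, nsmul_eq_mul, mul_comm]
  congr 2
  rw [Finset.filter_filter]
  congr 1
  ext n
  simp only [Finset.mem_filter]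
  constructor
  · rintro ⟨h2, h3, h4⟩; exact ⟨h2, h4⟩
  · rintro ⟨h2, h4⟩; exact ⟨h2, (dvd_mul_right a _).trans h4, h4⟩

theorem near_general (N h R R' A B : ℕ) (hR : 1 ≤ R) (hR' : 1 ≤ R') (hRA : R ≤ A) (hRA' : R' ≤ A)
    (X : ℝ) (hX : ∀ d e : ℕ, 1 ≤ d → d ≤ R' ^ 2 → 1 ≤ e → e ≤ R ^ 2 →
      |(lat N h d e A B : ℝ) - (h : ℝ) / (d * e) * Real.log ((B : ℝ) / A)| ≤ X) :
    ∑ p ∈ (Ioc A B).filter Nat.Prime, TT N h R p ≤
      (h : ℝ) * Real.log ((B : ℝ) / A) / (Selberg.L R' * Selberg.L R) +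
        X * (R' : ℝ) ^ 4 * (R : ℝ) ^ 4 := by
  set lB := Real.log ((B : ℝ) / A) with hlB
  have step1 : ∑ p ∈ (Ioc A B).filter Nat.Prime, TT N h R p ≤
      ∑ a ∈ Ioc A B, Selberg.wt R' a *
        ∑ n ∈ (JH N h).filter (fun n => a ∣ n), Selberg.wt R (n / a) := by
    calc ∑ p ∈ (Ioc A B).filter Nat.Prime, TT N h R p
        = ∑ p ∈ (Ioc A B).filter Nat.Prime, Selberg.wt R' p *
          ∑ n ∈ (JH N h).filter (fun n => p ∣ n), Selberg.wt R (n / p) := by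
          refine Finset.sum_congr rfl fun p hp => ?_
          rw [Finset.mem_filter, Finset.mem_Ioc] at hp
          rw [Selberg.wt_prime hR' hp.2 (by omega), one_mul]
          unfold TT
          refine Finset.sum_congr rfl fun n hn => ?_
          rw [Finset.mem_filter] at hn
          exact wt_div hp.2 (by omega) hn.2
      _ ≤ _ := by
          refine Finset.sum_le_sum_of_subset_of_nonneg (Finset.filter_subset _ _) ?_
          intro a _ _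
          exact mul_nonneg (Selberg.wt_nonneg _ _)
            (Finset.sum_nonneg fun n _ => Selberg.wt_nonneg _ _)
  have step2 : ∑ a ∈ Ioc A B, Selberg.wt R' a *
        ∑ n ∈ (JH N h).filter (fun n => a ∣ n), Selberg.wt R (n / a) =
      ∑ x ∈ Icc 1 R' ×ˢ Icc 1 R', ∑ y ∈ Icc 1 R ×ˢ Icc 1 R,
        (Selberg.lam R' x.1 * Selberg.lam R' x.2) * (Selberg.lam R y.1 * Selberg.lam R y.2) *
          (lat N h (Nat.lcm x.1 x.2) (Nat.lcm y.1 y.2) A B : ℝ) := by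
    have h1 : ∀ a ∈ Ioc A B, Selberg.wt R' a *
        ∑ n ∈ (JH N h).filter (fun n => a ∣ n), Selberg.wt R (n / a) =
      ∑ x ∈ Icc 1 R' ×ˢ Icc 1 R', ∑ y ∈ Icc 1 R ×ˢ Icc 1 R,
        (Selberg.lam R' x.1 * Selberg.lam R' x.2) * (Selberg.lam R y.1 * Selberg.lam R y.2) *
          (if Nat.lcm x.1 x.2 ∣ a then
            (((JH N h).filter (fun n => a * Nat.lcm y.1 y.2 ∣ n)).card : ℝ) else 0) := by
      intro a ha
      rw [Finset.mem_Ioc] at ha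
      rw [sum_wt_div N h R a (by omega), Selberg.wt_expand, ← Finset.sum_product',
        Finset.sum_mul_sum]
      refine Finset.sum_congr rfl fun x _ => Finset.sum_congr rfl fun y _ => ?_
      by_cases h2 : Nat.lcm x.1 x.2 ∣ a
      · simp only [h2, if_true]; ring
      · simp only [h2, if_false]; ring
    rw [Finset.sum_congr rfl h1, Finset.sum_comm]
    refine Finset.sum_congr rfl fun x _ => ?_
    rw [Finset.sum_comm]
    refine Finset.sum_congr rfl fun y _ => ?_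
    rw [← Finset.mul_sum]
    congr 1
    unfold lat
    rw [← Finset.sum_filter]
    push_cast
    rfl
  have hlcm : ∀ {S a b : ℕ}, a ∈ Icc 1 S → b ∈ Icc 1 S → 1 ≤ Nat.lcm a b ∧ Nat.lcm a b ≤ S ^ 2 := by
    intro S a b ha hb
    rw [Finset.mem_Icc] at ha hb
    refine ⟨Nat.lcm_pos ha.1 hb.1, ?_⟩
    calc Nat.lcm a b ≤ a * b := Nat.le_of_dvd (Nat.mul_pos ha.1 hb.1) (Nat.lcm_dvd_mul a b)
      _ ≤ S * S := Nat.mul_le_mul ha.2 hb.2
      _ = S ^ 2 := by ring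
  have hmain : ∑ x ∈ Icc 1 R' ×ˢ Icc 1 R', ∑ y ∈ Icc 1 R ×ˢ Icc 1 R,
        (Selberg.lam R' x.1 * Selberg.lam R' x.2) * (Selberg.lam R y.1 * Selberg.lam R y.2) *
          ((h : ℝ) / ((Nat.lcm x.1 x.2 : ℕ) * (Nat.lcm y.1 y.2 : ℕ)) * lB) =
      (h : ℝ) * lB / (Selberg.L R' * Selberg.L R) := by
    have e1 : (h : ℝ) * lB / (Selberg.L R' * Selberg.L R) =
        (h : ℝ) * lB * ((Selberg.L R')⁻¹ * (Selberg.L R)⁻¹) := by
      rw [div_eq_mul_inv, mul_inv]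
    have f1 := Selberg.form_eq hR'
    have f2 := Selberg.form_eq hR
    rw [← Finset.sum_product'] at f1 f2
    rw [e1, ← f1, ← f2, Finset.sum_mul_sum, Finset.mul_sum]
    refine Finset.sum_congr rfl fun x hx => ?_
    rw [Finset.mul_sum]
    refine Finset.sum_congr rfl fun y hy => ?_
    rw [Finset.mem_product] at hx hy
    have h1 : ((Nat.lcm x.1 x.2 : ℕ) : ℝ) ≠ 0 := by
      have := (hlcm hx.1 hx.2).1
      positivity
    have h2 : ((Nat.lcm y.1 y.2 : ℕ) : ℝ) ≠ 0 := by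
      have := (hlcm hy.1 hy.2).1
      positivity
    field_simp
  have hX0 : 0 ≤ X := (abs_nonneg _).trans (hX 1 1 le_rfl (Nat.one_le_pow _ _ hR') le_rfl
    (Nat.one_le_pow _ _ hR))
  have herr : |∑ x ∈ Icc 1 R' ×ˢ Icc 1 R', ∑ y ∈ Icc 1 R ×ˢ Icc 1 R,
        (Selberg.lam R' x.1 * Selberg.lam R' x.2) * (Selberg.lam R y.1 * Selberg.lam R y.2) *
          ((lat N h (Nat.lcm x.1 x.2) (Nat.lcm y.1 y.2) A B : ℝ) -
          (h : ℝ) / ((Nat.lcm x.1 x.2 : ℕ) * (Nat.lcm y.1 y.2 : ℕ)) * lB)| ≤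
      X * (R' : ℝ) ^ 4 * (R : ℝ) ^ 4 := by
    calc _ ≤ ∑ x ∈ Icc 1 R' ×ˢ Icc 1 R', ∑ y ∈ Icc 1 R ×ˢ Icc 1 R,
          |Selberg.lam R' x.1 * Selberg.lam R' x.2| * |Selberg.lam R y.1 * Selberg.lam R y.2| *
            X := by
          refine (Finset.abs_sum_le_sum_abs _ _).trans (Finset.sum_le_sum fun x hx => ?_)
          refine (Finset.abs_sum_le_sum_abs _ _).trans (Finset.sum_le_sum fun y hy => ?_)
          rw [Finset.mem_product] at hx hy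
          rw [abs_mul, abs_mul]
          refine mul_le_mul_of_nonneg_left ?_ (by positivity)
          exact hX _ _ (hlcm hx.1 hx.2).1 (hlcm hx.1 hx.2).2 (hlcm hy.1 hy.2).1 (hlcm hy.1 hy.2).2
      _ = (∑ x ∈ Icc 1 R' ×ˢ Icc 1 R', |Selberg.lam R' x.1 * Selberg.lam R' x.2|) *
            (∑ y ∈ Icc 1 R ×ˢ Icc 1 R, |Selberg.lam R y.1 * Selberg.lam R y.2|) * X := by
          rw [Finset.sum_mul_sum, Finset.sum_mul]
          refine Finset.sum_congr rfl fun x _ => ?_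
          rw [Finset.sum_mul]
      _ ≤ (R' : ℝ) ^ 4 * (R : ℝ) ^ 4 * X := by
          refine mul_le_mul_of_nonneg_right ?_ hX0
          have h1 := Selberg.abs_sum_lam hR'
          have h2 := Selberg.abs_sum_lam hR
          rw [← Finset.sum_product'] at h1 h2
          exact mul_le_mul h1 h2 (Finset.sum_nonneg fun _ _ => abs_nonneg _) (by positivity)
      _ = _ := by ring
  have hsplit : ∑ x ∈ Icc 1 R' ×ˢ Icc 1 R', ∑ y ∈ Icc 1 R ×ˢ Icc 1 R,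
        (Selberg.lam R' x.1 * Selberg.lam R' x.2) * (Selberg.lam R y.1 * Selberg.lam R y.2) *
          (lat N h (Nat.lcm x.1 x.2) (Nat.lcm y.1 y.2) A B : ℝ) =
      (∑ x ∈ Icc 1 R' ×ˢ Icc 1 R', ∑ y ∈ Icc 1 R ×ˢ Icc 1 R,
        (Selberg.lam R' x.1 * Selberg.lam R' x.2) * (Selberg.lam R y.1 * Selberg.lam R y.2) *
          ((h : ℝ) / ((Nat.lcm x.1 x.2 : ℕ) * (Nat.lcm y.1 y.2 : ℕ)) * lB)) +
      ∑ x ∈ Icc 1 R' ×ˢ Icc 1 R', ∑ y ∈ Icc 1 R ×ˢ Icc 1 R,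
        (Selberg.lam R' x.1 * Selberg.lam R' x.2) * (Selberg.lam R y.1 * Selberg.lam R y.2) *
          ((lat N h (Nat.lcm x.1 x.2) (Nat.lcm y.1 y.2) A B : ℝ) -
          (h : ℝ) / ((Nat.lcm x.1 x.2 : ℕ) * (Nat.lcm y.1 y.2 : ℕ)) * lB) := by
    rw [← Finset.sum_add_distrib]
    refine Finset.sum_congr rfl fun x _ => ?_
    rw [← Finset.sum_add_distrib]
    refine Finset.sum_congr rfl fun y _ => ?_
    ring
  calc _ ≤ _ := step1
    _ = _ := step2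
    _ = _ := hsplit
    _ ≤ _ := by
      rw [hmain]
      have := (abs_le.mp herr).2
      linarith

private lemma ev_rpow (C a b : ℝ) (hab : a < b) :
    ∀ᶠ N : ℕ in atTop, C * (N : ℝ) ^ a ≤ (N : ℝ) ^ b := by
  have h1 : Tendsto (fun N : ℕ => (N : ℝ) ^ (b - a)) atTop atTop :=
    (tendsto_rpow_atTop (by linarith)).comp tendsto_natCast_atTop_atTop
  filter_upwards [h1.eventually_ge_atTop C, eventually_gt_atTop 0] with N h2 h3
  have h4 : (0 : ℝ) < N := by exact_mod_cast h3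
  have h5 : (N : ℝ) ^ b = (N : ℝ) ^ (b - a) * (N : ℝ) ^ a := by
    rw [← Real.rpow_add h4]; congr 1; ring
  rw [h5]
  exact mul_le_mul_of_nonneg_right h2 (by positivity)

theorem near_bound : ∀ᶠ N : ℕ in atTop,
    ∑ p ∈ (Ioc (A1 N) (A2 N)).filter Nat.Prime, TT N (hh N) (RR N) p ≤
      (hh N : ℝ) * Real.log ((A2 N : ℝ) / A1 N) / (Selberg.L (RP N) * Selberg.L (RR N)) +
        (N : ℝ) ^ (49 / 100 : ℝ) := by
  filter_upwards [lat_bound, eventually_ge_atTop 2,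
    ev_rpow 8 (249 / 500) (1 / 2 - 6 * dl) (by norm_num [dl]),
    ev_rpow 2 (1 / 2 + dl) (1 / 2 + 1 / 250) (by norm_num [dl]),
    ev_rpow 3 (47 / 100 + 4 * kp + 4 * dl) (49 / 100) (by norm_num [dl, kp])] with N hlat hN2 e1 e2 e3
  have hN0 : (0 : ℝ) < N := by
    have : 0 < N := by omega
    exact_mod_cast this
  have hN1 : (1 : ℝ) ≤ N := by
    have : 1 ≤ N := by omega
    exact_mod_cast this
  have hdl : (0 : ℝ) < dl := by norm_num [dl]
  have hkp : (0 : ℝ) < kp := by norm_num [kp]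
  have hR : 1 ≤ RR N := by
    unfold RR
    exact Nat.le_floor (by simpa using Real.one_le_rpow hN1 hdl.le)
  have hR' : 1 ≤ RP N := by
    unfold RP
    exact Nat.le_floor (by simpa using Real.one_le_rpow hN1 hkp.le)
  have hRle : (RR N : ℝ) ≤ (N : ℝ) ^ dl := Nat.floor_le (by positivity)
  have hRPle : (RP N : ℝ) ≤ (N : ℝ) ^ kp := Nat.floor_le (by positivity)
  have hhle : (hh N : ℝ) ≤ (N : ℝ) ^ (1 / 2 - dl) := Nat.floor_le (by positivity)
  have hhge : (N : ℝ) ^ (1 / 2 - dl) - 1 ≤ hh N := (Nat.sub_one_lt_floor _).le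
  have hA2le : (A2 N : ℝ) ≤ 2 * (N : ℝ) ^ (1 / 2 + dl) := Nat.floor_le (by positivity)
  have hA2ge : 2 * (N : ℝ) ^ (1 / 2 + dl) - 1 ≤ A2 N := (Nat.sub_one_lt_floor _).le
  have hR5pos : (0 : ℝ) < (RR N : ℝ) ^ 5 := by
    have : (0 : ℝ) < RR N := by exact_mod_cast hR
    positivity
  have hR5le : (RR N : ℝ) ^ 5 ≤ (N : ℝ) ^ (5 * dl) := by
    calc (RR N : ℝ) ^ 5 ≤ ((N : ℝ) ^ dl) ^ 5 := pow_le_pow_left₀ (by positivity) hRle 5
      _ = (N : ℝ) ^ (5 * dl) := by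
        rw [← Real.rpow_natCast, ← Real.rpow_mul hN0.le]; congr 1; push_cast; ring
  have hA1ge : (hh N : ℝ) / (RR N : ℝ) ^ 5 - 1 ≤ A1 N := by
    unfold A1
    have := (Nat.sub_one_lt_floor ((hh N : ℝ) / ((RR N ^ 5 : ℕ) : ℝ))).le
    rw [Nat.floor_div_eq_div] at this
    push_cast at this
    exact this
  have hA1le : (A1 N : ℝ) ≤ hh N := by
    have : A1 N ≤ hh N := Nat.div_le_self _ _
    exact_mod_cast this
  have hq : (N : ℝ) ^ (1 / 2 - 6 * dl) / 2 ≤ (hh N : ℝ) / (RR N : ℝ) ^ 5 := by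
    rw [le_div_iff₀ hR5pos]
    calc (N : ℝ) ^ (1 / 2 - 6 * dl) / 2 * (RR N : ℝ) ^ 5
        ≤ (N : ℝ) ^ (1 / 2 - 6 * dl) / 2 * (N : ℝ) ^ (5 * dl) :=
          mul_le_mul_of_nonneg_left hR5le (by positivity)
      _ = (N : ℝ) ^ (1 / 2 - dl) / 2 := by
          rw [div_mul_eq_mul_div, ← Real.rpow_add hN0]; congr 2; ring
      _ ≤ hh N := by
          have h1 : (1 : ℝ) ≤ (N : ℝ) ^ (249 / 500 : ℝ) := Real.one_le_rpow hN1 (by norm_num)
          have h2 : (N : ℝ) ^ (1 / 2 - 6 * dl) ≤ (N : ℝ) ^ (1 / 2 - dl) :=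
            Real.rpow_le_rpow_of_exponent_le hN1 (by linarith)
          linarith
  have hA1big : 3 * (N : ℝ) ^ (249 / 500 : ℝ) ≤ A1 N := by
    have h1 : (1 : ℝ) ≤ (N : ℝ) ^ (249 / 500 : ℝ) := Real.one_le_rpow hN1 (by norm_num)
    linarith
  have hRA : RR N ≤ A1 N := by
    have h1 : (N : ℝ) ^ dl ≤ (N : ℝ) ^ (249 / 500 : ℝ) :=
      Real.rpow_le_rpow_of_exponent_le hN1 (by norm_num [dl])
    have h2 : (0 : ℝ) ≤ (N : ℝ) ^ (249 / 500 : ℝ) := by positivity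
    have : (RR N : ℝ) ≤ A1 N := by linarith
    exact_mod_cast this
  have hRA' : RP N ≤ A1 N := by
    have h1 : (N : ℝ) ^ kp ≤ (N : ℝ) ^ (249 / 500 : ℝ) :=
      Real.rpow_le_rpow_of_exponent_le hN1 (by norm_num [kp])
    have h2 : (0 : ℝ) ≤ (N : ℝ) ^ (249 / 500 : ℝ) := by positivity
    have : (RP N : ℝ) ≤ A1 N := by linarith
    exact_mod_cast this
  have hA12 : A1 N ≤ A2 N := by
    have h1 : (N : ℝ) ^ (1 / 2 - dl) ≤ (N : ℝ) ^ (1 / 2 + dl) :=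
      Real.rpow_le_rpow_of_exponent_le hN1 (by linarith)
    have h2 : (1 : ℝ) ≤ (N : ℝ) ^ (1 / 2 + dl) := Real.one_le_rpow hN1 (by linarith)
    have : (A1 N : ℝ) ≤ A2 N := by linarith
    exact_mod_cast this
  have hh1 : 1 ≤ hh N := by
    have h1 : (0 : ℝ) < A1 N := by
      have : (1 : ℝ) ≤ (N : ℝ) ^ (249 / 500 : ℝ) := Real.one_le_rpow hN1 (by norm_num)
      linarith
    have : (0 : ℝ) < hh N := by linarith
    exact_mod_cast this
  have hhhalf : (hh N : ℝ) ≤ (N : ℝ) ^ (1 / 2 : ℝ) :=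
    hhle.trans (Real.rpow_le_rpow_of_exponent_le hN1 (by linarith))
  have key := near_general N (hh N) (RR N) (RP N) (A1 N) (A2 N) hR hR' hRA hRA'
    (3 * (N : ℝ) ^ (47 / 100 : ℝ)) (by
      intro d e hd hd2 he he2
      have hd2' : (d : ℝ) ≤ (N : ℝ) ^ (2 * kp) := by
        calc (d : ℝ) ≤ ((RP N ^ 2 : ℕ) : ℝ) := by exact_mod_cast hd2
          _ = (RP N : ℝ) ^ 2 := by push_cast; ring
          _ ≤ ((N : ℝ) ^ kp) ^ 2 := pow_le_pow_left₀ (by positivity) hRPle 2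
          _ = _ := by
            rw [← Real.rpow_natCast, ← Real.rpow_mul hN0.le]; congr 1; push_cast; ring
      have he2' : (e : ℝ) ≤ (N : ℝ) ^ (2 * dl) := by
        calc (e : ℝ) ≤ ((RR N ^ 2 : ℕ) : ℝ) := by exact_mod_cast he2
          _ = (RR N : ℝ) ^ 2 := by push_cast; ring
          _ ≤ ((N : ℝ) ^ dl) ^ 2 := pow_le_pow_left₀ (by positivity) hRle 2
          _ = _ := by
            rw [← Real.rpow_natCast, ← Real.rpow_mul hN0.le]; congr 1; push_cast; ring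
      refine hlat (hh N) d e (A1 N) (A2 N) hh1 hhhalf hd he ?_ ?_ hA12 ?_
      · calc (d : ℝ) * e ≤ (N : ℝ) ^ (2 * kp) * (N : ℝ) ^ (2 * dl) :=
            mul_le_mul hd2' he2' (by positivity) (by positivity)
          _ = (N : ℝ) ^ (2 * kp + 2 * dl) := (Real.rpow_add hN0 _ _).symm
          _ ≤ _ := Real.rpow_le_rpow_of_exponent_le hN1 (by norm_num [dl, kp])
      · have h1 : (1 : ℝ) ≤ (N : ℝ) ^ (1 / 2 - 1 / 250 : ℝ) :=
          Real.one_le_rpow hN1 (by norm_num)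
        calc (d : ℝ) * ((N : ℝ) ^ (1 / 2 - 1 / 250 : ℝ) + 1)
            ≤ (N : ℝ) ^ (2 * kp) * (2 * (N : ℝ) ^ (1 / 2 - 1 / 250 : ℝ)) :=
              mul_le_mul hd2' (by linarith) (by positivity) (by positivity)
          _ = 2 * (N : ℝ) ^ (2 * kp + (1 / 2 - 1 / 250)) := by
              rw [Real.rpow_add hN0]; ring
          _ ≤ 2 * (N : ℝ) ^ (249 / 500 : ℝ) := by
              refine mul_le_mul_of_nonneg_left ?_ (by norm_num)
              exact Real.rpow_le_rpow_of_exponent_le hN1 (by norm_num [kp])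
          _ ≤ A1 N := by
              have : (0 : ℝ) ≤ (N : ℝ) ^ (249 / 500 : ℝ) := by positivity
              linarith
      · exact hA2le.trans e2)
  refine key.trans (add_le_add_right ?_ _)
  have hRP4 : (RP N : ℝ) ^ 4 ≤ (N : ℝ) ^ (4 * kp) := by
    calc (RP N : ℝ) ^ 4 ≤ ((N : ℝ) ^ kp) ^ 4 := pow_le_pow_left₀ (by positivity) hRPle 4
      _ = _ := by
        rw [← Real.rpow_natCast, ← Real.rpow_mul hN0.le]; congr 1; push_cast; ring
  have hR4 : (RR N : ℝ) ^ 4 ≤ (N : ℝ) ^ (4 * dl) := by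
    calc (RR N : ℝ) ^ 4 ≤ ((N : ℝ) ^ dl) ^ 4 := pow_le_pow_left₀ (by positivity) hRle 4
      _ = _ := by
        rw [← Real.rpow_natCast, ← Real.rpow_mul hN0.le]; congr 1; push_cast; ring
  calc 3 * (N : ℝ) ^ (47 / 100 : ℝ) * (RP N : ℝ) ^ 4 * (RR N : ℝ) ^ 4
      ≤ 3 * (N : ℝ) ^ (47 / 100 : ℝ) * (N : ℝ) ^ (4 * kp) * (N : ℝ) ^ (4 * dl) := by
        gcongr
    _ = 3 * (N : ℝ) ^ (47 / 100 + 4 * kp + 4 * dl) := by
        rw [Real.rpow_add hN0, Real.rpow_add hN0]; ring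
    _ ≤ _ := e3

end Pool.Agent.PSK
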