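import Pool.Agent.PSQ.Def
import Pool.Agent.Helper4.ST.Selberg

/-!
# PSK: definitions

Stage 2 of PSQ: products `m q` of a prime `q` and a number `m` with a bounded number of prime
factors from a very thin set, in intervals `(x, x + x^(1/2 - δ))`.

All parameters are powers of `N`: `h = N^(1/2-δ)`, `R = N^δ` (level of the Selberg weights),
`R' = N^κ` (level of the weights which replace the primes near `√N`), `z = N^σ` (roughness),
`A1 = h / R^5` (end of the range of primes with trivial remainder), `A2 = 2 N^(1/2+δ)`.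
-/

set_option autoImplicit false

namespace Pool.Agent.PSK

open Finset Pool.Agent.PSQ
open Pool.Agent.Helper4.ST

/-- `δ` -/
noncomputable def dl : ℝ := 1 / 200000

/-- `κ` -/
noncomputable def kp : ℝ := 1 / 1000

/-- `σ` -/
noncomputable def sg : ℝ := 1 / 10 ^ 9

noncomputable def hh (N : ℕ) : ℕ := ⌊(N : ℝ) ^ (1 / 2 - dl)⌋₊
noncomputable def RR (N : ℕ) : ℕ := ⌊(N : ℝ) ^ dl⌋₊
noncomputable def RP (N : ℕ) : ℕ := ⌊(N : ℝ) ^ kp⌋₊
noncomputable def zN (N : ℕ) : ℕ := ⌊(N : ℝ) ^ sg⌋₊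
noncomputable def A1 (N : ℕ) : ℕ := hh N / RR N ^ 5
noncomputable def A2 (N : ℕ) : ℕ := ⌊2 * (N : ℝ) ^ (1 / 2 + dl)⌋₊

/-- the integers strictly between `N` and `N + h` -/
def JH (N h : ℕ) : Finset ℕ := Finset.Ioo N (N + h)

/-- `J N = (N, N + N^(1/2-δ))` -/
noncomputable def JJ (N : ℕ) : Finset ℕ := JH N (hh N)

/-- the weighted number of multiples of `p` in `(N, N+h)` -/
noncomputable def TT (N h R p : ℕ) : ℝ := ∑ n ∈ (JH N h).filter (fun n => p ∣ n), Selberg.wt R n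

/-- number of pairs `(a, b)`, `A < a ≤ B`, `d ∣ a`, `e ∣ b`, `N < a b < N + h` -/
def lat (N h d e A B : ℕ) : ℕ :=
  ∑ a ∈ (Finset.Ioc A B).filter (fun a => d ∣ a), ((JH N h).filter (fun n => a * e ∣ n)).card

open scoped Classical in
/-- the rough numbers in `JJ N` with a prime factor `> A2 N` -/
noncomputable def GG (N : ℕ) : Finset ℕ :=
  (JJ N).filter (fun n => Rough (zN N) n ∧ ∃ q : ℕ, q.Prime ∧ A2 N < q ∧ q ∣ n)

open scoped Classical in
/-- the available factors -/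
noncomputable def AA (N : ℕ) : Finset ℕ :=
  (Finset.range (hh N + 1)).filter (fun m => 1 < m ∧ Rough (zN N) m ∧
    ∃ q : ℕ, q.Prime ∧ A2 N < q ∧ m * q ∈ JJ N)

lemma mem_JH {N h n : ℕ} : n ∈ JH N h ↔ N < n ∧ n < N + h := by simp [JH]

lemma mem_GG {N n : ℕ} : n ∈ GG N ↔ n ∈ JJ N ∧ Rough (zN N) n ∧
    ∃ q : ℕ, q.Prime ∧ A2 N < q ∧ q ∣ n := by
  simp [GG]

lemma mem_AA {N m : ℕ} : m ∈ AA N ↔ m < hh N + 1 ∧ 1 < m ∧ Rough (zN N) m ∧
    ∃ q : ℕ, q.Prime ∧ A2 N < q ∧ m * q ∈ JJ N := by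
  simp [AA]

/-- roughness in the dyadic block `[2^j, 2^(j+1))` -/
noncomputable def zeta (j : ℕ) : ℕ := ⌊(2 : ℝ) ^ (sg * j)⌋₊

/-- the rough numbers of the dyadic block -/
noncomputable def RB (j : ℕ) : Finset ℕ :=
  (Finset.Ico (2 ^ j) (2 ^ (j + 1))).filter (Rough (zeta j))

end Pool.Agent.PSK
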