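import Pool.Agent.PSK.Fr

/-!
# PSK module BLK: sums of fractional parts over one block

`θ_l`, `l < L`, is within `ε` of the linear function `β - α l`, and `|α - u/q| ≤ 1/(q L')`.
Split `l < L` into the `⌊L/q⌋` full runs `l = l0 + k`, `k < q`, and a rest of fewer than `q` terms
(each at most `1/2` in absolute value).  In a run `θ_{l0+k}` is within `ε + |α - u/q| k ≤ ε + 1/L'`
of `(β - α l0) - u k / q`, so `sum_fract_run` gives `≤ 1/2 + 2 q (ε + 1/L')` for each run.
Total `≤ (L/q)(1/2 + 2 q (ε + 1/L')) + q/2`.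
-/

set_option autoImplicit false

namespace Pool.Agent.PSK

open Finset

private theorem block_runs (L q L' : ℕ) (hq : 1 ≤ q) (hL' : 1 ≤ L') (u : ℤ)
    (hu : IsCoprime u (q : ℤ)) (α β ε : ℝ) (hε : 0 ≤ ε) (hα : |α - u / q| ≤ 1 / (q * L'))
    (θ : ℕ → ℝ) (hθ : ∀ l < L, |θ l - (β - α * l)| ≤ ε) (m : ℕ) (hm : q * m ≤ L) :
    |∑ l ∈ range (q * m), (Int.fract (θ l) - 1 / 2)| ≤
      m * (1 / 2 + 2 * q * (ε + 1 / L')) := by
  have hq0 : (0 : ℝ) < q := by exact_mod_cast hq
  have hL0 : (0 : ℝ) < L' := by exact_mod_cast hL'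
  induction m with
  | zero => simp
  | succ m ih =>
    have hm' : q * m ≤ L := le_trans (Nat.mul_le_mul_left q (Nat.le_succ m)) hm
    have hqm : q * (m + 1) = q * m + q := by ring
    rw [hqm, Finset.sum_range_add]
    have h1 : |∑ k ∈ range q, (Int.fract (θ (q * m + k)) - 1 / 2)| ≤
        1 / 2 + 2 * q * (ε + 1 / L') := by
      apply sum_fract_run q hq u hu (β - α * ((q * m : ℕ) : ℝ)) (ε + 1 / L') (by positivity)
        (fun k => θ (q * m + k))
      intro k hk
      have h2 := hθ (q * m + k) (by omega)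
      have hk' : (k : ℝ) ≤ q := by exact_mod_cast hk.le
      have h3 : |(u / q - α) * (k : ℝ)| ≤ 1 / L' := by
        have hka : |(k : ℝ)| = k := abs_of_nonneg (Nat.cast_nonneg k)
        rw [abs_mul, abs_sub_comm ((u : ℝ) / q) α, hka]
        calc |α - u / q| * (k : ℝ) ≤ 1 / (q * L') * q :=
              mul_le_mul hα hk' (Nat.cast_nonneg k) (by positivity)
          _ = 1 / L' := by field_simp
      have h4 : θ (q * m + k) - (β - α * ((q * m : ℕ) : ℝ) - u * k / q) =
          (θ (q * m + k) - (β - α * ((q * m + k : ℕ) : ℝ))) + (u / q - α) * (k : ℝ) := by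
        push_cast
        ring
      rw [h4]
      exact (abs_add_le _ _).trans (add_le_add h2 h3)
    refine (abs_add_le _ _).trans ?_
    have h5 := ih hm'
    push_cast
    linarith

theorem block (L q L' : ℕ) (hq : 1 ≤ q) (hL' : 1 ≤ L') (u : ℤ) (hu : IsCoprime u (q : ℤ))
    (α β ε : ℝ) (hε : 0 ≤ ε) (hα : |α - u / q| ≤ 1 / (q * L')) (θ : ℕ → ℝ)
    (hθ : ∀ l < L, |θ l - (β - α * l)| ≤ ε) :
    |∑ l ∈ range L, (Int.fract (θ l) - 1 / 2)| ≤
      (L : ℝ) / (2 * q) + 2 * (1 / L' + ε) * L + q / 2 := by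
  have hq0 : (0 : ℝ) < q := by exact_mod_cast hq
  have hL0 : (0 : ℝ) < L' := by exact_mod_cast hL'
  have hm : q * (L / q) ≤ L := Nat.mul_div_le L q
  have h1 := block_runs L q L' hq hL' u hu α β ε hε hα θ hθ (L / q) hm
  have hsplit : ∑ l ∈ range L, (Int.fract (θ l) - 1 / 2) =
      ∑ l ∈ range (q * (L / q)), (Int.fract (θ l) - 1 / 2) +
        ∑ k ∈ range (L % q), (Int.fract (θ (q * (L / q) + k)) - 1 / 2) := by
    rw [← Finset.sum_range_add, Nat.div_add_mod]
  have h2 : |∑ k ∈ range (L % q), (Int.fract (θ (q * (L / q) + k)) - 1 / 2)| ≤ q / 2 := by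
    refine (Finset.abs_sum_le_sum_abs _ _).trans ?_
    have h3 : ∀ k ∈ range (L % q), |Int.fract (θ (q * (L / q) + k)) - 1 / 2| ≤ 1 / 2 := by
      intro k _
      have h4 := Int.fract_nonneg (θ (q * (L / q) + k))
      have h5 := (Int.fract_lt_one (θ (q * (L / q) + k))).le
      rw [abs_le]
      constructor <;> linarith
    refine (Finset.sum_le_sum h3).trans ?_
    rw [Finset.sum_const, Finset.card_range, nsmul_eq_mul]
    have h6 : ((L % q : ℕ) : ℝ) ≤ q := by exact_mod_cast (Nat.mod_lt L hq).le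
    linarith
  rw [hsplit]
  refine (abs_add_le _ _).trans ?_
  have h7 : ((L / q : ℕ) : ℝ) ≤ (L : ℝ) / q := Nat.cast_div_le
  have h8 : 0 ≤ 1 / 2 + 2 * (q : ℝ) * (ε + 1 / L') := by positivity
  have h9 := mul_le_mul_of_nonneg_right h7 h8
  have h10 : (L : ℝ) / q * (1 / 2 + 2 * (q : ℝ) * (ε + 1 / L')) =
      (L : ℝ) / (2 * q) + 2 * (1 / L' + ε) * L := by
    field_simp
    ring
  linarith

end Pool.Agent.PSK
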