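import Pool.Agent.PSK.Rb

/-!
# PSK module CNT: counting the elements of `M` and of `E` (compare `Pool/Agent/PSQ/Cnt.lean`)

`M j ⊆ RB j`, `|M j| ≤ C1 (j+1)`.
* `countM`: `m ∈ M j`, `m ≤ y` gives `2^j ≤ y`, `j ≤ log y/log 2`; at most
  `∑_{j ≤ J} C1 (j+1) ≤ C1 (J+1)² ≤ C (log y)²` elements (`y ≥ 2`).
* `countE`: a prime `p ≤ y` dividing `m ∈ M j` gives `j ≤ C log y` (`j_le_of_dvd`), and `m` has at
  most `K` prime factors (`omega_le`), so at most `K C1 (C log y + 1)² ≤ C' (log y)²` primes.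
-/

set_option autoImplicit false

namespace Pool.Agent.PSK

open Finset

theorem countM (C1 : ℕ) : ∃ C : ℝ, 0 < C ∧ ∀ M : ℕ → Finset ℕ,
    (∀ j, M j ⊆ RB j ∧ (M j).card ≤ C1 * (j + 1)) → ∀ y : ℝ, 2 ≤ y →
    {m : ℕ | (∃ j, m ∈ M j) ∧ (m : ℝ) ≤ y}.Finite ∧
    ({m : ℕ | (∃ j, m ∈ M j) ∧ (m : ℝ) ≤ y}.ncard : ℝ) ≤ C * Real.log y ^ 2 := by
  classical
  have hl2 : 0 < Real.log 2 := Real.log_pos (by norm_num)
  refine ⟨4 * (C1 + 1) / Real.log 2 ^ 2, by positivity, fun M hM y hy => ?_⟩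
  have hly : Real.log 2 ≤ Real.log y := Real.log_le_log (by norm_num) hy
  set J : ℕ := ⌊Real.log y / Real.log 2⌋₊ with hJ
  have hJle : (J : ℝ) ≤ Real.log y / Real.log 2 :=
    Nat.floor_le (div_nonneg (hl2.le.trans hly) hl2.le)
  have hsub : {m : ℕ | (∃ j, m ∈ M j) ∧ (m : ℝ) ≤ y} ⊆ ((range (J + 1)).biUnion M : Finset ℕ) := by
    rintro m ⟨⟨j, hj⟩, hmy⟩
    rw [Finset.mem_coe, Finset.mem_biUnion]
    refine ⟨j, ?_, hj⟩
    rw [Finset.mem_range, Nat.lt_succ_iff]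
    apply Nat.le_floor
    have h1 := (hM j).1 hj
    rw [RB, Finset.mem_filter, Finset.mem_Ico] at h1
    rw [le_div_iff₀ hl2, ← Real.log_pow]
    apply Real.log_le_log (by positivity)
    refine le_trans ?_ hmy
    exact_mod_cast h1.1.1
  have hfin : (((range (J + 1)).biUnion M : Finset ℕ) : Set ℕ).Finite := Finset.finite_toSet _
  refine ⟨hfin.subset hsub, ?_⟩
  have h1 := Set.ncard_le_ncard hsub hfin
  rw [Set.ncard_coe_finset] at h1
  have h2 : ((range (J + 1)).biUnion M).card ≤ (J + 1) * (C1 * (J + 1)) := by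
    refine Finset.card_biUnion_le.trans ?_
    refine (Finset.sum_le_card_nsmul _ _ (C1 * (J + 1)) fun j hj => ?_).trans ?_
    · refine (hM j).2.trans (Nat.mul_le_mul_left _ ?_)
      have := Finset.mem_range.1 hj
      omega
    · simp
  have h3 : (({m : ℕ | (∃ j, m ∈ M j) ∧ (m : ℝ) ≤ y}.ncard : ℕ) : ℝ) ≤
      ((J : ℝ) + 1) * ((C1 : ℝ) * ((J : ℝ) + 1)) := by
    exact_mod_cast h1.trans h2
  refine h3.trans ?_
  have hJ0 : (0 : ℝ) ≤ J := Nat.cast_nonneg _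
  have h6 : (J : ℝ) + 1 ≤ 2 * (Real.log y / Real.log 2) := by
    have : 1 ≤ Real.log y / Real.log 2 := by rw [le_div_iff₀ hl2]; linarith
    linarith
  have hC1 : (0 : ℝ) ≤ (C1 : ℝ) := Nat.cast_nonneg _
  calc ((J : ℝ) + 1) * ((C1 : ℝ) * ((J : ℝ) + 1)) = (C1 : ℝ) * ((J : ℝ) + 1) ^ 2 := by ring
    _ ≤ (C1 + 1 : ℝ) * (2 * (Real.log y / Real.log 2)) ^ 2 := by
        gcongr
        linarith
    _ = 4 * (C1 + 1) / Real.log 2 ^ 2 * Real.log y ^ 2 := by rw [mul_pow, div_pow]; ring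

theorem countE (C1 : ℕ) : ∃ C : ℝ, 0 < C ∧ ∀ M : ℕ → Finset ℕ,
    (∀ j, M j ⊆ RB j ∧ (M j).card ≤ C1 * (j + 1)) → ∀ y : ℝ, 2 ≤ y →
    {p : ℕ | (p.Prime ∧ ∃ j, ∃ m ∈ M j, p ∣ m) ∧ (p : ℝ) ≤ y}.Finite ∧
    ({p : ℕ | (p.Prime ∧ ∃ j, ∃ m ∈ M j, p ∣ m) ∧ (p : ℝ) ≤ y}.ncard : ℝ) ≤
      C * Real.log y ^ 2 := by
  classical
  have hl2 : 0 < Real.log 2 := Real.log_pos (by norm_num)
  obtain ⟨c, hc, h1⟩ := j_le_of_dvd
  obtain ⟨K, hK⟩ := omega_le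
  refine ⟨(C1 * K + 1) * (c + 1 / Real.log 2) ^ 2, by positivity, fun M hM y hy => ?_⟩
  have hly : Real.log 2 ≤ Real.log y := Real.log_le_log (by norm_num) hy
  have hly0 : 0 < Real.log y := hl2.trans_le hly
  set J : ℕ := ⌊c * Real.log y⌋₊ with hJ
  have hJle : (J : ℝ) ≤ c * Real.log y := Nat.floor_le (by positivity)
  have hJ0 : (0 : ℝ) ≤ J := Nat.cast_nonneg _
  have hsub : {p : ℕ | (p.Prime ∧ ∃ j, ∃ m ∈ M j, p ∣ m) ∧ (p : ℝ) ≤ y} ⊆
      ((range (J + 1)).biUnion (fun j => (M j).biUnion Nat.primeFactors) : Finset ℕ) := by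
    rintro p ⟨⟨hp, j, m, hm, hd⟩, hpy⟩
    have hmR := (hM j).1 hm
    rw [Finset.mem_coe, Finset.mem_biUnion]
    refine ⟨j, ?_, ?_⟩
    · rw [Finset.mem_range, Nat.lt_succ_iff]
      apply Nat.le_floor
      refine (h1 j m hmR p hp hd).trans ?_
      apply mul_le_mul_of_nonneg_left _ hc.le
      have hp2 : (2 : ℝ) ≤ p := by exact_mod_cast hp.two_le
      exact Real.log_le_log (by linarith) hpy
    · rw [Finset.mem_biUnion]
      refine ⟨m, hm, ?_⟩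
      rw [RB, Finset.mem_filter, Finset.mem_Ico] at hmR
      have : 0 < 2 ^ j := by positivity
      exact Nat.mem_primeFactors.2 ⟨hp, hd, by omega⟩
  have hfin : (((range (J + 1)).biUnion (fun j => (M j).biUnion Nat.primeFactors) : Finset ℕ) :
    Set ℕ).Finite := Finset.finite_toSet _
  refine ⟨hfin.subset hsub, ?_⟩
  have h3 := Set.ncard_le_ncard hsub hfin
  rw [Set.ncard_coe_finset] at h3
  have hm : ∀ j ∈ range (J + 1), ∀ m ∈ M j, m.primeFactors.card ≤ K := by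
    intro j hj m hmj
    have hmR := (hM j).1 hmj
    refine le_trans ?_ (hK j m hmR)
    rw [ArithmeticFunction.cardFactors_apply]
    exact List.toFinset_card_le _
  have hj : ∀ j ∈ range (J + 1), ((M j).biUnion Nat.primeFactors).card ≤ (C1 * (J + 1)) * K := by
    intro j hj
    refine Finset.card_biUnion_le.trans ((Finset.sum_le_card_nsmul _ _ K (hm j hj)).trans ?_)
    rw [smul_eq_mul]
    refine Nat.mul_le_mul_right _ ((hM j).2.trans (Nat.mul_le_mul_left _ ?_))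
    have := Finset.mem_range.1 hj
    omega
  have h7 : {p : ℕ | (p.Prime ∧ ∃ j, ∃ m ∈ M j, p ∣ m) ∧ (p : ℝ) ≤ y}.ncard ≤
      (J + 1) * ((C1 * (J + 1)) * K) := by
    refine (h3.trans Finset.card_biUnion_le).trans ((Finset.sum_le_card_nsmul _ _ _ hj).trans ?_)
    rw [smul_eq_mul, Finset.card_range]
  have h8 : (({p : ℕ | (p.Prime ∧ ∃ j, ∃ m ∈ M j, p ∣ m) ∧ (p : ℝ) ≤ y}.ncard : ℕ) : ℝ) ≤
      ((J : ℝ) + 1) * (((C1 : ℝ) * ((J : ℝ) + 1)) * (K : ℝ)) := by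
    exact_mod_cast h7
  refine h8.trans ?_
  have h9 : (J : ℝ) + 1 ≤ (c + 1 / Real.log 2) * Real.log y := by
    have : 1 ≤ 1 / Real.log 2 * Real.log y := by
      rw [one_div_mul_eq_div, le_div_iff₀ hl2]; linarith
    rw [add_mul]
    linarith
  have hCK : (0 : ℝ) ≤ (C1 : ℝ) * K := by positivity
  calc ((J : ℝ) + 1) * (((C1 : ℝ) * ((J : ℝ) + 1)) * (K : ℝ))
      = ((C1 : ℝ) * K) * ((J : ℝ) + 1) ^ 2 := by ring
    _ ≤ ((C1 : ℝ) * K + 1) * ((c + 1 / Real.log 2) * Real.log y) ^ 2 := by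
        gcongr
        linarith
    _ = ((C1 : ℝ) * K + 1) * (c + 1 / Real.log 2) ^ 2 * Real.log y ^ 2 := by ring

end Pool.Agent.PSK
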