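import Mathlib

/-!
# PSK module FEW: few blocks have a slope near a fraction with small denominator

`α_i`, `i < I`, decreasing with `α_i - α_j ≥ s (j - i)` for `i < j`, `0 ≤ α_i ≤ αm`.
If `|α_i - u_i/q_i| ≤ 1/(q_i L')`, `q_i < Q0`, then (`L' ≥ 2`) `u_i ≥ 0` (`u_i ≥ α_i q_i - 1/L' > -1`)
and `u_i ≤ αm Q0 + 1/2`, so the pair `(q_i, u_i)` takes at most `Q0 (Q0 αm + 2)` values; for a given
pair the `i` with `|α_i - u/q| ≤ 1/(q L') ≤ 1/L'` are contained in an interval of length
`≤ 2/(L' s)` (for `i < j` in it `s (j - i) ≤ α_i - α_j ≤ 2/L'`), so there are at most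
`2/(L' s) + 1` of them.
-/

set_option autoImplicit false

namespace Pool.Agent.PSK

open Finset

private lemma fiber_bound (L' : ℕ) (hL' : 2 ≤ L') (α : ℕ → ℝ) (s : ℝ) (hs : 0 < s)
    (q : ℕ) (hq : 1 ≤ q) (u : ℤ) (F : Finset ℕ) (I : ℕ)
    (hsep : ∀ i j, i < j → j < I → s * ((j : ℝ) - i) ≤ α i - α j)
    (hF : ∀ i ∈ F, i < I ∧ |α i - u / q| ≤ 1 / (q * L')) :
    (F.card : ℝ) ≤ 2 / (L' * s) + 1 := by
  have hL0 : (0 : ℝ) < L' := by exact_mod_cast (by omega : 0 < L')
  have hq0 : (1 : ℝ) ≤ q := by exact_mod_cast hq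
  rcases F.eq_empty_or_nonempty with hemp | hne
  · rw [hemp, Finset.card_empty, Nat.cast_zero]
    positivity
  set a := F.min' hne with ha
  set b := F.max' hne with hb
  have ham : a ∈ F := F.min'_mem hne
  have hbm : b ∈ F := F.max'_mem hne
  have hab : a ≤ b := F.min'_le b hbm
  have hsub : F ⊆ Icc a b := by
    intro i hi
    rw [Finset.mem_Icc]
    exact ⟨F.min'_le i hi, F.le_max' i hi⟩
  have hcard : (F.card : ℝ) ≤ (b : ℝ) - a + 1 := by
    have h1 := Finset.card_le_card hsub
    rw [Nat.card_Icc] at h1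
    have h2 : ((b + 1 - a : ℕ) : ℝ) = (b : ℝ) - a + 1 := by
      rw [Nat.cast_sub (by omega)]
      push_cast
      ring
    rw [← h2]
    exact_mod_cast h1
  rcases eq_or_lt_of_le hab with heq | hlt
  · rw [heq] at hcard
    have : 0 ≤ 2 / (L' * s) := by positivity
    linarith
  · have h1 := hsep a b hlt (hF b hbm).1
    have h2 := (hF a ham).2
    have h3 := (hF b hbm).2
    have h4 : 1 / ((q : ℝ) * L') ≤ 1 / L' := by
      apply one_div_le_one_div_of_le hL0
      nlinarith
    have h5 := (abs_le.1 h2).2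
    have h6 := (abs_le.1 h3).1
    have h7 : s * ((b : ℝ) - a) ≤ 2 / L' := by
      have : 2 / (L' : ℝ) = 1 / L' + 1 / L' := by ring
      linarith
    have h8 : (b : ℝ) - a ≤ 2 / (L' * s) := by
      rw [le_div_iff₀ (by positivity)]
      rw [le_div_iff₀ hL0] at h7
      linarith
    linarith

theorem few_bad (I Q0 L' : ℕ) (hL' : 2 ≤ L') (α : ℕ → ℝ) (s αm : ℝ) (hs : 0 < s)
    (hsep : ∀ i j, i < j → j < I → s * ((j : ℝ) - i) ≤ α i - α j)
    (h0 : ∀ i < I, 0 ≤ α i ∧ α i ≤ αm) (q : ℕ → ℕ) (u : ℕ → ℤ)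
    (h : ∀ i < I, 1 ≤ q i ∧ |α i - u i / q i| ≤ 1 / (q i * L')) (hαm : 0 ≤ αm) :
    (((range I).filter (fun i => q i < Q0)).card : ℝ) ≤
      Q0 * (Q0 * αm + 2) * (2 / (L' * s) + 1) := by
  classical
  have hL0 : (0 : ℝ) < L' := by exact_mod_cast (by omega : 0 < L')
  have hL2 : (2 : ℝ) ≤ L' := by exact_mod_cast hL'
  set B := (range I).filter (fun i => q i < Q0) with hB
  set M : ℕ := ⌊(Q0 : ℝ) * αm + 1 / 2⌋₊ with hM
  set T : Finset (ℕ × ℤ) := (range Q0) ×ˢ ((range (M + 1)).image (fun k : ℕ => (k : ℤ))) with hT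
  have hmap : ∀ i ∈ B, (q i, u i) ∈ T := by
    intro i hi
    rw [hB, Finset.mem_filter, Finset.mem_range] at hi
    obtain ⟨hq1, habs⟩ := h i hi.1
    obtain ⟨hα0, hα1⟩ := h0 i hi.1
    have hqi : (1 : ℝ) ≤ q i := by exact_mod_cast hq1
    have hqi0 : (0 : ℝ) < q i := by linarith
    have hqQ : (q i : ℝ) ≤ Q0 := by exact_mod_cast hi.2.le
    have h2 := abs_le.1 habs
    have hmul : |α i * q i - u i| ≤ 1 / L' := by
      have e : α i * q i - u i = (α i - u i / q i) * q i := by field_simp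
      rw [e, abs_mul, abs_of_pos hqi0]
      calc |α i - u i / q i| * q i ≤ 1 / (q i * L') * q i := by gcongr
        _ = 1 / L' := by field_simp
    have hhalf : 1 / (L' : ℝ) ≤ 1 / 2 := one_div_le_one_div_of_le (by norm_num) hL2
    have h3 := abs_le.1 hmul
    have hu0 : 0 ≤ u i := by
      have : (-1 : ℝ) < u i := by
        have : 0 ≤ α i * q i := by positivity
        linarith
      have : (-1 : ℤ) < u i := by exact_mod_cast this
      omega
    have huM : (u i).toNat ≤ M := by
      apply Nat.le_floor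
      have h4 : (((u i).toNat : ℕ) : ℝ) = (u i : ℝ) := by
        have := Int.toNat_of_nonneg hu0
        exact_mod_cast congrArg (Int.cast : ℤ → ℝ) this
      rw [h4]
      have h5 : α i * q i ≤ Q0 * αm := by
        rw [mul_comm]
        exact mul_le_mul hqQ hα1 hα0 (by positivity)
      linarith
    rw [hT, Finset.mem_product, Finset.mem_range, Finset.mem_image]
    refine ⟨hi.2, (u i).toNat, ?_, Int.toNat_of_nonneg hu0⟩
    rw [Finset.mem_range]
    omega
  have hcardT : (T.card : ℝ) ≤ Q0 * (Q0 * αm + 2) := by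
    rw [hT, Finset.card_product, Finset.card_range, Nat.cast_mul]
    apply mul_le_mul_of_nonneg_left _ (Nat.cast_nonneg _)
    have h1 : ((range (M + 1)).image (fun k : ℕ => (k : ℤ))).card ≤ M + 1 := by
      refine Finset.card_image_le.trans ?_
      rw [Finset.card_range]
    have h2 : (M : ℝ) ≤ Q0 * αm + 1 / 2 := Nat.floor_le (by positivity)
    calc ((((range (M + 1)).image (fun k : ℕ => (k : ℤ))).card : ℕ) : ℝ) ≤ ((M + 1 : ℕ) : ℝ) := by
          exact_mod_cast h1
      _ = (M : ℝ) + 1 := by push_cast; ring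
      _ ≤ Q0 * αm + 2 := by linarith
  have hfib := Finset.card_eq_sum_card_fiberwise (f := fun i => (q i, u i)) (s := B) (t := T)
    (fun i hi => hmap i hi)
  rw [hfib, Nat.cast_sum]
  calc ∑ p ∈ T, ((B.filter (fun i => (q i, u i) = p)).card : ℝ)
      ≤ ∑ _p ∈ T, (2 / (L' * s) + 1) := by
        apply Finset.sum_le_sum
        rintro ⟨p1, p2⟩ _
        rcases Finset.eq_empty_or_nonempty (B.filter (fun i => (q i, u i) = (p1, p2))) with
          he | ⟨i0, hi0⟩
        · rw [he, Finset.card_empty, Nat.cast_zero]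
          positivity
        · have hp1 : 1 ≤ p1 := by
            rw [Finset.mem_filter, hB, Finset.mem_filter, Finset.mem_range] at hi0
            have := (h i0 hi0.1.1).1
            have h3 : q i0 = p1 := (Prod.mk.injEq _ _ _ _ ▸ hi0.2).1
            omega
          apply fiber_bound L' hL' α s hs p1 hp1 p2 _ I hsep
          intro i hi
          rw [Finset.mem_filter, hB, Finset.mem_filter, Finset.mem_range] at hi
          obtain ⟨⟨hiI, _⟩, h3⟩ := hi
          have h4 : q i = p1 := congrArg Prod.fst h3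
          have h5 : u i = p2 := congrArg Prod.snd h3
          refine ⟨hiI, ?_⟩
          have := (h i hiI).2
          rw [h4, h5] at this
          exact this
    _ = T.card * (2 / (L' * s) + 1) := by rw [Finset.sum_const, nsmul_eq_mul]
    _ ≤ Q0 * (Q0 * αm + 2) * (2 / (L' * s) + 1) := by
        apply mul_le_mul_of_nonneg_right hcardT
        positivity

end Pool.Agent.PSK
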