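import Pool.Agent.PSK.Wgt
import Pool.Agent.PSK.Cnt
import Pool.Agent.PSQ.Hit

/-!
# PSK module FIN: final assembly (compare `Pool/Agent/PSQ/Fin.lean`)

`weights_ge` + `PSQ.hitting` (`S = {N ≥ N0 : no prime in JJ N}`, `K j = C1 (j+1)`) give `M j`.  Let
`M = ⋃ M j ∪ {1} ∪ {m ≤ N0}`, `E = {p prime : p ∣ m ∈ M j} ∪ {p ≤ N0}`, `δ = dl`.
For real `x ≥ 117`, `N = ⌊x⌋`: if `N < N0`: `n = N + 1 < x + x^(1/2-δ)` (`x^(1/2-δ) > 1`),
`q = n.minFac`, `m = n/q`.  If `N ≥ N0` and `JJ N` contains a prime `q`: `n = q`, `m = 1`.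
Otherwise `m ∈ AA N ∩ M j`, `n = m q ∈ JJ N`, `q ≥ A2 N + 1 > 2 √N`, `q² ≥ 4N > n`; a prime `p ∣ n`
with `p² ≤ n` is `≠ q`, so `p ∣ m`.  `Ω(n) ≤ K + 1` (`omega_le`), and `Ω(n) ≤ N0` if `n ≤ N0`.
Elements of `JJ N` lie in `(x, x + x^(1/2-δ))`.
-/

set_option autoImplicit false

namespace Pool.Agent.PSK

open Finset Pool.Agent.PSQ

private lemma omega_le_self (n : ℕ) (hn : n ≠ 0) : ArithmeticFunction.cardFactors n ≤ n := by
  rw [ArithmeticFunction.cardFactors_apply]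
  have h1 : ∀ l : List ℕ, (∀ x ∈ l, 2 ≤ x) → 2 ^ l.length ≤ l.prod := by
    intro l
    induction l with
    | nil => simp
    | cons a l ih =>
      intro h
      rw [List.length_cons, List.prod_cons, pow_succ, mul_comm]
      exact Nat.mul_le_mul (h a (by simp)) (ih fun x hx => h x (by simp [hx]))
  have h2 := h1 n.primeFactorsList fun x hx => (Nat.prime_of_mem_primeFactorsList hx).two_le
  rw [Nat.prod_primeFactorsList hn] at h2
  exact (Nat.lt_two_pow_self).le.trans h2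

private lemma dl_lt : dl < 1 / 2 := by unfold dl; norm_num

private lemma dl_pos : 0 < dl := by unfold dl; norm_num

private lemma mem_JJ_real {N n : ℕ} {x : ℝ} (hx : 1 ≤ x) (hN : N = ⌊x⌋₊) (hn : n ∈ JJ N) :
    x < n ∧ (n : ℝ) < x + x ^ (1 / 2 - dl) := by
  rw [JJ, mem_JH] at hn
  have h1 : x < N + 1 := by rw [hN]; exact Nat.lt_floor_add_one x
  have h2 : (N : ℝ) ≤ x := by rw [hN]; exact Nat.floor_le (by linarith)
  have h3 : ((N + 1 : ℕ) : ℝ) ≤ n := by exact_mod_cast hn.1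
  have h4 : (n : ℝ) < ((N + hh N : ℕ) : ℝ) := by exact_mod_cast hn.2
  push_cast at h3 h4
  have h5 : (hh N : ℝ) ≤ x ^ (1 / 2 - dl) := by
    unfold hh
    refine (Nat.floor_le (by positivity)).trans ?_
    exact Real.rpow_le_rpow (Nat.cast_nonneg _) h2 (by linarith [dl_lt])
  constructor <;> linarith

private lemma big_q {N n q : ℕ} (hN : 1 ≤ N) (hn : n ∈ JJ N) (hq : A2 N < q) : n < q ^ 2 := by
  rw [JJ, mem_JH] at hn
  have hN1 : (1 : ℝ) ≤ N := by exact_mod_cast hN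
  have h1 : (2 : ℝ) * (N : ℝ) ^ (1 / 2 + dl) < q := by
    unfold A2 at hq
    exact (Nat.floor_lt (by positivity)).1 hq
  have h2 : (N : ℝ) ^ (1 / 2 : ℝ) ≤ (N : ℝ) ^ (1 / 2 + dl) :=
    Real.rpow_le_rpow_of_exponent_le hN1 (by linarith [dl_pos])
  have h3 : ((N : ℝ) ^ (1 / 2 : ℝ)) ^ 2 = N := by
    rw [← Real.rpow_natCast, ← Real.rpow_mul (by linarith)]
    norm_num
  have h4 : 0 < (N : ℝ) ^ (1 / 2 : ℝ) := by positivity
  have h5 : (4 : ℝ) * N ≤ (q : ℝ) ^ 2 := by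
    have h6 : 2 * (N : ℝ) ^ (1 / 2 : ℝ) ≤ q := by linarith
    calc (4 : ℝ) * N = (2 * (N : ℝ) ^ (1 / 2 : ℝ)) ^ 2 := by rw [mul_pow, h3]; ring
      _ ≤ (q : ℝ) ^ 2 := pow_le_pow_left₀ (by positivity) h6 2
  have h6 : hh N ≤ N := by
    have := hh_le N hN
    exact_mod_cast this
  have h7 : 4 * N ≤ q ^ 2 := by exact_mod_cast h5
  omega

private lemma count_aux {P : ℕ → Prop} {C y : ℝ} {B : ℕ} (hy : 2 ≤ y) (Q : ℕ → Prop)
    (hQ : ∀ m, Q m → P m ∨ m ≤ B)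
    (h1 : {m : ℕ | P m ∧ (m : ℝ) ≤ y}.Finite)
    (h2 : ({m : ℕ | P m ∧ (m : ℝ) ≤ y}.ncard : ℝ) ≤ C * Real.log y ^ 2) :
    {m : ℕ | Q m ∧ (m : ℝ) ≤ y}.Finite ∧
    ({m : ℕ | Q m ∧ (m : ℝ) ≤ y}.ncard : ℝ) ≤
      (C + (B + 1) / Real.log 2 ^ 2) * Real.log y ^ 2 := by
  have hsub : {m : ℕ | Q m ∧ (m : ℝ) ≤ y} ⊆ {m : ℕ | P m ∧ (m : ℝ) ≤ y} ∪ Set.Iic B := by
    rintro m ⟨hm, hmy⟩
    rcases hQ m hm with h | h
    · exact Or.inl ⟨h, hmy⟩
    · exact Or.inr h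
  have hfin : ({m : ℕ | P m ∧ (m : ℝ) ≤ y} ∪ Set.Iic B).Finite := h1.union (Set.finite_Iic B)
  refine ⟨hfin.subset hsub, ?_⟩
  have h3 := Set.ncard_le_ncard hsub hfin
  have h4 := Set.ncard_union_le {m : ℕ | P m ∧ (m : ℝ) ≤ y} (Set.Iic B)
  have h5 : (Set.Iic B).ncard = B + 1 := by
    rw [Set.ncard_eq_toFinset_card']
    simp
  rw [h5] at h4
  have h6 : (({m : ℕ | Q m ∧ (m : ℝ) ≤ y}.ncard : ℕ) : ℝ) ≤
      ({m : ℕ | P m ∧ (m : ℝ) ≤ y}.ncard : ℝ) + (B + 1) := by exact_mod_cast h3.trans h4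
  have hl2 : 0 < Real.log 2 := Real.log_pos (by norm_num)
  have h7 : Real.log 2 ^ 2 ≤ Real.log y ^ 2 :=
    pow_le_pow_left₀ hl2.le (Real.log_le_log (by norm_num) hy) 2
  have h8 : ((B : ℝ) + 1) ≤ (B + 1) / Real.log 2 ^ 2 * Real.log y ^ 2 := by
    rw [div_mul_eq_mul_div, le_div_iff₀ (by positivity)]
    exact mul_le_mul_of_nonneg_left h7 (by positivity)
  rw [add_mul]
  linarith

theorem main : ∃ (E M : Set ℕ) (δ C : ℝ) (K : ℕ), 0 < δ ∧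
    (∀ p ∈ E, p.Prime) ∧
    (∀ y : ℝ, 2 ≤ y → {p : ℕ | p ∈ E ∧ (p : ℝ) ≤ y}.Finite ∧
      ({p : ℕ | p ∈ E ∧ (p : ℝ) ≤ y}.ncard : ℝ) ≤ C * Real.log y ^ 2) ∧
    (∀ y : ℝ, 2 ≤ y → {m : ℕ | m ∈ M ∧ (m : ℝ) ≤ y}.Finite ∧
      ({m : ℕ | m ∈ M ∧ (m : ℝ) ≤ y}.ncard : ℝ) ≤ C * Real.log y ^ 2) ∧
    ∀ x : ℝ, 117 ≤ x → ∃ n m q : ℕ, x < n ∧ (n : ℝ) < x + x ^ (1 / 2 - δ) ∧
      n = m * q ∧ m ∈ M ∧ q.Prime ∧
      (∀ p : ℕ, p.Prime → p ∣ n → p ^ 2 ≤ n → p ∈ E) ∧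
      ArithmeticFunction.cardFactors n ≤ K := by
  obtain ⟨B1, N0, hB1, hN0, hw⟩ := weights_ge
  obtain ⟨C1, hC1, h1⟩ := countM B1
  obtain ⟨C2, hC2, h2⟩ := countE B1
  obtain ⟨K, hK⟩ := omega_le
  obtain ⟨M, hM, hhit⟩ := hitting RB RB_nonempty (fun j => B1 * (j + 1))
    {N : ℕ | N0 ≤ N ∧ ∀ q ∈ JJ N, ¬ q.Prime} (fun N hN => hN0.trans hN.1)
    AA (fun N => Nat.log 2 (hh N) + 1)
    (fun N hN => hw N hN.1 hN.2)
  have hl2 : 0 < Real.log 2 := Real.log_pos (by norm_num)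
  set D : ℝ := ((N0 + 1 : ℕ) + 1) / Real.log 2 ^ 2 with hD
  have hDpos : 0 < D := by positivity
  set C : ℝ := C1 + C2 + D with hC
  have hcount : ∀ (c : ℝ) (y : ℝ), 2 ≤ y → c + D ≤ C →
      (c + D) * Real.log y ^ 2 ≤ C * Real.log y ^ 2 := by
    intro c y hy hc
    exact mul_le_mul_of_nonneg_right hc (by positivity)
  refine ⟨{p | p.Prime ∧ ((∃ j, ∃ m ∈ M j, p ∣ m) ∨ p ≤ N0 + 1)},
    {m | (∃ j, m ∈ M j) ∨ m ≤ N0 + 1}, dl, C, K + N0 + 1, dl_pos, fun p hp => hp.1, ?_, ?_, ?_⟩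
  · intro y hy
    obtain ⟨ha, hb⟩ := h2 M hM y hy
    obtain ⟨hc, hd⟩ := count_aux (B := N0 + 1) hy
      (fun p => p.Prime ∧ ((∃ j, ∃ m ∈ M j, p ∣ m) ∨ p ≤ N0 + 1))
      (fun p hp => by
        rcases hp.2 with h | h
        · exact Or.inl ⟨hp.1, h⟩
        · exact Or.inr h) ha hb
    refine ⟨hc, hd.trans (hcount C2 y hy ?_)⟩
    rw [hC]; linarith
  · intro y hy
    obtain ⟨ha, hb⟩ := h1 M hM y hy
    obtain ⟨hc, hd⟩ := count_aux (B := N0 + 1) hy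
      (fun m => (∃ j, m ∈ M j) ∨ m ≤ N0 + 1) (fun m hm => hm) ha hb
    refine ⟨hc, hd.trans (hcount C1 y hy ?_)⟩
    rw [hC]; linarith
  · intro x hx
    have hx1 : 1 ≤ x := by linarith
    set N := ⌊x⌋₊ with hN
    have hN117 : 117 ≤ N := Nat.le_floor (by exact_mod_cast hx)
    rcases lt_or_ge N N0 with hlt | hge
    · -- small N
      have hn1 : N + 1 ≠ 1 := by omega
      refine ⟨N + 1, (N + 1) / (N + 1).minFac, (N + 1).minFac, ?_, ?_, ?_, ?_,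
        Nat.minFac_prime hn1, ?_, ?_⟩
      · push_cast
        rw [hN]
        exact Nat.lt_floor_add_one x
      · push_cast
        have ha : (N : ℝ) ≤ x := by rw [hN]; exact Nat.floor_le (by linarith)
        have hb : (1 : ℝ) < x ^ (1 / 2 - dl) :=
          Real.one_lt_rpow (by linarith) (by linarith [dl_lt])
        linarith
      · exact (Nat.div_mul_cancel (Nat.minFac_dvd _)).symm
      · right
        exact (Nat.div_le_self _ _).trans (by omega)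
      · intro p hp hd _
        exact ⟨hp, Or.inr ((Nat.le_of_dvd (by omega) hd).trans (by omega))⟩
      · have ha := omega_le_self (N + 1) (by omega)
        omega
    · by_cases hpr : ∃ q ∈ JJ N, q.Prime
      · obtain ⟨q, hq, hqp⟩ := hpr
        obtain ⟨ha, hb⟩ := mem_JJ_real hx1 hN hq
        refine ⟨q, 1, q, ha, hb, by rw [one_mul], Or.inr (by omega), hqp, ?_, ?_⟩
        · intro p hp hd hle
          rw [Nat.prime_dvd_prime_iff_eq hp hqp] at hd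
          subst hd
          have := hp.two_le
          nlinarith
        · rw [ArithmeticFunction.cardFactors_apply_prime hqp]
          omega
      · push Not at hpr
        obtain ⟨j, m, hm⟩ := hhit N ⟨hge, hpr⟩
        rw [Finset.mem_inter] at hm
        obtain ⟨hmA, hmM⟩ := hm
        rw [mem_AA] at hmA
        obtain ⟨hmt, hm1, hmr, q, hqp, hqt, hqJ⟩ := hmA
        obtain ⟨ha, hb⟩ := mem_JJ_real hx1 hN hqJ
        refine ⟨m * q, m, q, ha, hb, rfl, Or.inl ⟨j, hmM⟩, hqp, ?_, ?_⟩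
        · intro p hp hd hle
          rcases (Nat.Prime.dvd_mul hp).1 hd with h | h
          · exact ⟨hp, Or.inl ⟨j, m, hmM, h⟩⟩
          · rw [Nat.prime_dvd_prime_iff_eq hp hqp] at h
            subst h
            exact absurd (big_q (by omega) hqJ hqt) (by omega)
        · have hm0 : m ≠ 0 := by omega
          rw [ArithmeticFunction.cardFactors_mul hm0 hqp.ne_zero,
            ArithmeticFunction.cardFactors_apply_prime hqp]
          have ho := hK j m ((hM j).1 hmM)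
          omega

end Pool.Agent.PSK
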