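import Mathlib

/-!
# PSK module FR: sums of fractional parts over one run

`fract` is one-sided Lipschitz: `fract (v + h) ≤ fract v + h` for `h ≥ 0`.

* `sum_fract_equi`: the numbers `fract (β + r/q)`, `0 ≤ r < q`, are, up to order,
  `β' + s/q`, `0 ≤ s < q`, with `β' = fract (q β) / q ∈ [0, 1/q)`; the sum of `fract - 1/2` is
  `q β' - 1/2 = fract (q β) - 1/2`.  (Or: Hermite's identity `∑ ⌊β + r/q⌋ = ⌊q β⌋`; or induction
  free: `fract(x) - 1/2` summed over a full period; any proof.)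
* `sum_fract_run`: `θ_k` is within `η` of `β - u k / q`, `u` coprime to `q`.  Upper bound:
  `fract (θ_k) ≤ fract (β - u k/q - η) + 2 η` (one-sided Lipschitz, `θ_k ≥ β - u k/q - η`); the
  residues `-u k mod q`, `0 ≤ k < q`, are all the residues, `fract` has period `1`, so
  `∑ fract (β - η - u k / q) = ∑ fract (β - η + r/q)` and `sum_fract_equi` gives
  `∑ (fract θ_k - 1/2) ≤ 1/2 + 2 η q`.  Lower bound: `fract (β - u k/q + η) ≤ fract (θ_k) + 2 η`.
-/

set_option autoImplicit false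

namespace Pool.Agent.PSK

open Finset

theorem fract_add_le (v h : ℝ) (hh : 0 ≤ h) : Int.fract (v + h) ≤ Int.fract v + h := by
  unfold Int.fract
  have h1 : ⌊v⌋ ≤ ⌊v + h⌋ := Int.floor_le_floor (by linarith)
  have h2 : ((⌊v⌋ : ℤ) : ℝ) ≤ ((⌊v + h⌋ : ℤ) : ℝ) := by exact_mod_cast h1
  linarith

/-- the fractional part of `b + n / q` depends on `n` modulo `q` only. -/
theorem fr_fract_zmod (q : ℕ) [NeZero q] (b : ℝ) (n : ℤ) :
    Int.fract (b + (n : ℝ) / q) = Int.fract (b + (((n : ZMod q).val : ℕ) : ℝ) / q) := by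
  have hq : (q : ℝ) ≠ 0 := by exact_mod_cast NeZero.ne q
  have h1 : (((n : ZMod q).val : ℕ) : ℤ) = n % q := ZMod.val_intCast n
  have h2 : (n : ℤ) = (((n : ZMod q).val : ℕ) : ℤ) + q * (n / q) := by
    rw [h1]
    exact (Int.emod_add_mul_ediv n q).symm
  have h3 : (n : ℝ) = (((n : ZMod q).val : ℕ) : ℝ) + q * ((n / q : ℤ) : ℝ) := by
    exact_mod_cast h2
  have h4 : b + (n : ℝ) / q = (b + (((n : ZMod q).val : ℕ) : ℝ) / q) + ((n / q : ℤ) : ℝ) := by
    have h5 : (n : ℝ) / q = (((n : ZMod q).val : ℕ) : ℝ) / q + ((n / q : ℤ) : ℝ) := by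
      rw [div_eq_iff hq, add_mul, div_mul_cancel₀ _ hq]
      linarith
    rw [h5]; ring
  rw [h4, Int.fract_add_intCast]

/-- a sum over `range q` of a function of the residue. -/
theorem fr_sum_zmod (q : ℕ) [NeZero q] (G : ZMod q → ℝ) :
    ∑ k ∈ range q, G (k : ZMod q) = ∑ x : ZMod q, G x := by
  refine Finset.sum_nbij' (fun k => (k : ZMod q)) (fun x => x.val) ?_ ?_ ?_ ?_ ?_
  · intro k _; exact Finset.mem_univ _
  · intro x _; exact Finset.mem_range.2 (ZMod.val_lt x)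
  · intro k hk; exact ZMod.val_cast_of_lt (Finset.mem_range.1 hk)
  · intro x _; exact ZMod.natCast_zmod_val x
  · intro k _; rfl

theorem fr_sum_perm (q : ℕ) (hq : 1 ≤ q) (u c : ℤ) (hu : IsCoprime u (q : ℤ)) (b : ℝ) :
    ∑ k ∈ range q, Int.fract (b + ((c : ℝ) + u * k) / q)
      = ∑ s ∈ range q, Int.fract (b + (s : ℝ) / q) := by
  have : NeZero q := ⟨by omega⟩
  have h1 : ∀ k ∈ range q, Int.fract (b + ((c : ℝ) + u * k) / q)
      = (fun x : ZMod q => Int.fract (b + ((x.val : ℕ) : ℝ) / q))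
          ((c : ZMod q) + (u : ZMod q) * ((k : ℕ) : ZMod q)) := by
    intro k _
    have h := fr_fract_zmod q b (c + u * k)
    push_cast at h
    exact h
  have h2 : ∀ s ∈ range q, Int.fract (b + (s : ℝ) / q)
      = (fun x : ZMod q => Int.fract (b + ((x.val : ℕ) : ℝ) / q)) ((s : ℕ) : ZMod q) := by
    intro s _
    have h := fr_fract_zmod q b (s : ℤ)
    push_cast at h
    exact h
  rw [Finset.sum_congr rfl h1, Finset.sum_congr rfl h2,
    fr_sum_zmod q (fun x : ZMod q => Int.fract (b + ((x.val : ℕ) : ℝ) / q)),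
    fr_sum_zmod q (fun y : ZMod q => (fun x : ZMod q => Int.fract (b + ((x.val : ℕ) : ℝ) / q))
      ((c : ZMod q) + (u : ZMod q) * y))]
  have hunit : IsUnit (u : ZMod q) := by
    obtain ⟨a, d, had⟩ := hu
    have h3 : ((a * u + d * (q : ℤ) : ℤ) : ZMod q) = ((1 : ℤ) : ZMod q) := by rw [had]
    push_cast at h3
    rw [ZMod.natCast_self, mul_zero, add_zero] at h3
    exact IsUnit.of_mul_eq_one (a : ZMod q) (by rw [mul_comm]; exact h3)
  have hbij : Function.Bijective (fun y : ZMod q => (c : ZMod q) + (u : ZMod q) * y) := by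
    rw [Finite.injective_iff_bijective.symm]
    intro y z hyz
    exact hunit.mul_left_cancel (add_left_cancel hyz)
  exact hbij.sum_comp (fun x : ZMod q => Int.fract (b + ((x.val : ℕ) : ℝ) / q))

theorem sum_fract_equi (q : ℕ) (hq : 1 ≤ q) (β : ℝ) :
    |∑ r ∈ range q, (Int.fract (β + (r : ℝ) / q) - 1 / 2)| ≤ 1 / 2 := by
  have hq0 : (0 : ℝ) < q := by exact_mod_cast hq
  have hqn : (q : ℝ) ≠ 0 := hq0.ne'
  have h1 : ∑ r ∈ range q, Int.fract (β + (r : ℝ) / q)
      = ∑ s ∈ range q, Int.fract (Int.fract (q * β) / q + (s : ℝ) / q) := by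
    rw [← fr_sum_perm q hq 1 ⌊(q : ℝ) * β⌋ isCoprime_one_left (Int.fract (q * β) / q)]
    apply Finset.sum_congr rfl
    intro r _
    congr 1
    have h2 : (⌊(q : ℝ) * β⌋ : ℝ) + Int.fract ((q : ℝ) * β) = q * β := Int.floor_add_fract _
    have h3 : (Int.fract ((q : ℝ) * β) + ((⌊(q : ℝ) * β⌋ : ℝ) + r)) / q = β + (r : ℝ) / q := by
      rw [← add_assoc, add_comm (Int.fract ((q : ℝ) * β)), h2, add_div,
        mul_div_cancel_left₀ _ hqn]
    rw [← h3, ← add_div]
    push_cast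
    ring
  have h4 : ∀ s ∈ range q, Int.fract (Int.fract (q * β) / q + (s : ℝ) / q)
      = Int.fract (q * β) / q + (s : ℝ) / q := by
    intro s hs
    rw [Int.fract_eq_self]
    have h5 := Int.fract_nonneg ((q : ℝ) * β)
    have h6 := Int.fract_lt_one ((q : ℝ) * β)
    have h7 : (s : ℝ) + 1 ≤ q := by exact_mod_cast Finset.mem_range.1 hs
    constructor
    · positivity
    · rw [← add_div, div_lt_one hq0]
      linarith
  rw [Finset.sum_sub_distrib, h1, Finset.sum_congr rfl h4, Finset.sum_add_distrib,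
    ← Finset.sum_div (range q) (fun s : ℕ => (s : ℝ))]
  have h8 : (∑ s ∈ range q, (s : ℝ)) = (q : ℝ) * (q - 1) / 2 := by
    have h9 := Finset.sum_range_id_mul_two q
    have h10 : (((∑ s ∈ range q, s) * 2 : ℕ) : ℝ) = ((q * (q - 1) : ℕ) : ℝ) := by rw [h9]
    rw [Nat.cast_mul, Nat.cast_mul, Nat.cast_sum, Nat.cast_ofNat] at h10
    rw [Nat.cast_sub hq, Nat.cast_one] at h10
    linarith
  have h11 := Int.fract_nonneg ((q : ℝ) * β)
  have h12 := Int.fract_lt_one ((q : ℝ) * β)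
  rw [h8]
  simp only [Finset.sum_const, Finset.card_range, nsmul_eq_mul]
  have h13 : (q : ℝ) * (Int.fract (q * β) / q) + (q : ℝ) * (q - 1) / 2 / q - q * (1 / 2)
      = Int.fract (q * β) - 1 / 2 := by
    field_simp
    ring
  rw [h13, abs_le]
  constructor <;> linarith

theorem fr_sum_shift (q : ℕ) (hq : 1 ≤ q) (u : ℤ) (hu : IsCoprime u (q : ℤ)) (β : ℝ) :
    |∑ k ∈ range q, (Int.fract (β - u * (k : ℝ) / q) - 1 / 2)| ≤ 1 / 2 := by
  have h1 : ∑ k ∈ range q, (Int.fract (β - u * (k : ℝ) / q) - 1 / 2)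
      = ∑ r ∈ range q, (Int.fract (β + (r : ℝ) / q) - 1 / 2) := by
    rw [Finset.sum_sub_distrib, Finset.sum_sub_distrib,
      ← fr_sum_perm q hq (-u) 0 hu.neg_left β]
    congr 1
    apply Finset.sum_congr rfl
    intro k _
    congr 1
    push_cast
    ring
  rw [h1]
  exact sum_fract_equi q hq β

theorem sum_fract_run (q : ℕ) (hq : 1 ≤ q) (u : ℤ) (hu : IsCoprime u (q : ℤ)) (β η : ℝ)
    (hη : 0 ≤ η) (θ : ℕ → ℝ) (hθ : ∀ k < q, |θ k - (β - u * k / q)| ≤ η) :
    |∑ k ∈ range q, (Int.fract (θ k) - 1 / 2)| ≤ 1 / 2 + 2 * q * η := by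
  have hup := abs_le.1 (fr_sum_shift q hq u hu (β - η))
  have hlo := abs_le.1 (fr_sum_shift q hq u hu (β + η))
  have h1 : ∀ k ∈ range q, Int.fract (θ k) - 1 / 2
      ≤ (Int.fract (β - η - u * (k : ℝ) / q) - 1 / 2) + 2 * η := by
    intro k hk
    have h2 := abs_le.1 (hθ k (Finset.mem_range.1 hk))
    have h3 := fract_add_le (β - η - u * (k : ℝ) / q) (θ k - (β - η - u * (k : ℝ) / q))
      (by linarith)
    have h4 : β - η - u * (k : ℝ) / q + (θ k - (β - η - u * (k : ℝ) / q)) = θ k := by ring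
    rw [h4] at h3
    linarith
  have h5 : ∀ k ∈ range q, (Int.fract (β + η - u * (k : ℝ) / q) - 1 / 2) - 2 * η
      ≤ Int.fract (θ k) - 1 / 2 := by
    intro k hk
    have h2 := abs_le.1 (hθ k (Finset.mem_range.1 hk))
    have h3 := fract_add_le (θ k) (β + η - u * (k : ℝ) / q - θ k) (by linarith)
    have h4 : θ k + (β + η - u * (k : ℝ) / q - θ k) = β + η - u * (k : ℝ) / q := by ring
    rw [h4] at h3
    linarith
  have h6 := Finset.sum_le_sum h1
  have h7 := Finset.sum_le_sum h5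
  rw [Finset.sum_add_distrib] at h6
  rw [Finset.sum_sub_distrib] at h7
  have h8 : ∑ k ∈ range q, 2 * η = 2 * q * η := by
    rw [Finset.sum_const, Finset.card_range, nsmul_eq_mul]; ring
  rw [h8] at h6
  have h7' : (∑ k ∈ range q, (Int.fract (β + η - u * (k : ℝ) / q) - 1 / 2)) - 2 * q * η
      ≤ ∑ k ∈ range q, (Int.fract (θ k) - 1 / 2) := by
    rw [← h8]; exact h7
  rw [abs_le]
  constructor
  · linarith [hlo.1]
  · linarith [hup.2]

end Pool.Agent.PSK
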