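import Pool.Agent.PSQ.Def
import Pool.Agent.Helper4.ST.Selberg

/-!
# PSK module LAM: `|λ_e| ≤ 1`, and the weights are bounded on rough numbers

`abs_lam_le_one`: for squarefree `e ≤ R` (otherwise `λ_e = 0`), with `k = e k'`, `(k', e) = 1`:
`|λ_e| = (e/φ(e)) (1/L) ∑_{k' ≤ R/e, (k',e)=1} μ²(k')/φ(k')`, and grouping the `k ≤ R` by `l = (k,e)`:
`L = ∑_{l ∣ e} (1/φ(l)) ∑_{k' ≤ R/l, (k',e)=1} μ²(k')/φ(k')`
`≥ (∑_{l ∣ e} 1/φ(l)) ∑_{k' ≤ R/e, (k',e)=1} μ²(k')/φ(k')` and `∑_{l ∣ e} 1/φ(l) = e/φ(e)`.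

`wt_le_of_rough`: a `z`-rough `n ≤ (z+1)^K`, `n ≥ 1`, has at most `K` prime factors, so at most
`2^K` squarefree divisors, and `λ_e = 0` for the other ones: `wt R n ≤ (2^K)² = 4^K`.
-/

set_option autoImplicit false

namespace Pool.Agent.PSK

open Finset Pool.Agent.PSQ
open Pool.Agent.Helper4.ST
open scoped ArithmeticFunction.Moebius

/-- the sum over the cofactors -/
private noncomputable def SS' (R e : ℕ) : ℝ :=
  ∑ k ∈ (Icc 1 (R / e)).filter (fun k => Nat.Coprime k e),
    ((μ k : ℤ) : ℝ) ^ 2 / (Nat.totient k : ℝ)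

private lemma SS'_nonneg (R e : ℕ) : 0 ≤ SS' R e := by
  unfold SS'
  exact Finset.sum_nonneg fun k _ => by positivity

private lemma mult_image (R e : ℕ) (he : 1 ≤ e) :
    (Icc 1 R).filter (fun k => e ∣ k) = (Icc 1 (R / e)).image (fun k => e * k) := by
  ext k
  simp only [mem_filter, mem_Icc, mem_image]
  constructor
  · rintro ⟨⟨h1, h2⟩, ⟨t, rfl⟩⟩
    refine ⟨t, ⟨?_, ?_⟩, rfl⟩
    · rcases Nat.eq_zero_or_pos t with rfl | h
      · omega
      · exact h
    · rw [Nat.le_div_iff_mul_le he, mul_comm]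
      exact h2
  · rintro ⟨t, ⟨h1, h2⟩, rfl⟩
    rw [Nat.le_div_iff_mul_le he, mul_comm] at h2
    exact ⟨⟨Nat.mul_pos he h1, h2⟩, dvd_mul_right e t⟩

private lemma lam_eq {R e : ℕ} (he : 1 ≤ e) :
    Selberg.lam R e = ((μ e : ℤ) : ℝ) * ((e : ℝ) / (Nat.totient e : ℝ)) *
      (SS' R e / Selberg.L R) := by
  have hinj : Set.InjOn (fun k => e * k) (Icc 1 (R / e) : Finset ℕ) := by
    intro a _ b _ hab
    exact Nat.eq_of_mul_eq_mul_left he hab
  unfold Selberg.lam
  rw [mult_image R e he, Finset.sum_image hinj]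
  have h1 : ∀ k ∈ Icc 1 (R / e), ((μ (e * k / e) : ℤ) : ℝ) * Selberg.yv R (e * k) =
      if Nat.Coprime k e then ((μ e : ℤ) : ℝ) / (Nat.totient e : ℝ) / Selberg.L R *
        (((μ k : ℤ) : ℝ) ^ 2 / (Nat.totient k : ℝ)) else 0 := by
    intro k hk
    rw [Nat.mul_div_cancel_left _ he]
    unfold Selberg.yv
    by_cases hc : Nat.Coprime k e
    · rw [if_pos hc, ArithmeticFunction.isMultiplicative_moebius.map_mul_of_coprime hc.symm,
        Nat.totient_mul hc.symm]
      push_cast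
      rw [div_div, div_mul_div_comm]
      ring
    · rw [if_neg hc]
      have : ¬ Squarefree (e * k) := by
        intro hsq
        exact hc (Nat.coprime_of_squarefree_mul hsq).symm
      rw [ArithmeticFunction.moebius_eq_zero_of_not_squarefree this]
      simp
  rw [Finset.sum_congr rfl h1, ← Finset.sum_filter, ← Finset.mul_sum]
  unfold SS'
  ring

private lemma sum_inv_totient {e : ℕ} (he : Squarefree e) :
    ∑ l ∈ e.divisors, (1 : ℝ) / (Nat.totient l : ℝ) = (e : ℝ) / (Nat.totient e : ℝ) := by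
  have he0 : e ≠ 0 := he.ne_zero
  have hpos : (0 : ℝ) < (Nat.totient e : ℝ) := by
    exact_mod_cast Nat.totient_pos.2 (Nat.pos_of_ne_zero he0)
  rw [eq_div_iff hpos.ne', Finset.sum_mul]
  have h1 : ∀ l ∈ e.divisors, (1 : ℝ) / (Nat.totient l : ℝ) * (Nat.totient e : ℝ) =
      ((Nat.totient (e / l) : ℕ) : ℝ) := by
    intro l hl
    have hle : l ∣ e := Nat.dvd_of_mem_divisors hl
    obtain ⟨t, rfl⟩ := hle
    have hl0 : 0 < l := Nat.pos_of_ne_zero (left_ne_zero_of_mul he0)
    have hc : Nat.Coprime l t := Nat.coprime_of_squarefree_mul he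
    rw [Nat.totient_mul hc, Nat.mul_div_cancel_left _ hl0]
    have hl1 : (Nat.totient l : ℝ) ≠ 0 := by
      exact_mod_cast (Nat.totient_pos.2 hl0).ne'
    push_cast
    field_simp
  rw [Finset.sum_congr rfl h1, Nat.sum_div_divisors e (fun d => ((Nat.totient d : ℕ) : ℝ))]
  exact_mod_cast Nat.sum_totient e

private lemma L_lower {R e : ℕ} (he : Squarefree e) :
    (e : ℝ) / (Nat.totient e : ℝ) * SS' R e ≤ Selberg.L R := by
  classical
  have he0 : e ≠ 0 := he.ne_zero
  set K := (Icc 1 (R / e)).filter (fun k => Nat.Coprime k e) with hK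
  have hinj : Set.InjOn (fun p : ℕ × ℕ => p.1 * p.2) (e.divisors ×ˢ K : Finset (ℕ × ℕ)) := by
    rintro ⟨l, k⟩ h1 ⟨l', k'⟩ h2 h3
    simp only [coe_product, Set.mem_prod, mem_coe] at h1 h2
    have hk := (mem_filter.1 h1.2).2
    have hk' := (mem_filter.1 h2.2).2
    have hl : l ∣ e := Nat.dvd_of_mem_divisors h1.1
    have hl' : l' ∣ e := Nat.dvd_of_mem_divisors h2.1
    have h3' : l * k = l' * k' := h3
    have h4 : Nat.gcd (l * k) e = l := by
      rw [Nat.Coprime.gcd_mul_right_cancel l hk, Nat.gcd_eq_left hl]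
    have h5 : Nat.gcd (l' * k') e = l' := by
      rw [Nat.Coprime.gcd_mul_right_cancel l' hk', Nat.gcd_eq_left hl']
    have h6 : l = l' := by rw [← h4, ← h5, h3']
    subst h6
    have hl0 : 0 < l := Nat.pos_of_ne_zero (ne_zero_of_dvd_ne_zero he0 hl)
    rw [Nat.eq_of_mul_eq_mul_left hl0 h3']
  have hsub : (e.divisors ×ˢ K).image (fun p : ℕ × ℕ => p.1 * p.2) ⊆ Icc 1 R := by
    intro n hn
    obtain ⟨⟨l, k⟩, h1, rfl⟩ := mem_image.1 hn
    obtain ⟨h2, h3⟩ := mem_product.1 h1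
    have hl : l ∣ e := Nat.dvd_of_mem_divisors h2
    have hl0 : 0 < l := Nat.pos_of_ne_zero (ne_zero_of_dvd_ne_zero he0 hl)
    have hk := mem_Icc.1 (mem_filter.1 h3).1
    rw [mem_Icc]
    refine ⟨Nat.mul_pos hl0 hk.1, ?_⟩
    calc l * k ≤ e * (R / e) := Nat.mul_le_mul (Nat.le_of_dvd (Nat.pos_of_ne_zero he0) hl) hk.2
      _ ≤ R := Nat.mul_div_le R e
  rw [← sum_inv_totient he]
  unfold SS' Selberg.L
  rw [← hK, Finset.sum_mul_sum, ← Finset.sum_product']
  calc ∑ x ∈ e.divisors ×ˢ K, 1 / (Nat.totient x.1 : ℝ) *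
        (((μ x.2 : ℤ) : ℝ) ^ 2 / (Nat.totient x.2 : ℝ))
      = ∑ x ∈ e.divisors ×ˢ K, ((μ (x.1 * x.2) : ℤ) : ℝ) ^ 2 / (Nat.totient (x.1 * x.2) : ℝ) := by
        refine Finset.sum_congr rfl fun x hx => ?_
        obtain ⟨h2, h3⟩ := mem_product.1 hx
        have hl : x.1 ∣ e := Nat.dvd_of_mem_divisors h2
        have hc : Nat.Coprime x.1 x.2 :=
          (Nat.Coprime.coprime_dvd_right hl (mem_filter.1 h3).2).symm
        rw [ArithmeticFunction.isMultiplicative_moebius.map_mul_of_coprime hc,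
          Nat.totient_mul hc]
        have h4 : ((μ x.1 : ℤ) : ℝ) ^ 2 = 1 := by
          exact_mod_cast ArithmeticFunction.moebius_sq_eq_one_of_squarefree
            (he.squarefree_of_dvd hl)
        push_cast
        rw [mul_pow, h4, div_mul_div_comm]
    _ = ∑ n ∈ (e.divisors ×ˢ K).image (fun p : ℕ × ℕ => p.1 * p.2),
          ((μ n : ℤ) : ℝ) ^ 2 / (Nat.totient n : ℝ) := by
        rw [Finset.sum_image hinj]
    _ ≤ _ := Finset.sum_le_sum_of_subset_of_nonneg hsub fun n _ _ => by positivity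

private lemma lam_eq_zero {R e : ℕ} (he : ¬ Squarefree e) : Selberg.lam R e = 0 := by
  rcases Nat.eq_zero_or_pos e with rfl | h0
  · simp [Selberg.lam]
  · rw [lam_eq h0, ArithmeticFunction.moebius_eq_zero_of_not_squarefree he]
    simp

theorem abs_lam_le_one {R : ℕ} (hR : 1 ≤ R) (e : ℕ) : |Selberg.lam R e| ≤ 1 := by
  by_cases he : Squarefree e
  · have h0 : 1 ≤ e := Nat.pos_of_ne_zero he.ne_zero
    have hL := Selberg.L_pos hR
    have hS := SS'_nonneg R e
    rw [lam_eq h0, abs_mul, abs_mul, abs_of_nonneg (show 0 ≤ SS' R e / Selberg.L R by positivity),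
      abs_of_nonneg (show (0 : ℝ) ≤ (e : ℝ) / (Nat.totient e : ℝ) by positivity)]
    have h1 := Selberg.abs_mu_le e
    have h2 := L_lower (R := R) he
    have h3 : (e : ℝ) / (Nat.totient e : ℝ) * (SS' R e / Selberg.L R) ≤ 1 := by
      rw [← mul_div_assoc, div_le_one hL]
      exact h2
    calc |((μ e : ℤ) : ℝ)| * ((e : ℝ) / (Nat.totient e : ℝ)) * (SS' R e / Selberg.L R)
        = |((μ e : ℤ) : ℝ)| * ((e : ℝ) / (Nat.totient e : ℝ) * (SS' R e / Selberg.L R)) := by ring
      _ ≤ 1 * 1 := mul_le_mul h1 h3 (by positivity) zero_le_one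
      _ = 1 := one_mul 1
  · rw [lam_eq_zero he, abs_zero]
    exact zero_le_one

theorem wt_le_of_rough {R z n K : ℕ} (hR : 1 ≤ R) (hn : 1 ≤ n) (hz : Rough z n)
    (hK : n ≤ (z + 1) ^ K) : Selberg.wt R n ≤ (4 : ℝ) ^ K := by
  classical
  have hn0 : n ≠ 0 := by omega
  have hω : n.primeFactors.card ≤ K := by
    rcases Nat.eq_zero_or_pos z with rfl | hz0
    · have : n = 1 := by
        rw [zero_add, one_pow] at hK
        omega
      subst this
      simp
    · have h1 : (z + 1) ^ n.primeFactors.card ≤ (z + 1) ^ K := by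
        calc (z + 1) ^ n.primeFactors.card ≤ ∏ p ∈ n.primeFactors, p := by
              apply Finset.pow_card_le_prod
              intro p hp
              exact hz p (Nat.prime_of_mem_primeFactors hp) (Nat.dvd_of_mem_primeFactors hp)
          _ ≤ n := Nat.le_of_dvd hn (Nat.prod_primeFactors_dvd n)
          _ ≤ _ := hK
      exact (Nat.pow_le_pow_iff_right (by omega)).1 h1
  have hcard : (((Icc 1 R).filter (fun e => e ∣ n)).filter Squarefree).card ≤ 2 ^ K := by
    calc (((Icc 1 R).filter (fun e => e ∣ n)).filter Squarefree).card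
        ≤ n.primeFactors.powerset.card := by
          refine Finset.card_le_card_of_injOn (fun e => e.primeFactors) ?_ ?_
          · intro e he
            have he1 := (mem_filter.1 (mem_filter.1 (mem_coe.1 he)).1).2
            exact mem_coe.2 (mem_powerset.2 (Nat.primeFactors_mono he1 hn0))
          · intro e he e' he' hee
            have h1 := (mem_filter.1 (mem_coe.1 he)).2
            have h2 := (mem_filter.1 (mem_coe.1 he')).2
            have h3 : e.primeFactors = e'.primeFactors := hee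
            rw [← Nat.prod_primeFactors_of_squarefree h1,
              ← Nat.prod_primeFactors_of_squarefree h2, h3]
      _ = 2 ^ n.primeFactors.card := Finset.card_powerset _
      _ ≤ 2 ^ K := Nat.pow_le_pow_right (by norm_num) hω
  have habs : |∑ e ∈ (Icc 1 R).filter (fun e => e ∣ n), Selberg.lam R e| ≤ (2 : ℝ) ^ K := by
    calc |∑ e ∈ (Icc 1 R).filter (fun e => e ∣ n), Selberg.lam R e|
        = |∑ e ∈ ((Icc 1 R).filter (fun e => e ∣ n)).filter Squarefree, Selberg.lam R e| := by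
          congr 1
          refine (Finset.sum_filter_of_ne (s := (Icc 1 R).filter (fun e => e ∣ n))
            (p := Squarefree) (f := Selberg.lam R) fun e _ hne => ?_).symm
          by_contra hcon
          exact hne (lam_eq_zero hcon)
      _ ≤ ∑ e ∈ ((Icc 1 R).filter (fun e => e ∣ n)).filter Squarefree, |Selberg.lam R e| :=
          Finset.abs_sum_le_sum_abs _ _
      _ ≤ ∑ e ∈ ((Icc 1 R).filter (fun e => e ∣ n)).filter Squarefree, (1 : ℝ) :=
          Finset.sum_le_sum fun e _ => abs_lam_le_one hR e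
      _ = ((((Icc 1 R).filter (fun e => e ∣ n)).filter Squarefree).card : ℝ) := by simp
      _ ≤ (2 : ℝ) ^ K := by exact_mod_cast hcard
  unfold Selberg.wt
  calc (∑ e ∈ (Icc 1 R).filter (fun e => e ∣ n), Selberg.lam R e) ^ 2
      = |∑ e ∈ (Icc 1 R).filter (fun e => e ∣ n), Selberg.lam R e| ^ 2 := (sq_abs _).symm
    _ ≤ ((2 : ℝ) ^ K) ^ 2 := pow_le_pow_left₀ (abs_nonneg _) habs 2
    _ = (4 : ℝ) ^ K := by
        rw [← pow_mul, mul_comm, pow_mul]
        norm_num

end Pool.Agent.PSK
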