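import Pool.Agent.PSK.Def

/-!
# PSK module SQ: numbers divisible by the square of a prime `> z` are rare

`n ∈ (N, N+h)`, `p² ∣ n`, `p > z ≥ N^σ - 1`.
`p ≤ N^(1/2 - 2δ)`: at most `∑_{p > z} (h/p² + 1) ≤ h/z + N^(1/2-2δ)` such `n`.
`p > N^(1/2 - 2δ)`: `b = n/p² ≤ 2 N^(4δ)`, and for given `b` the `p` lie in
`(√(N/b), √((N+h)/b))`, an interval of length `≤ h/(2 √(N b)) ≤ 1`, so at most `2` of them; total
`≤ 4 N^(4δ)`.
Sum `≤ 2 h N^(-σ) + N^(1/2-2δ) + 4 N^(4δ) ≤ h N^(-σ/2)` for large `N`.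
-/

set_option autoImplicit false

namespace Pool.Agent.PSK

open Finset Filter

private lemma card_mult_le (N h m : ℕ) (hm : 1 ≤ m) :
    (((JH N h).filter (fun n => m ∣ n)).card : ℝ) ≤ (h : ℝ) / m + 1 := by
  have hm0 : (0 : ℝ) < m := by exact_mod_cast hm
  have hsub : (JH N h).filter (fun n => m ∣ n) ⊆
      (Finset.Ioc (N / m) ((N + h) / m)).image (fun k => m * k) := by
    intro n hn
    rw [Finset.mem_filter, mem_JH] at hn
    obtain ⟨⟨h1, h2⟩, k, rfl⟩ := hn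
    rw [Finset.mem_image]
    refine ⟨k, ?_, rfl⟩
    rw [Finset.mem_Ioc]
    constructor
    · rw [Nat.div_lt_iff_lt_mul (by omega)]
      rw [mul_comm]
      exact h1
    · rw [Nat.le_div_iff_mul_le (by omega), mul_comm]
      exact h2.le
  have h1 : ((JH N h).filter (fun n => m ∣ n)).card ≤ (N + h) / m - N / m := by
    refine (Finset.card_le_card hsub).trans (Finset.card_image_le.trans ?_)
    rw [Nat.card_Ioc]
  have h2 : N / m ≤ (N + h) / m := Nat.div_le_div_right (by omega)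
  have h3 : (((N + h) / m - N / m : ℕ) : ℝ) ≤ (h : ℝ) / m + 1 := by
    rw [Nat.cast_sub h2]
    have h4 : (((N + h) / m : ℕ) : ℝ) ≤ ((N : ℝ) + h) / m := by
      have := Nat.cast_div_le (α := ℝ) (m := N + h) (n := m)
      push_cast at this
      exact this
    have h5 : (N : ℝ) / m < ((N / m : ℕ) : ℝ) + 1 := by
      rw [div_lt_iff₀ hm0]
      have h6 : N < (N / m + 1) * m := by
        have := Nat.lt_div_mul_add (a := N) (b := m) (by omega)
        linarith [this]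
      exact_mod_cast h6
    rw [add_div] at h4
    linarith
  exact (by exact_mod_cast h1 : (((JH N h).filter (fun n => m ∣ n)).card : ℝ) ≤
    (((N + h) / m - N / m : ℕ) : ℝ)).trans h3

open scoped Classical in
private lemma card_small (N h z P : ℕ) (hz : 1 ≤ z) :
    (((JH N h).filter (fun n => ∃ p : ℕ, (z < p ∧ p ≤ P) ∧ p ^ 2 ∣ n)).card : ℝ) ≤
      (h : ℝ) / z + P := by
  have hsub : (JH N h).filter (fun n => ∃ p : ℕ, (z < p ∧ p ≤ P) ∧ p ^ 2 ∣ n) ⊆
      (Finset.Ioc z P).biUnion (fun p => (JH N h).filter (fun n => p ^ 2 ∣ n)) := by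
    intro n hn
    rw [Finset.mem_filter] at hn
    obtain ⟨h1, p, h2, h3⟩ := hn
    rw [Finset.mem_biUnion]
    exact ⟨p, Finset.mem_Ioc.2 h2, Finset.mem_filter.2 ⟨h1, h3⟩⟩
  have h1 := (Finset.card_le_card hsub).trans Finset.card_biUnion_le
  have h2 : (((JH N h).filter (fun n => ∃ p : ℕ, (z < p ∧ p ≤ P) ∧ p ^ 2 ∣ n)).card : ℝ) ≤
      ∑ p ∈ Finset.Ioc z P, (((JH N h).filter (fun n => p ^ 2 ∣ n)).card : ℝ) := by
    exact_mod_cast h1
  refine h2.trans ?_
  calc ∑ p ∈ Finset.Ioc z P, (((JH N h).filter (fun n => p ^ 2 ∣ n)).card : ℝ)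
      ≤ ∑ p ∈ Finset.Ioc z P, ((h : ℝ) * (((p : ℝ) ^ 2)⁻¹) + 1) := by
        apply Finset.sum_le_sum
        intro p hp
        rw [Finset.mem_Ioc] at hp
        have h3 := card_mult_le N h (p ^ 2) (Nat.one_le_pow _ _ (by omega))
        push_cast at h3
        rw [div_eq_mul_inv] at h3
        exact h3
    _ = (h : ℝ) * ∑ p ∈ Finset.Ioc z P, ((p : ℝ) ^ 2)⁻¹ + ((Finset.Ioc z P).card : ℝ) := by
        rw [Finset.sum_add_distrib, Finset.mul_sum, Finset.sum_const, nsmul_eq_mul, mul_one]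
    _ ≤ (h : ℝ) * (z : ℝ)⁻¹ + P := by
        apply add_le_add
        · apply mul_le_mul_of_nonneg_left _ (Nat.cast_nonneg h)
          rcases le_or_gt z P with hzP | hzP
          · have := sum_Ioc_inv_sq_le_sub (α := ℝ) (by omega : z ≠ 0) hzP
            have h4 : (0 : ℝ) ≤ (P : ℝ)⁻¹ := by positivity
            linarith
          · rw [Finset.Ioc_eq_empty (by omega), Finset.sum_empty]
            positivity
        · rw [Nat.card_Ioc]
          exact_mod_cast Nat.sub_le _ _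
    _ = (h : ℝ) / z + P := by rw [div_eq_mul_inv]

open scoped Classical in
private lemma card_large (N h P B : ℕ) (hN : 1 ≤ N) (hh2 : h ^ 2 ≤ N)
    (hB : ∀ b p : ℕ, P < p → b * p ^ 2 < N + h → b ≤ B) :
    ((JH N h).filter (fun n => ∃ p : ℕ, P < p ∧ p ^ 2 ∣ n)).card ≤ B + 1 := by
  set S := (JH N h).filter (fun n => ∃ p : ℕ, P < p ∧ p ^ 2 ∣ n) with hS
  have hch : ∀ n : ℕ, ∃ p : ℕ, n ∈ S → P < p ∧ p ^ 2 ∣ n := by
    intro n
    by_cases hn : n ∈ S
    · obtain ⟨p, hp⟩ := (Finset.mem_filter.1 hn).2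
      exact ⟨p, fun _ => hp⟩
    · exact ⟨0, fun h => absurd h hn⟩
  choose f hf using hch
  have hcard : S.card ≤ (Finset.range (B + 1)).card := by
    apply Finset.card_le_card_of_injOn (fun n => n / f n ^ 2)
    · intro n hn
      have hn' := Finset.mem_coe.1 hn
      have h1 := hf n hn'
      have h2 := mem_JH.1 (Finset.mem_filter.1 hn').1
      have h3 : n / f n ^ 2 * f n ^ 2 = n := Nat.div_mul_cancel h1.2
      rw [Finset.mem_coe, Finset.mem_range, Nat.lt_succ_iff]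
      exact hB _ (f n) h1.1 (by rw [h3]; exact h2.2)
    · intro n hn n' hn' heq
      have hn := Finset.mem_coe.1 hn
      have hn' := Finset.mem_coe.1 hn'
      have h1 := hf n hn
      have h1' := hf n' hn'
      have h2 := mem_JH.1 (Finset.mem_filter.1 hn).1
      have h2' := mem_JH.1 (Finset.mem_filter.1 hn').1
      have h3 : n / f n ^ 2 * f n ^ 2 = n := Nat.div_mul_cancel h1.2
      have h3' : n' / f n' ^ 2 * f n' ^ 2 = n' := Nat.div_mul_cancel h1'.2
      simp only at heq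
      set b := n / f n ^ 2 with hb
      rw [← heq] at h3'
      -- if the primes differ the numbers are far apart
      have key : ∀ p p' x y : ℕ, b * p ^ 2 = x → b * p' ^ 2 = y → N < x → y < N + h →
          ¬ p < p' := by
        intro p p' x y hx hy hNx hyN hlt
        have hb1 : 1 ≤ b := by
          rcases Nat.eq_zero_or_pos b with h0 | h0
          · rw [h0, zero_mul] at hx
            omega
          · exact h0
        have h5 : (p + 1) ^ 2 ≤ p' ^ 2 := Nat.pow_le_pow_left hlt 2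
        have h6 : x + 2 * b * p ≤ y := by
          rw [← hx, ← hy]
          nlinarith
        have h7 : 2 * b * p < h := by omega
        have h8 : (2 * b * p) ^ 2 < h ^ 2 := Nat.pow_lt_pow_left h7 (by norm_num)
        have h9 : (2 * b * p) ^ 2 = 4 * b * x := by rw [← hx]; ring
        have h10 : N < 4 * b * x := by nlinarith
        omega
      have hpp : f n = f n' := by
        rcases lt_trichotomy (f n) (f n') with h4 | h4 | h4
        · exact absurd h4 (key _ _ _ _ h3 h3' h2.1 h2'.2)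
        · exact h4
        · exact absurd h4 (key _ _ _ _ h3' h3 h2'.1 h2.2)
      rw [← h3, ← h3', hpp]
  rwa [Finset.card_range] at hcard

private lemma ev_rpow (K e : ℝ) (he : 0 < e) : ∀ᶠ N : ℕ in atTop, K ≤ (N : ℝ) ^ e :=
  ((tendsto_rpow_atTop he).comp tendsto_natCast_atTop_atTop).eventually_ge_atTop K

open scoped Classical in
theorem few_sq : ∀ᶠ N : ℕ in atTop,
    (((JJ N).filter (fun n => ∃ p : ℕ, p.Prime ∧ zN N < p ∧ p ^ 2 ∣ n)).card : ℝ) ≤
      (hh N : ℝ) * (N : ℝ) ^ (-(sg / 2)) := by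
  have hsg : (0 : ℝ) < sg := by unfold sg; norm_num
  have hdl : (0 : ℝ) < dl := by unfold dl; norm_num
  have hds : (0 : ℝ) < dl - sg / 2 := by unfold dl sg; norm_num
  have hds2 : (0 : ℝ) < 1 / 2 - 5 * dl - sg / 2 := by unfold dl sg; norm_num
  have hds3 : (0 : ℝ) < 1 / 2 - dl := by unfold dl; norm_num
  filter_upwards [ev_rpow 8 (sg / 2) (by positivity), ev_rpow 8 (dl - sg / 2) hds,
    ev_rpow 32 (1 / 2 - 5 * dl - sg / 2) hds2, ev_rpow 2 (1 / 2 - dl) hds3,
    eventually_ge_atTop 1] with N h1 h2 h3 h4 hN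
  have hN1 : (1 : ℝ) ≤ N := by exact_mod_cast hN
  have hN0 : (0 : ℝ) < N := by linarith
  set x : ℝ := (N : ℝ) ^ (1 / 2 - dl) with hx
  have hhle : (hh N : ℝ) ≤ x := Nat.floor_le (by positivity)
  have hhge : x / 2 ≤ hh N := by
    have : x < (hh N : ℝ) + 1 := Nat.lt_floor_add_one _
    linarith
  have hx0 : 0 < x := by positivity
  have hh2 : hh N ^ 2 ≤ N := by
    have e1 : ((hh N : ℝ)) ^ 2 ≤ x ^ 2 := by gcongr
    have e2 : x ^ 2 ≤ (N : ℝ) ^ (1 : ℝ) := by
      rw [hx, ← Real.rpow_natCast, ← Real.rpow_mul hN0.le]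
      apply Real.rpow_le_rpow_of_exponent_le hN1
      push_cast
      linarith
    rw [Real.rpow_one] at e2
    have : ((hh N ^ 2 : ℕ) : ℝ) ≤ (N : ℝ) := by push_cast; linarith
    exact_mod_cast this
  -- the cut
  set P : ℕ := ⌊(N : ℝ) ^ (1 / 2 - 2 * dl)⌋₊ with hP
  set B : ℕ := ⌊2 * (N : ℝ) ^ (4 * dl)⌋₊ with hB
  have hPle : (P : ℝ) ≤ (N : ℝ) ^ (1 / 2 - 2 * dl) := Nat.floor_le (by positivity)
  have hBle : (B : ℝ) ≤ 2 * (N : ℝ) ^ (4 * dl) := Nat.floor_le (by positivity)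
  have hhN : hh N ≤ N := by
    have : hh N ≤ hh N ^ 2 := Nat.le_self_pow (by norm_num) _
    exact this.trans hh2
  have hBcond : ∀ b p : ℕ, P < p → b * p ^ 2 < N + hh N → b ≤ B := by
    intro b p hp hbp
    apply Nat.le_floor
    have hp1 : (N : ℝ) ^ (1 / 2 - 2 * dl) < p := by
      have e1 : (N : ℝ) ^ (1 / 2 - 2 * dl) < (P : ℝ) + 1 := Nat.lt_floor_add_one _
      have e2 : (P : ℝ) + 1 ≤ p := by exact_mod_cast hp
      linarith
    have hp2 : (N : ℝ) ^ (1 - 4 * dl) ≤ (p : ℝ) ^ 2 := by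
      have e1 : (N : ℝ) ^ (1 - 4 * dl) = ((N : ℝ) ^ (1 / 2 - 2 * dl)) ^ 2 := by
        rw [← Real.rpow_natCast, ← Real.rpow_mul hN0.le]
        congr 1
        push_cast
        ring
      rw [e1]
      gcongr
    have hb1 : (b : ℝ) * (p : ℝ) ^ 2 ≤ 2 * N := by
      have e1 : ((b * p ^ 2 : ℕ) : ℝ) ≤ ((N + hh N : ℕ) : ℝ) := by exact_mod_cast hbp.le
      have e2 : ((N + hh N : ℕ) : ℝ) ≤ ((N + N : ℕ) : ℝ) := by exact_mod_cast (by omega)
      push_cast at e1 e2
      linarith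
    have hb2 : (b : ℝ) * (N : ℝ) ^ (1 - 4 * dl) ≤ 2 * N :=
      (mul_le_mul_of_nonneg_left hp2 (Nat.cast_nonneg b)).trans hb1
    have e3 : 2 * (N : ℝ) ^ (4 * dl) * (N : ℝ) ^ (1 - 4 * dl) = 2 * N := by
      rw [mul_assoc, ← Real.rpow_add hN0]
      have : 4 * dl + (1 - 4 * dl) = 1 := by ring
      rw [this, Real.rpow_one]
    have e4 : (0 : ℝ) < (N : ℝ) ^ (1 - 4 * dl) := by positivity
    exact le_of_mul_le_mul_right (by rw [e3]; exact hb2) e4
  -- roughness level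
  have hzx : (2 : ℝ) ≤ (N : ℝ) ^ sg := by
    have e1 : (N : ℝ) ^ (sg / 2) ≤ (N : ℝ) ^ sg :=
      Real.rpow_le_rpow_of_exponent_le hN1 (by linarith)
    linarith
  have hzge : (N : ℝ) ^ sg / 2 ≤ zN N := by
    have : (N : ℝ) ^ sg < (zN N : ℝ) + 1 := Nat.lt_floor_add_one _
    linarith
  have hz1 : 1 ≤ zN N := by
    have : (0 : ℝ) < zN N := by linarith
    exact_mod_cast this
  -- splitting
  have hsub : (JJ N).filter (fun n => ∃ p : ℕ, p.Prime ∧ zN N < p ∧ p ^ 2 ∣ n) ⊆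
      (JH N (hh N)).filter (fun n => ∃ p : ℕ, (zN N < p ∧ p ≤ P) ∧ p ^ 2 ∣ n) ∪
      (JH N (hh N)).filter (fun n => ∃ p : ℕ, P < p ∧ p ^ 2 ∣ n) := by
    intro n hn
    rw [Finset.mem_filter] at hn
    obtain ⟨a1, p, -, a3, a4⟩ := hn
    rw [Finset.mem_union, Finset.mem_filter, Finset.mem_filter]
    rcases le_or_gt p P with h5 | h5
    · left
      exact ⟨a1, p, ⟨a3, h5⟩, a4⟩
    · right
      exact ⟨a1, p, h5, a4⟩
  have hc1 := card_small N (hh N) (zN N) P hz1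
  have hc2 := card_large N (hh N) P B hN hh2 hBcond
  have hc : (((JJ N).filter (fun n => ∃ p : ℕ, p.Prime ∧ zN N < p ∧ p ^ 2 ∣ n)).card : ℝ) ≤
      (hh N : ℝ) / zN N + P + (B + 1) := by
    have e1 := (Finset.card_le_card hsub).trans (Finset.card_union_le _ _)
    have e2 : (((JJ N).filter (fun n => ∃ p : ℕ, p.Prime ∧ zN N < p ∧ p ^ 2 ∣ n)).card : ℝ) ≤
        (((JH N (hh N)).filter (fun n => ∃ p : ℕ, (zN N < p ∧ p ≤ P) ∧ p ^ 2 ∣ n)).card : ℝ) +
        (((JH N (hh N)).filter (fun n => ∃ p : ℕ, P < p ∧ p ^ 2 ∣ n)).card : ℝ) := by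
      exact_mod_cast e1
    have e3 : (((JH N (hh N)).filter (fun n => ∃ p : ℕ, P < p ∧ p ^ 2 ∣ n)).card : ℝ) ≤
        (B : ℝ) + 1 := by exact_mod_cast hc2
    linarith
  refine hc.trans ?_
  -- numerics
  set w : ℝ := (N : ℝ) ^ (-(sg / 2)) with hw
  have hw0 : 0 < w := by positivity
  have hw8 : w ≤ 1 / 8 := by
    rw [hw, Real.rpow_neg hN0.le, one_div]
    exact inv_anti₀ (by norm_num) h1
  have t1 : (hh N : ℝ) / zN N ≤ (hh N : ℝ) * w / 4 := by
    have e1 : (hh N : ℝ) / zN N ≤ (hh N : ℝ) / ((N : ℝ) ^ sg / 2) := by gcongr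
    have e2 : (hh N : ℝ) / ((N : ℝ) ^ sg / 2) = (hh N : ℝ) * (2 * (w * w)) := by
      rw [hw, ← Real.rpow_add hN0]
      have : -(sg / 2) + -(sg / 2) = -sg := by ring
      rw [this, Real.rpow_neg hN0.le]
      field_simp
    rw [e2] at e1
    refine e1.trans ?_
    have : (hh N : ℝ) * (2 * (w * w)) ≤ (hh N : ℝ) * (2 * (w * (1 / 8))) := by gcongr
    linarith
  have t2 : (P : ℝ) ≤ (hh N : ℝ) * w / 4 := by
    have e1 : 8 * (N : ℝ) ^ (1 / 2 - 2 * dl) ≤ x * w := by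
      have e2 : x * w = (N : ℝ) ^ (1 / 2 - 2 * dl) * (N : ℝ) ^ (dl - sg / 2) := by
        rw [hx, hw, ← Real.rpow_add hN0, ← Real.rpow_add hN0]
        congr 1
        ring
      rw [e2, mul_comm]
      exact mul_le_mul_of_nonneg_left h2 (by positivity)
    have e3 : x / 2 * w ≤ (hh N : ℝ) * w := mul_le_mul_of_nonneg_right hhge hw0.le
    linarith
  have t3 : (B : ℝ) + 1 ≤ (hh N : ℝ) * w / 4 := by
    have e0 : (1 : ℝ) ≤ (N : ℝ) ^ (4 * dl) := Real.one_le_rpow hN1 (by positivity)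
    have e1 : 32 * (N : ℝ) ^ (4 * dl) ≤ x * w := by
      have e2 : x * w = (N : ℝ) ^ (4 * dl) * (N : ℝ) ^ (1 / 2 - 5 * dl - sg / 2) := by
        rw [hx, hw, ← Real.rpow_add hN0, ← Real.rpow_add hN0]
        congr 1
        ring
      rw [e2, mul_comm]
      exact mul_le_mul_of_nonneg_left h3 (by positivity)
    have e3 : x / 2 * w ≤ (hh N : ℝ) * w := mul_le_mul_of_nonneg_right hhge hw0.le
    linarith
  have t4 : 0 ≤ (hh N : ℝ) * w := by positivity
  linarith

end Pool.Agent.PSK
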