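import Pool.Agent.PSK.Smp
import Pool.Agent.PSK.Sq
import Pool.Agent.PSK.Lam

/-!
# PSK module GUD: `#GG N ≥ c h / log N`

Weights `wt = Selberg.wt (RR N)`, `L = L_R ≤ 4 + 3 log N` (`L_upper`), `z = zN N`.
`∑_{n ∈ JJ, rough} wt n ≥ TT N h R 1 - ∑_{p ≤ z} TT N h R p ≥ 0.98 h/L` (`TT_one`, `sum_small`).
The rough `n ∈ JJ` are in `GG N`, or in the set of `few_sq`, or in
`Bad = {rough, squarefree, all prime factors ≤ A2}`.  For `n ∈ Bad`,
`log N ≤ log n = ∑_{p ∣ n} log p`, so `log N ∑_{Bad} wt ≤ ∑_{z < p ≤ A2} log p TT N h R p`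
`≤ 0.56 (h/L) log N` (`sum_primes`).
`K` with `2 N ≤ (z+1)^K`: `K = ⌈2/σ⌉ + 1` works for large `N` (`z + 1 > N^σ`); keep `K` a variable,
do not let `norm_num` evaluate `4^K`.  `wt ≤ 4^K` on rough `n ≤ 2N` (`wt_le_of_rough`), so the
contribution of `few_sq` is `≤ 4^K h N^(-σ/2) ≤ 0.01 h/L`, and
`4^K #GG ≥ ∑_{GG} wt ≥ (0.98 - 0.01 - 0.56) h/L ≥ 0.4 h/(4 + 3 log N)`.
-/

set_option autoImplicit false

namespace Pool.Agent.PSK

open Finset Filter Pool.Agent.PSQ
open Pool.Agent.Helper4.ST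

private lemma ev_log (C : ℝ) {ε : ℝ} (hε : 0 < ε) :
    ∀ᶠ N : ℕ in atTop, C * Real.log N ≤ (N : ℝ) ^ ε := by
  have hC : (0 : ℝ) < (|C| + 1)⁻¹ := by positivity
  have h1 := (isLittleO_log_rpow_atTop hε).bound hC
  have h2 := tendsto_natCast_atTop_atTop.eventually h1
  filter_upwards [h2, eventually_ge_atTop 1] with N h3 h4
  have h5 : (1 : ℝ) ≤ N := by exact_mod_cast h4
  have h6 : 0 ≤ Real.log N := Real.log_nonneg h5
  rw [Real.norm_of_nonneg h6, Real.norm_of_nonneg (by positivity)] at h3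
  have h7 : (|C| + 1) * Real.log N ≤ (N : ℝ) ^ ε := by
    have := mul_le_mul_of_nonneg_left h3 (show (0 : ℝ) ≤ |C| + 1 by positivity)
    rwa [← mul_assoc, mul_inv_cancel₀ (by positivity), one_mul] at this
  have h8 : C * Real.log N ≤ (|C| + 1) * Real.log N :=
    mul_le_mul_of_nonneg_right (by have := le_abs_self C; linarith) h6
  linarith

private lemma log_sqfree {n : ℕ} (hn : Squarefree n) :
    Real.log n = ∑ p ∈ n.primeFactors, Real.log p := by
  conv_lhs => rw [← Nat.prod_primeFactors_of_squarefree hn]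
  rw [Nat.cast_prod, Real.log_prod]
  intro p hp
  exact_mod_cast (Nat.prime_of_mem_primeFactors hp).ne_zero

open scoped Classical in
/-- numbers divisible by the square of a prime -/
private noncomputable def SqS (N : ℕ) : Finset ℕ :=
  (JJ N).filter (fun n => ∃ p : ℕ, p.Prime ∧ zN N < p ∧ p ^ 2 ∣ n)

open scoped Classical in
/-- squarefree rough numbers all of whose prime factors are small -/
private noncomputable def Bad (N : ℕ) : Finset ℕ :=
  (JJ N).filter (fun n => Rough (zN N) n ∧ Squarefree n ∧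
    ∀ q : ℕ, q.Prime → q ∣ n → q ≤ A2 N)

/-- rough numbers -/
private noncomputable def RS (N : ℕ) : Finset ℕ := (JJ N).filter (Rough (zN N))

private lemma mem_RS {N n : ℕ} : n ∈ RS N ↔ n ∈ JJ N ∧ Rough (zN N) n := by
  unfold RS
  exact mem_filter

private lemma cover (N : ℕ) : RS N ⊆ (GG N ∪ (SqS N).filter (Rough (zN N))) ∪ Bad N := by
  classical
  intro n hn
  obtain ⟨hnJ, hr⟩ := mem_RS.1 hn
  by_cases hq : ∃ q : ℕ, q.Prime ∧ A2 N < q ∧ q ∣ n
  · exact mem_union_left _ (mem_union_left _ (mem_GG.2 ⟨hnJ, hr, hq⟩))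
  · have hsmall : ∀ q : ℕ, q.Prime → q ∣ n → q ≤ A2 N := by
      intro q hqp hqn
      by_contra hcon
      exact hq ⟨q, hqp, by omega, hqn⟩
    by_cases hsq : Squarefree n
    · refine mem_union_right _ ?_
      unfold Bad
      exact mem_filter.2 ⟨hnJ, hr, hsq, hsmall⟩
    · rw [Nat.squarefree_iff_prime_squarefree] at hsq
      push Not at hsq
      obtain ⟨p, hpp, hpn⟩ := hsq
      have hpn' : p ∣ n := dvd_trans (dvd_mul_right p p) hpn
      refine mem_union_left _ (mem_union_right _ (mem_filter.2 ⟨?_, hr⟩))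
      unfold SqS
      exact mem_filter.2 ⟨hnJ, p, hpp, hr p hpp hpn', by rw [pow_two]; exact hpn⟩

private lemma sum_union_le {f : ℕ → ℝ} (hf : ∀ n, 0 ≤ f n) (A B : Finset ℕ) :
    ∑ n ∈ A ∪ B, f n ≤ ∑ n ∈ A, f n + ∑ n ∈ B, f n := by
  have h1 := Finset.sum_union_inter (s₁ := A) (s₂ := B) (f := f)
  have h2 : 0 ≤ ∑ n ∈ A ∩ B, f n := Finset.sum_nonneg fun n _ => hf n
  linarith

private lemma sum_rough_ge (N R : ℕ) :
    TT N (hh N) R 1 - ∑ p ∈ PP (zN N), TT N (hh N) R p ≤ ∑ n ∈ RS N, Selberg.wt R n := by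
  classical
  have h1 : TT N (hh N) R 1 = ∑ n ∈ JJ N, Selberg.wt R n := by
    unfold TT JJ
    simp only [one_dvd, Finset.filter_true]
  have h2 : ∑ n ∈ JJ N, Selberg.wt R n = ∑ n ∈ RS N, Selberg.wt R n +
      ∑ n ∈ (JJ N).filter (fun n => ¬ Rough (zN N) n), Selberg.wt R n := by
    unfold RS
    exact (Finset.sum_filter_add_sum_filter_not (JJ N) (Rough (zN N)) _).symm
  have h3 : ∑ n ∈ (JJ N).filter (fun n => ¬ Rough (zN N) n), Selberg.wt R n ≤
      ∑ p ∈ PP (zN N), TT N (hh N) R p := by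
    have h4 : ∀ n ∈ (JJ N).filter (fun n => ¬ Rough (zN N) n), Selberg.wt R n ≤
        ∑ p ∈ PP (zN N), if p ∣ n then Selberg.wt R n else 0 := by
      intro n hn
      have hn1 := (mem_filter.1 hn).2
      unfold Rough at hn1
      push Not at hn1
      obtain ⟨p, hp, hpn, hpz⟩ := hn1
      calc Selberg.wt R n = if p ∣ n then Selberg.wt R n else 0 := by rw [if_pos hpn]
        _ ≤ _ := Finset.single_le_sum (f := fun p => if p ∣ n then Selberg.wt R n else 0)
          (fun q _ => by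
            split_ifs
            · exact Selberg.wt_nonneg R n
            · exact le_rfl) (mem_PP.2 ⟨hpz, hp⟩)
    refine (Finset.sum_le_sum h4).trans ?_
    rw [Finset.sum_comm]
    refine Finset.sum_le_sum fun p _ => ?_
    rw [← Finset.sum_filter]
    unfold TT JJ
    refine Finset.sum_le_sum_of_subset_of_nonneg ?_ fun n _ _ => Selberg.wt_nonneg R n
    intro n hn
    obtain ⟨h5, h6⟩ := mem_filter.1 hn
    exact mem_filter.2 ⟨(mem_filter.1 h5).1, h6⟩
  rw [h1, h2]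
  linarith

private lemma bad_bound (N R : ℕ) (hN : 1 ≤ N) :
    Real.log N * ∑ n ∈ Bad N, Selberg.wt R n ≤
      ∑ p ∈ (PP (A2 N)).filter (fun p => zN N < p), Real.log p * TT N (hh N) R p := by
  classical
  have hN0 : (0 : ℝ) < N := by exact_mod_cast hN
  have h1 : ∀ n ∈ Bad N, Real.log N * Selberg.wt R n ≤
      ∑ p ∈ (PP (A2 N)).filter (fun p => zN N < p),
        if p ∣ n then Real.log p * Selberg.wt R n else 0 := by
    intro n hn
    unfold Bad at hn
    obtain ⟨hnJ, hr, hsq, hsm⟩ := mem_filter.1 hn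
    have hnN : N < n := (mem_JH.1 hnJ).1
    have hn0 : n ≠ 0 := by omega
    rw [← Finset.sum_filter]
    have hsub : n.primeFactors =
        ((PP (A2 N)).filter (fun p => zN N < p)).filter (fun p => p ∣ n) := by
      ext p
      simp only [Nat.mem_primeFactors, mem_filter, mem_PP]
      constructor
      · rintro ⟨h1, h2, -⟩
        exact ⟨⟨⟨hsm p h1 h2, h1⟩, hr p h1 h2⟩, h2⟩
      · rintro ⟨⟨⟨_, h1⟩, _⟩, h2⟩
        exact ⟨h1, h2, hn0⟩
    rw [← hsub, ← Finset.sum_mul, ← log_sqfree hsq]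
    refine mul_le_mul_of_nonneg_right (Real.log_le_log hN0 ?_) (Selberg.wt_nonneg R n)
    exact_mod_cast hnN.le
  calc Real.log N * ∑ n ∈ Bad N, Selberg.wt R n
      = ∑ n ∈ Bad N, Real.log N * Selberg.wt R n := Finset.mul_sum _ _ _
    _ ≤ ∑ n ∈ Bad N, ∑ p ∈ (PP (A2 N)).filter (fun p => zN N < p),
          (if p ∣ n then Real.log p * Selberg.wt R n else 0) := Finset.sum_le_sum h1
    _ = ∑ p ∈ (PP (A2 N)).filter (fun p => zN N < p), ∑ n ∈ Bad N,
          (if p ∣ n then Real.log p * Selberg.wt R n else 0) := Finset.sum_comm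
    _ ≤ _ := by
        refine Finset.sum_le_sum fun p hp => ?_
        have hp1 : p.Prime := (mem_PP.1 (mem_filter.1 hp).1).2
        rw [← Finset.sum_filter, ← Finset.mul_sum]
        refine mul_le_mul_of_nonneg_left ?_ (Real.log_nonneg (by exact_mod_cast hp1.one_lt.le))
        unfold TT
        refine Finset.sum_le_sum_of_subset_of_nonneg ?_ fun n _ _ => Selberg.wt_nonneg R n
        intro n hn
        obtain ⟨hn1, hn2⟩ := mem_filter.1 hn
        unfold Bad at hn1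
        exact mem_filter.2 ⟨(mem_filter.1 hn1).1, hn2⟩

/-- the bound for fixed `N` -/
private lemma GG_ge (N R K : ℕ) (hR : 1 ≤ R) (hN : 1 ≤ N)
    (hK : ∀ n ∈ JJ N, n ≤ (zN N + 1) ^ K) :
    TT N (hh N) R 1 - ∑ p ∈ PP (zN N), TT N (hh N) R p ≤
      (4 : ℝ) ^ K * ((GG N).card : ℝ) + (4 : ℝ) ^ K * ((SqS N).card : ℝ) +
        ∑ n ∈ Bad N, Selberg.wt R n := by
  classical
  have hnn := Selberg.wt_nonneg R
  have hw : ∀ n ∈ JJ N, Rough (zN N) n → Selberg.wt R n ≤ (4 : ℝ) ^ K := by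
    intro n hn hr
    have := (mem_JH.1 hn).1
    exact wt_le_of_rough hR (by omega) hr (hK n hn)
  have h1 : ∑ n ∈ RS N, Selberg.wt R n ≤ ∑ n ∈ GG N, Selberg.wt R n +
      ∑ n ∈ (SqS N).filter (Rough (zN N)), Selberg.wt R n + ∑ n ∈ Bad N, Selberg.wt R n := by
    refine (Finset.sum_le_sum_of_subset_of_nonneg (cover N) fun n _ _ => hnn n).trans ?_
    refine (sum_union_le hnn _ _).trans ?_
    have := sum_union_le hnn (GG N) ((SqS N).filter (Rough (zN N)))
    linarith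
  have h2 : ∑ n ∈ GG N, Selberg.wt R n ≤ (4 : ℝ) ^ K * ((GG N).card : ℝ) := by
    rw [mul_comm, ← nsmul_eq_mul]
    refine Finset.sum_le_card_nsmul _ _ _ fun n hn => ?_
    obtain ⟨h3, h4, -⟩ := mem_GG.1 hn
    exact hw n h3 h4
  have h3 : ∑ n ∈ (SqS N).filter (Rough (zN N)), Selberg.wt R n ≤
      (4 : ℝ) ^ K * ((SqS N).card : ℝ) := by
    have h4 : ∑ n ∈ (SqS N).filter (Rough (zN N)), Selberg.wt R n ≤
        ((SqS N).filter (Rough (zN N))).card • (4 : ℝ) ^ K := by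
      refine Finset.sum_le_card_nsmul _ _ _ fun n hn => ?_
      obtain ⟨h5, h6⟩ := mem_filter.1 hn
      unfold SqS at h5
      exact hw n (mem_filter.1 h5).1 h6
    refine h4.trans ?_
    rw [nsmul_eq_mul, mul_comm]
    refine mul_le_mul_of_nonneg_left ?_ (by positivity)
    exact_mod_cast Finset.card_le_card (Finset.filter_subset _ _)
  have h4 := sum_rough_ge N R
  linarith

theorem good_count : ∃ c : ℝ, 0 < c ∧ ∀ᶠ N : ℕ in atTop,
    c * (hh N : ℝ) / Real.log N ≤ ((GG N).card : ℝ) := by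
  have hsg : 0 < sg := by unfold sg; positivity
  obtain ⟨K, hKσ⟩ : ∃ K : ℕ, 2 / sg ≤ (K : ℝ) := ⟨⌈2 / sg⌉₊, Nat.le_ceil _⟩
  have hK2 : 2 ≤ sg * K := by
    rw [div_le_iff₀ hsg] at hKσ
    linarith
  have h4K : (0 : ℝ) < 4 ^ K := by positivity
  refine ⟨0.4 / (7 * 4 ^ K), by positivity, ?_⟩
  have hdl : dl = 1 / 200000 := rfl
  have hev1 := ev_log 2800 (show (0 : ℝ) < 1 / 2 - 5 * dl by rw [hdl]; norm_num)
  have hev2 := ev_log (700 * 4 ^ K) (show (0 : ℝ) < sg / 2 by positivity)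
  filter_upwards [sum_small, sum_primes, few_sq, hev1, hev2, eventually_ge_atTop 3] with
    N h1 h2 h3 h4 h5 h6
  have hN : (3 : ℝ) ≤ N := by exact_mod_cast h6
  have hN0 : (0 : ℝ) < N := by linarith
  have hN1 : (1 : ℝ) ≤ N := by linarith
  have hlog : 1 < Real.log N := by
    rw [Real.lt_log_iff_exp_lt hN0]
    have := Real.exp_one_lt_d9
    linarith
  set R := RR N with hRdef
  have hR1 : 1 ≤ R := by
    rw [hRdef]
    unfold RR
    rw [Nat.one_le_floor_iff]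
    exact Real.one_le_rpow hN1 (by rw [hdl]; norm_num)
  have hRle : (R : ℝ) ≤ (N : ℝ) ^ dl := by
    rw [hRdef]
    unfold RR
    exact Nat.floor_le (by positivity)
  have hLpos := Selberg.L_pos hR1
  have hLle : Selberg.L R ≤ 7 * Real.log N := by
    have e1 := L_upper R hR1
    have e2 : Real.log R ≤ Real.log N := by
      refine Real.log_le_log (by exact_mod_cast hR1) (hRle.trans ?_)
      calc (N : ℝ) ^ dl ≤ (N : ℝ) ^ (1 : ℝ) :=
            Real.rpow_le_rpow_of_exponent_le hN1 (by rw [hdl]; norm_num)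
        _ = N := Real.rpow_one _
    linarith
  -- the size of h
  have hhle : (hh N : ℝ) ≤ (N : ℝ) ^ (1 / 2 - dl) := by
    unfold hh
    exact Nat.floor_le (by positivity)
  have hhge : (N : ℝ) ^ (1 / 2 - dl) / 2 ≤ (hh N : ℝ) := by
    have e1 : (N : ℝ) ^ (1 / 2 - dl) < (hh N : ℝ) + 1 := by
      unfold hh
      exact Nat.lt_floor_add_one _
    have e3 : 1 ≤ hh N := by
      unfold hh
      rw [Nat.one_le_floor_iff]
      exact Real.one_le_rpow hN1 (by rw [hdl]; norm_num)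
    have e4 : (1 : ℝ) ≤ (hh N : ℝ) := by exact_mod_cast e3
    linarith
  -- elements of JJ are at most (z+1)^K
  have hKJ : ∀ n ∈ JJ N, n ≤ (zN N + 1) ^ K := by
    intro n hn
    have e1 := (mem_JH.1 hn).2
    have e2 : (hh N : ℝ) ≤ N := by
      refine hhle.trans ?_
      calc (N : ℝ) ^ (1 / 2 - dl) ≤ (N : ℝ) ^ (1 : ℝ) :=
            Real.rpow_le_rpow_of_exponent_le hN1 (by rw [hdl]; norm_num)
        _ = N := Real.rpow_one _
    have e3 : (N : ℝ) ^ sg ≤ (zN N : ℝ) + 1 := by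
      unfold zN
      exact (Nat.lt_floor_add_one _).le
    have e4 : (N : ℝ) ^ 2 ≤ ((zN N : ℝ) + 1) ^ K := by
      calc (N : ℝ) ^ 2 = (N : ℝ) ^ (2 : ℝ) := (Real.rpow_natCast _ 2).symm
        _ ≤ (N : ℝ) ^ (sg * K) := Real.rpow_le_rpow_of_exponent_le hN1 hK2
        _ = ((N : ℝ) ^ sg) ^ K := by rw [Real.rpow_mul hN0.le, Real.rpow_natCast]
        _ ≤ _ := pow_le_pow_left₀ (by positivity) e3 K
    have e5 : (n : ℝ) ≤ ((zN N : ℝ) + 1) ^ K := by
      have e6 : (n : ℝ) < N + hh N := by exact_mod_cast e1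
      nlinarith
    exact_mod_cast e5
  have key := GG_ge N R K hR1 (by omega) hKJ
  have hT1 := TT_one N (hh N) R hR1
  have hbad := bad_bound N R (by omega)
  set hL : ℝ := (hh N : ℝ) / Selberg.L R with hhL
  have hhL0 : 0 ≤ hL := by positivity
  -- (E1)
  have E1 : 2 * (R : ℝ) ^ 4 ≤ 0.01 * hL := by
    have e1 : (R : ℝ) ^ 4 ≤ (N : ℝ) ^ (4 * dl) := by
      calc (R : ℝ) ^ 4 ≤ ((N : ℝ) ^ dl) ^ 4 := pow_le_pow_left₀ (Nat.cast_nonneg _) hRle 4
        _ = (N : ℝ) ^ (4 * dl) := by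
            rw [← Real.rpow_natCast, ← Real.rpow_mul hN0.le]
            congr 1
            push_cast
            ring
    have e2 : (N : ℝ) ^ (4 * dl) * (2800 * Real.log N) ≤ (N : ℝ) ^ (1 / 2 - dl) := by
      calc (N : ℝ) ^ (4 * dl) * (2800 * Real.log N) ≤ (N : ℝ) ^ (4 * dl) *
            (N : ℝ) ^ (1 / 2 - 5 * dl) := mul_le_mul_of_nonneg_left h4 (by positivity)
        _ = _ := by
            rw [← Real.rpow_add hN0]
            congr 1
            ring
    rw [hhL, ← mul_div_assoc, le_div_iff₀ hLpos]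
    calc 2 * (R : ℝ) ^ 4 * Selberg.L R ≤ 2 * (N : ℝ) ^ (4 * dl) * (7 * Real.log N) := by
          gcongr
      _ ≤ 0.01 * ((N : ℝ) ^ (1 / 2 - dl) / 2) := by linarith
      _ ≤ 0.01 * (hh N : ℝ) := by linarith
  -- (E2)
  have E2 : (4 : ℝ) ^ K * ((SqS N).card : ℝ) ≤ 0.01 * hL := by
    have e1 : ((SqS N).card : ℝ) ≤ (hh N : ℝ) * (N : ℝ) ^ (-(sg / 2)) := by
      unfold SqS
      exact h3
    have e2 : (4 : ℝ) ^ K * (N : ℝ) ^ (-(sg / 2)) * Selberg.L R ≤ 0.01 := by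
      rw [Real.rpow_neg hN0.le]
      have e3 : (0 : ℝ) < (N : ℝ) ^ (sg / 2) := by positivity
      calc (4 : ℝ) ^ K * ((N : ℝ) ^ (sg / 2))⁻¹ * Selberg.L R
          ≤ (4 : ℝ) ^ K * ((N : ℝ) ^ (sg / 2))⁻¹ * (7 * Real.log N) := by gcongr
        _ = 0.01 * (700 * (4 : ℝ) ^ K * Real.log N) * ((N : ℝ) ^ (sg / 2))⁻¹ := by ring
        _ ≤ 0.01 * ((N : ℝ) ^ (sg / 2)) * ((N : ℝ) ^ (sg / 2))⁻¹ := by gcongr
        _ = 0.01 := by rw [mul_assoc, mul_inv_cancel₀ e3.ne', mul_one]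
    rw [hhL, ← mul_div_assoc, le_div_iff₀ hLpos]
    calc (4 : ℝ) ^ K * ((SqS N).card : ℝ) * Selberg.L R
        ≤ (4 : ℝ) ^ K * ((hh N : ℝ) * (N : ℝ) ^ (-(sg / 2))) * Selberg.L R := by gcongr
      _ = (hh N : ℝ) * ((4 : ℝ) ^ K * (N : ℝ) ^ (-(sg / 2)) * Selberg.L R) := by ring
      _ ≤ (hh N : ℝ) * 0.01 := mul_le_mul_of_nonneg_left e2 (Nat.cast_nonneg _)
      _ = 0.01 * (hh N : ℝ) := by ring
  -- (E3)
  have E3 : ∑ n ∈ Bad N, Selberg.wt R n ≤ 0.56 * hL := by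
    have e1 : Real.log N * ∑ n ∈ Bad N, Selberg.wt R n ≤ Real.log N * (0.56 * hL) := by
      calc _ ≤ _ := hbad
        _ ≤ 0.56 * hL * Real.log N := h2
        _ = _ := by ring
    exact le_of_mul_le_mul_left e1 (by linarith)
  have E4 : 0.4 * hL ≤ (4 : ℝ) ^ K * ((GG N).card : ℝ) := by
    linarith
  have E5 : (hh N : ℝ) / (7 * Real.log N) ≤ hL := by
    rw [hhL]
    exact div_le_div_of_nonneg_left (Nat.cast_nonneg _) hLpos hLle
  have hlog0 : (0 : ℝ) < Real.log N := by linarith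
  calc 0.4 / (7 * 4 ^ K) * (hh N : ℝ) / Real.log N
      = (0.4 * ((hh N : ℝ) / (7 * Real.log N))) / 4 ^ K := by
        field_simp
    _ ≤ (0.4 * hL) / 4 ^ K := by gcongr
    _ ≤ ((4 : ℝ) ^ K * ((GG N).card : ℝ)) / 4 ^ K := by gcongr
    _ = ((GG N).card : ℝ) := by
        rw [mul_comm, mul_div_assoc, div_self h4K.ne', mul_one]

end Pool.Agent.PSK
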