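import Pool.Agent.PSK.Blk
import Pool.Agent.PSK.Few

/-!
# PSK module PSI: equidistribution of `w/a` modulo one for `a` near `√N`

Put `L = ⌊N^(11/50)⌋`, `L' = ⌊N^(4/25)⌋`, `Q0 = ⌈N^(1/25)⌉`.  (If `U' ≤ U` the sum is empty.)
Blocks `a = a_i + l`, `a_i = U + 1 + i L`, `l < L`, `i < I = (U' - U)/L`; the remaining `< L` terms are
trivial (each `≤ 1/2`).  All `a` satisfy `N^(0.496) ≤ a ≤ N^(0.504)`.

`|w/(a+l) - (w/a - (w/a²) l)| = w l²/(a² (a+l)) ≤ w L²/a³ ≤ 2 N · N^(0.44) / N^(1.488) = 2 N^(-0.048)`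
`=: ε`.  `α_i = w/a_i² ≤ 2 N^(0.008) =: αm`.  For `i < j`:
`α_i - α_j = w (a_j - a_i)(a_i + a_j)/(a_i² a_j²) ≥ w (j-i) L · 2/(N^(0.504))³ ≥ s (j - i)`,
`s = N^(-0.3)` (`w ≥ N^(0.992)`, `L ≥ N^(0.22)/2`).
Dirichlet (`Real.exists_rat_abs_sub_le_and_den_le` with `n = L'`): `|α_i - u_i/q_i| ≤ 1/(q_i L')`,
`q_i ≤ L'`, coprime.

Bad blocks (`q_i < Q0`): by `few_bad` at most `Q0 (Q0 αm + 2)(2/(L' s) + 1) ≤ 100 N^(0.228)` (roughly
`(2 N^0.04)(6 N^0.048)(5 N^0.14)`), each contributes at most `L/2`: total `≤ 50 N^(0.448)`.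
Good blocks: by `block` each `≤ L/(2 Q0) + 2 (1/L' + ε) L + L'/2`, and `I L ≤ N^(0.504)`:
total `≤ N^(0.504) (N^(-0.04) + 4 N^(-0.16) + 4 N^(-0.048) + N^(-0.06)) ≤ 10 N^(0.464)`.
Altogether `≤ 10 N^(0.464) + 50 N^(0.448) + N^(0.22) ≤ N^(0.47)` for large `N`.
-/

set_option autoImplicit false

namespace Pool.Agent.PSK

open Finset Filter

private theorem sum_blocks (I L : ℕ) (g : ℕ → ℝ) :
    ∑ j ∈ range (I * L), g j = ∑ i ∈ range I, ∑ l ∈ range L, g (i * L + l) := by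
  induction I with
  | zero => simp
  | succ I ih =>
    rw [sum_range_succ, ← ih, Nat.succ_mul, sum_range_add]

private theorem abs_fract_half (x : ℝ) : |Int.fract x - 1 / 2| ≤ 1 / 2 := by
  rw [abs_le]
  have h1 := Int.fract_nonneg x
  have h2 := (Int.fract_lt_one x).le
  constructor <;> linarith

private theorem lin_approx {w a l : ℝ} (ha : 0 < a) (hl : 0 ≤ l) :
    w / (a + l) - (w / a - w / a ^ 2 * l) = w * l ^ 2 / (a ^ 2 * (a + l)) := by
  have h1 : a + l ≠ 0 := by positivity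
  field_simp
  ring

private theorem slope_diff {w a b X : ℝ} (hX : 1 ≤ X) (hw : X ^ 496 ≤ w) (ha : 0 < a)
    (hab : a ≤ b) (hb : b ≤ X ^ 252) :
    2 * (b - a) * X ^ 496 ≤ (w / a ^ 2 - w / b ^ 2) * X ^ 756 := by
  have hb0 : 0 < b := lt_of_lt_of_le ha hab
  have e1 : w / a ^ 2 - w / b ^ 2 = w * (b - a) * (1 / (a ^ 2 * b) + 1 / (a * b ^ 2)) := by
    field_simp
    ring
  have ha' : a ≤ X ^ 252 := hab.trans hb
  have h1 : a ^ 2 * b ≤ X ^ 756 := by
    calc a ^ 2 * b ≤ (X ^ 252) ^ 2 * X ^ 252 :=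
          mul_le_mul (pow_le_pow_left₀ ha.le ha' 2) hb hb0.le (by positivity)
      _ = X ^ 756 := by rw [← pow_mul, ← pow_add]
  have h2 : a * b ^ 2 ≤ X ^ 756 := by
    calc a * b ^ 2 ≤ X ^ 252 * (X ^ 252) ^ 2 :=
          mul_le_mul ha' (pow_le_pow_left₀ hb0.le hb 2) (by positivity) (by positivity)
      _ = X ^ 756 := by rw [← pow_mul, ← pow_add]
  have h3 : 1 ≤ 1 / (a ^ 2 * b) * X ^ 756 := by
    rw [one_div, ← div_eq_inv_mul, le_div_iff₀ (by positivity), one_mul]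
    exact h1
  have h4 : 1 ≤ 1 / (a * b ^ 2) * X ^ 756 := by
    rw [one_div, ← div_eq_inv_mul, le_div_iff₀ (by positivity), one_mul]
    exact h2
  have hw0 : 0 ≤ w := le_trans (by positivity) hw
  have h5 : 0 ≤ w * (b - a) := mul_nonneg hw0 (by linarith)
  calc 2 * (b - a) * X ^ 496 = 2 * (X ^ 496 * (b - a)) := by ring
    _ ≤ 2 * (w * (b - a)) := by
        have := mul_le_mul_of_nonneg_right hw (show (0 : ℝ) ≤ b - a by linarith)
        linarith
    _ ≤ (w * (b - a)) * (1 / (a ^ 2 * b) * X ^ 756 + 1 / (a * b ^ 2) * X ^ 756) := by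
        have := mul_le_mul_of_nonneg_left (show (2 : ℝ) ≤ 1 / (a ^ 2 * b) * X ^ 756 +
          1 / (a * b ^ 2) * X ^ 756 by linarith) h5
        linarith
    _ = _ := by rw [e1]; ring

private theorem core {X w : ℝ} (hX : 4 ≤ X) (hw1 : X ^ 496 ≤ w) (hw2 : w ≤ 2 * X ^ 500)
    {U U' : ℕ} (hU : X ^ 248 ≤ U) (hU' : (U' : ℝ) ≤ X ^ 252) :
    |∑ a ∈ Ioc U U', (Int.fract (w / a) - 1 / 2)| ≤ X ^ 235 := by
  classical
  have hX0 : (0 : ℝ) < X := by linarith
  have hX1 : (1 : ℝ) ≤ X := by linarith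
  have hpw : ∀ m n : ℕ, m ≤ n → X ^ m ≤ X ^ n := fun m n h => pow_le_pow_right₀ hX1 h
  have hw0 : 0 < w := lt_of_lt_of_le (by positivity) hw1
  -- parameters
  obtain ⟨L, hL⟩ : ∃ L : ℕ, L = ⌊X ^ 110⌋₊ := ⟨_, rfl⟩
  obtain ⟨L', hL'⟩ : ∃ L' : ℕ, L' = ⌊X ^ 80⌋₊ := ⟨_, rfl⟩
  obtain ⟨Q0, hQ0⟩ : ∃ Q0 : ℕ, Q0 = ⌈X ^ 20⌉₊ := ⟨_, rfl⟩
  have hbig : ∀ m : ℕ, 1 ≤ m → 4 ≤ X ^ m := fun m hm => by
    calc (4 : ℝ) ≤ X := hX
      _ = X ^ 1 := (pow_one X).symm
      _ ≤ X ^ m := hpw 1 m hm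
  have hL1 : (L : ℝ) ≤ X ^ 110 := by rw [hL]; exact Nat.floor_le (by positivity)
  have hL2 : X ^ 110 / 2 ≤ L := by
    rw [hL]
    have h1 := Nat.sub_one_lt_floor (X ^ 110)
    have h2 := hbig 110 (by norm_num)
    linarith
  have hL'1 : (L' : ℝ) ≤ X ^ 80 := by rw [hL']; exact Nat.floor_le (by positivity)
  have hL'2 : X ^ 80 / 2 ≤ L' := by
    rw [hL']
    have h1 := Nat.sub_one_lt_floor (X ^ 80)
    have h2 := hbig 80 (by norm_num)
    linarith
  have hQ1 : X ^ 20 ≤ Q0 := by rw [hQ0]; exact Nat.le_ceil _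
  have hQ2 : (Q0 : ℝ) ≤ 2 * X ^ 20 := by
    rw [hQ0]
    have h1 := Nat.ceil_lt_add_one (show (0 : ℝ) ≤ X ^ 20 by positivity)
    have h2 := hbig 20 (by norm_num)
    linarith
  have hLpos : (0 : ℝ) < L := lt_of_lt_of_le (by positivity) hL2
  have hL'pos : (0 : ℝ) < L' := lt_of_lt_of_le (by positivity) hL'2
  have hQpos : (0 : ℝ) < Q0 := lt_of_lt_of_le (by positivity) hQ1
  have hLn : 0 < L := by exact_mod_cast hLpos
  have hL'n : 2 ≤ L' := by
    have : (2 : ℝ) ≤ L' := by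
      have h2 := hbig 80 (by norm_num)
      linarith
    exact_mod_cast this
  -- the sum over a range
  set n := U' - U with hn
  set I := n / L with hI
  set g : ℕ → ℝ := fun j => Int.fract (w / ((U + 1 + j : ℕ) : ℝ)) - 1 / 2 with hg
  have hsum : ∑ a ∈ Ioc U U', (Int.fract (w / a) - 1 / 2) = ∑ j ∈ range n, g j := by
    have h1 : Ioc U U' = Ico (U + 1) (U' + 1) := by
      ext a; simp only [mem_Ioc, mem_Ico]; omega
    rw [h1, sum_Ico_eq_sum_range]
    have h2 : U' + 1 - (U + 1) = n := by omega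
    rw [h2]
  have hdecomp : ∑ j ∈ range n, g j = ∑ i ∈ range I, ∑ l ∈ range L, g (i * L + l) +
      ∑ r ∈ range (n % L), g (I * L + r) := by
    rw [← sum_blocks, ← sum_range_add]
    congr 2
    rw [hI]
    exact (Nat.div_add_mod' n L).symm
  have hg1 : ∀ j, |g j| ≤ 1 / 2 := fun j => abs_fract_half _
  have hrest : |∑ r ∈ range (n % L), g (I * L + r)| ≤ X ^ 110 / 2 := by
    refine (abs_sum_le_sum_abs _ _).trans ?_
    refine (sum_le_card_nsmul _ _ (1 / 2) (fun r _ => hg1 _)).trans ?_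
    rw [card_range, nsmul_eq_mul]
    have h1 : ((n % L : ℕ) : ℝ) ≤ L := by exact_mod_cast (Nat.mod_lt n hLn).le
    linarith
  have htriv : ∀ i, |∑ l ∈ range L, g (i * L + l)| ≤ X ^ 110 / 2 := by
    intro i
    refine (abs_sum_le_sum_abs _ _).trans ?_
    refine (sum_le_card_nsmul _ _ (1 / 2) (fun r _ => hg1 _)).trans ?_
    rw [card_range, nsmul_eq_mul]
    linarith
  -- block data
  set A : ℕ → ℝ := fun i => ((U + 1 + i * L : ℕ) : ℝ) with hA
  have hA0 : ∀ i, X ^ 248 ≤ A i := by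
    intro i
    have h1 : (U : ℝ) ≤ A i := by
      show (U : ℝ) ≤ ((U + 1 + i * L : ℕ) : ℝ)
      exact_mod_cast (by omega : U ≤ U + 1 + i * L)
    linarith
  have hApos : ∀ i, 0 < A i := fun i => lt_of_lt_of_le (by positivity) (hA0 i)
  have hAend : ∀ i < I, A i + L ≤ X ^ 252 + 1 := by
    intro i hi
    have h1 : (i + 1) * L ≤ n := by
      calc (i + 1) * L ≤ I * L := Nat.mul_le_mul_right _ hi
        _ ≤ n := Nat.div_mul_le_self n L
    have h2 : U + 1 + i * L + L ≤ U' + 1 := by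
      have h3 : (i + 1) * L = i * L + L := by ring
      have h4 : 0 < n := by
        have : 0 < (i + 1) * L := by positivity
        omega
      omega
    have h3 : (((U + 1 + i * L + L : ℕ)) : ℝ) ≤ ((U' + 1 : ℕ) : ℝ) := by exact_mod_cast h2
    push_cast at h3
    rw [hA]
    push_cast
    linarith
  have hL1' : (1 : ℝ) ≤ L := by exact_mod_cast hLn
  have hAle : ∀ i < I, A i ≤ X ^ 252 := by
    intro i hi
    have := hAend i hi
    linarith
  set α : ℕ → ℝ := fun i => w / (A i) ^ 2 with hα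
  have hαm : ∀ i < I, 0 ≤ α i ∧ α i ≤ 2 * X ^ 4 := by
    intro i _
    have h1 := hA0 i
    have h2 := hApos i
    refine ⟨by rw [hα]; positivity, ?_⟩
    rw [hα]
    simp only
    rw [div_le_iff₀ (by positivity)]
    have h3 : (X ^ 248) ^ 2 ≤ (A i) ^ 2 := pow_le_pow_left₀ (by positivity) h1 2
    calc w ≤ 2 * X ^ 500 := hw2
      _ = 2 * X ^ 4 * (X ^ 248) ^ 2 := by rw [← pow_mul, mul_assoc, ← pow_add]
      _ ≤ 2 * X ^ 4 * (A i) ^ 2 := mul_le_mul_of_nonneg_left h3 (by positivity)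
  set sr : ℝ := (X ^ 150)⁻¹ with hsr
  have hsr0 : 0 < sr := by rw [hsr]; positivity
  have hsep : ∀ i j, i < j → j < I → sr * ((j : ℝ) - i) ≤ α i - α j := by
    intro i j hij hj
    have hAij : A j - A i = ((j : ℝ) - i) * L := by
      rw [hA]; push_cast; ring
    have hji : (0 : ℝ) ≤ (j : ℝ) - i := by
      have : (i : ℝ) ≤ j := by exact_mod_cast hij.le
      linarith
    have hle : A i ≤ A j := by
      have : 0 ≤ ((j : ℝ) - i) * L := mul_nonneg hji hLpos.le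
      linarith
    have h1 := slope_diff hX1 hw1 (hApos i) hle (hAle j hj)
    rw [hAij] at h1
    have h2 : (α i - α j) * X ^ 756 = (w / A i ^ 2 - w / A j ^ 2) * X ^ 756 := rfl
    have h3 : ((j : ℝ) - i) * X ^ 606 ≤ (α i - α j) * X ^ 756 := by
      rw [h2]
      refine le_trans ?_ h1
      have h4 : ((j : ℝ) - i) * X ^ 606 = ((j : ℝ) - i) * (X ^ 110 * X ^ 496) := by
        rw [← pow_add]
      rw [h4]
      have h5 : 2 * (((j : ℝ) - i) * (L : ℝ)) * X ^ 496 =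
          ((j : ℝ) - i) * ((2 * L) * X ^ 496) := by ring
      rw [h5]
      refine mul_le_mul_of_nonneg_left ?_ hji
      exact mul_le_mul_of_nonneg_right (by linarith) (by positivity)
    have h6 : (sr * ((j : ℝ) - i)) * X ^ 756 = ((j : ℝ) - i) * X ^ 606 := by
      rw [hsr]
      have h7 : X ^ 756 = X ^ 150 * X ^ 606 := by rw [← pow_add]
      rw [h7]
      have h8 : X ^ 150 ≠ 0 := by positivity
      field_simp
    rw [← h6] at h3
    exact le_of_mul_le_mul_right h3 (by positivity)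
  -- Dirichlet
  have hdir : ∀ i : ℕ, ∃ ρ : ℚ, |α i - ρ| ≤ 1 / ((L' + 1) * ρ.den) ∧ ρ.den ≤ L' :=
    fun i => Real.exists_rat_abs_sub_le_and_den_le (α i) (by omega)
  choose ρ hρ1 hρ2 using hdir
  set q : ℕ → ℕ := fun i => (ρ i).den with hq
  set u : ℕ → ℤ := fun i => (ρ i).num with hu
  have hqpos : ∀ i, 1 ≤ q i := fun i => (ρ i).den_pos
  have hqr : ∀ i, (0 : ℝ) < q i := fun i => by exact_mod_cast hqpos i
  have hcop : ∀ i, IsCoprime (u i) (q i : ℤ) := fun i => by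
    have := (ρ i).reduced
    rw [Int.isCoprime_iff_gcd_eq_one]
    exact this
  have happ : ∀ i, |α i - u i / q i| ≤ 1 / (q i * L') := by
    intro i
    have h1 : ((ρ i : ℚ) : ℝ) = (u i : ℝ) / q i := by
      rw [hu, hq]
      exact Rat.cast_def (ρ i)
    rw [← h1]
    refine (hρ1 i).trans ?_
    apply one_div_le_one_div_of_le (mul_pos (hqr i) hL'pos)
    have := hqr i
    rw [hq] at this ⊢
    simp only at this ⊢
    nlinarith
  have hbad := few_bad I Q0 L' hL'n α sr (2 * X ^ 4) hsr0 hsep hαm q u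
    (fun i _ => ⟨hqpos i, happ i⟩) (by positivity)
  have hbad2 : (((range I).filter (fun i => q i < Q0)).card : ℝ) ≤ 60 * X ^ 114 := by
    refine hbad.trans ?_
    have e1 : (Q0 : ℝ) * (2 * X ^ 4) + 2 ≤ 6 * X ^ 24 := by
      have h1 : (Q0 : ℝ) * (2 * X ^ 4) ≤ (2 * X ^ 20) * (2 * X ^ 4) :=
        mul_le_mul_of_nonneg_right hQ2 (by positivity)
      have h2 : (2 * X ^ 20) * (2 * X ^ 4) = 4 * X ^ 24 := by ring
      have h3 := hbig 24 (by norm_num)
      linarith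
    have e2 : 2 / ((L' : ℝ) * sr) + 1 ≤ 5 * X ^ 70 := by
      have h1 : X ^ 80 / 2 * sr ≤ (L' : ℝ) * sr := mul_le_mul_of_nonneg_right hL'2 hsr0.le
      have h2 : 2 / ((L' : ℝ) * sr) ≤ 2 / (X ^ 80 / 2 * sr) :=
        div_le_div_of_nonneg_left (by norm_num) (by positivity) h1
      have h3 : 2 / (X ^ 80 / 2 * sr) = 4 * X ^ 70 := by
        rw [hsr]
        have h7 : X ^ 150 = X ^ 80 * X ^ 70 := by rw [← pow_add]
        rw [h7]
        field_simp
        norm_num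
      have h4 := hbig 70 (by norm_num)
      linarith
    calc (Q0 : ℝ) * (Q0 * (2 * X ^ 4) + 2) * (2 / (L' * sr) + 1)
        ≤ (2 * X ^ 20) * (6 * X ^ 24) * (5 * X ^ 70) := by
          refine mul_le_mul (mul_le_mul hQ2 e1 (by positivity) (by positivity)) e2 ?_
            (by positivity)
          have : 0 < (L' : ℝ) * sr := mul_pos hL'pos hsr0
          positivity
      _ = 60 * X ^ 114 := by ring
  -- good blocks
  set ε : ℝ := 2 * (X ^ 24)⁻¹ with hε
  have hε0 : 0 < ε := by rw [hε]; positivity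
  set Gd : ℝ := (L : ℝ) / (2 * Q0) + 2 * (1 / L' + ε) * L + L' / 2 with hGd
  have hGd0 : 0 ≤ Gd := by rw [hGd]; positivity
  have hgood : ∀ i < I, ¬ q i < Q0 → |∑ l ∈ range L, g (i * L + l)| ≤ Gd := by
    intro i hi hqi
    rw [not_lt] at hqi
    have hqir : (Q0 : ℝ) ≤ q i := by exact_mod_cast hqi
    have hb := block L (q i) L' (hqpos i) (by omega) (u i) (hcop i) (α i) (w / A i) ε hε0.le
      (happ i) (fun l => w / ((U + 1 + (i * L + l) : ℕ) : ℝ)) (by
        intro l hl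
        have hlr : (l : ℝ) ≤ L := by exact_mod_cast hl.le
        have e1 : (((U + 1 + (i * L + l) : ℕ)) : ℝ) = A i + l := by
          rw [hA]; push_cast; ring
        rw [e1, lin_approx (hApos i) (Nat.cast_nonneg l), abs_of_nonneg (by
          have := hApos i
          positivity)]
        have h0 := hApos i
        have h1 : (X ^ 248) ^ 2 * X ^ 248 ≤ (A i) ^ 2 * (A i + l) := by
          refine mul_le_mul (pow_le_pow_left₀ (by positivity) (hA0 i) 2) ?_ (by positivity)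
            (by positivity)
          have : (0 : ℝ) ≤ l := Nat.cast_nonneg l
          linarith [hA0 i]
        have h2 : w * (l : ℝ) ^ 2 ≤ (2 * X ^ 500) * (X ^ 110) ^ 2 := by
          refine mul_le_mul hw2 (pow_le_pow_left₀ (Nat.cast_nonneg l) (hlr.trans hL1) 2)
            (by positivity) (by positivity)
        rw [div_le_iff₀ (by positivity)]
        calc w * (l : ℝ) ^ 2 ≤ (2 * X ^ 500) * (X ^ 110) ^ 2 := h2
          _ = ε * ((X ^ 248) ^ 2 * X ^ 248) := by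
              rw [hε]
              have h7 : (X ^ 248) ^ 2 * X ^ 248 = X ^ 24 * X ^ 720 := by
                rw [← pow_mul, ← pow_add, ← pow_add]
              have h8 : (2 * X ^ 500) * (X ^ 110) ^ 2 = 2 * X ^ 720 := by
                rw [← pow_mul, mul_assoc, ← pow_add]
              rw [h7, h8]
              have h9 : X ^ 24 ≠ 0 := by positivity
              field_simp
          _ ≤ ε * ((A i) ^ 2 * (A i + l)) := mul_le_mul_of_nonneg_left h1 hε0.le)
    refine hb.trans ?_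
    rw [hGd]
    have h3 : (L : ℝ) / (2 * q i) ≤ L / (2 * Q0) :=
      div_le_div_of_nonneg_left hLpos.le (by positivity) (by linarith)
    have h4 : (q i : ℝ) ≤ L' := by exact_mod_cast hρ2 i
    linarith
  have hIL : (I : ℝ) * L ≤ X ^ 252 := by
    have h1 : I * L ≤ n := Nat.div_mul_le_self n L
    have h2 : n ≤ U' := Nat.sub_le _ _
    have h3 : ((I * L : ℕ) : ℝ) ≤ U' := by exact_mod_cast h1.trans h2
    push_cast at h3
    linarith
  have hIGd : (I : ℝ) * Gd ≤ X ^ 232 / 2 + 4 * X ^ 172 + 4 * X ^ 228 + X ^ 222 := by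
    have e0 : (0 : ℝ) ≤ I := Nat.cast_nonneg I
    have e1 : (I : ℝ) * (L / (2 * Q0)) ≤ X ^ 232 / 2 := by
      have h1 : (I : ℝ) * (L / (2 * Q0)) = (I * L) / (2 * Q0) := by ring
      rw [h1, div_le_iff₀ (by positivity)]
      calc (I : ℝ) * L ≤ X ^ 252 := hIL
        _ = X ^ 232 / 2 * (2 * X ^ 20) := by ring
        _ ≤ X ^ 232 / 2 * (2 * Q0) := by
            refine mul_le_mul_of_nonneg_left (by linarith) (by positivity)
    have e2 : (I : ℝ) * (2 * (1 / L' + ε) * L) ≤ 4 * X ^ 172 + 4 * X ^ 228 := by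
      have h1 : 1 / (L' : ℝ) ≤ 2 * (X ^ 80)⁻¹ := by
        rw [div_le_iff₀ hL'pos]
        have h9 : X ^ 80 ≠ 0 := by positivity
        calc (1 : ℝ) = 2 * (X ^ 80)⁻¹ * (X ^ 80 / 2) := by field_simp
          _ ≤ 2 * (X ^ 80)⁻¹ * L' := mul_le_mul_of_nonneg_left hL'2 (by positivity)
      have h2 : (I : ℝ) * (2 * (1 / L' + ε) * L) = (I * L) * (2 * (1 / L' + ε)) := by ring
      rw [h2]
      calc ((I : ℝ) * L) * (2 * (1 / L' + ε)) ≤ X ^ 252 * (2 * (2 * (X ^ 80)⁻¹ + ε)) :=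
            mul_le_mul hIL (by linarith) (by positivity) (by positivity)
        _ = 4 * X ^ 172 + 4 * X ^ 228 := by
            rw [hε]
            have h3 : X ^ 252 = X ^ 80 * X ^ 172 := by rw [← pow_add]
            have h4 : X ^ 252 = X ^ 24 * X ^ 228 := by rw [← pow_add]
            have h9 : X ^ 80 ≠ 0 := by positivity
            have h10 : X ^ 24 ≠ 0 := by positivity
            calc X ^ 252 * (2 * (2 * (X ^ 80)⁻¹ + 2 * (X ^ 24)⁻¹)) =
                  4 * (X ^ 252 * (X ^ 80)⁻¹) + 4 * (X ^ 252 * (X ^ 24)⁻¹) := by ring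
              _ = 4 * ((X ^ 80 * X ^ 172) * (X ^ 80)⁻¹) + 4 * ((X ^ 24 * X ^ 228) * (X ^ 24)⁻¹) := by
                  rw [← h3, ← h4]
              _ = _ := by field_simp
    have e3 : (I : ℝ) * (L' / 2) ≤ X ^ 222 := by
      have h1 : (I : ℝ) * X ^ 110 ≤ 2 * X ^ 252 := by
        have : (I : ℝ) * (X ^ 110 / 2) ≤ I * L := mul_le_mul_of_nonneg_left hL2 e0
        linarith
      have h2 : (I : ℝ) * (L' / 2) ≤ I * (X ^ 80 / 2) :=
        mul_le_mul_of_nonneg_left (by linarith) e0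
      have h3 : ((I : ℝ) * (X ^ 80 / 2)) * X ^ 30 ≤ X ^ 222 * X ^ 30 := by
        calc ((I : ℝ) * (X ^ 80 / 2)) * X ^ 30 = (I * X ^ 110) / 2 := by ring
          _ ≤ X ^ 252 := by linarith
          _ = X ^ 222 * X ^ 30 := by rw [← pow_add]
      exact h2.trans (le_of_mul_le_mul_right h3 (by positivity))
    have e4 : (I : ℝ) * Gd = I * (L / (2 * Q0)) + I * (2 * (1 / L' + ε) * L) + I * (L' / 2) := by
      rw [hGd]; ring
    rw [e4]
    linarith
  have hmain : |∑ i ∈ range I, ∑ l ∈ range L, g (i * L + l)| ≤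
      60 * X ^ 114 * (X ^ 110 / 2) + I * Gd := by
    refine (abs_sum_le_sum_abs _ _).trans ?_
    rw [← sum_filter_add_sum_filter_not (range I) (fun i => q i < Q0)]
    have h1 : ∑ i ∈ (range I).filter (fun i => q i < Q0), |∑ l ∈ range L, g (i * L + l)| ≤
        60 * X ^ 114 * (X ^ 110 / 2) := by
      refine (sum_le_card_nsmul _ _ (X ^ 110 / 2) (fun i _ => htriv i)).trans ?_
      rw [nsmul_eq_mul]
      exact mul_le_mul_of_nonneg_right hbad2 (by positivity)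
    have h2 : ∑ i ∈ (range I).filter (fun i => ¬ q i < Q0), |∑ l ∈ range L, g (i * L + l)| ≤
        I * Gd := by
      refine (sum_le_card_nsmul _ _ Gd (fun i hi => ?_)).trans ?_
      · rw [mem_filter, mem_range] at hi
        exact hgood i hi.1 hi.2
      · rw [nsmul_eq_mul]
        refine mul_le_mul_of_nonneg_right ?_ hGd0
        have : ((range I).filter (fun i => ¬ q i < Q0)).card ≤ I := by
          refine (card_filter_le _ _).trans ?_
          rw [card_range]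
        exact_mod_cast this
    linarith
  rw [hsum, hdecomp]
  refine (abs_add_le _ _).trans ?_
  have h1 : 60 * X ^ 114 * (X ^ 110 / 2) = 30 * X ^ 224 := by ring
  rw [h1] at hmain
  have k1 := hpw 110 232 (by norm_num)
  have k2 := hpw 172 232 (by norm_num)
  have k3 := hpw 228 232 (by norm_num)
  have k4 := hpw 222 232 (by norm_num)
  have k5 := hpw 224 232 (by norm_num)
  have k6 : 40 * X ^ 232 ≤ X ^ 235 := by
    have h64 : (4 : ℝ) ^ 3 ≤ X ^ 3 := pow_le_pow_left₀ (by norm_num) hX 3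
    have h232 : (0 : ℝ) < X ^ 232 := by positivity
    calc 40 * X ^ 232 ≤ X ^ 3 * X ^ 232 :=
          mul_le_mul_of_nonneg_right (by norm_num at h64; linarith) h232.le
      _ = X ^ 235 := by rw [← pow_add]
  linarith

theorem psi_sum : ∀ᶠ N : ℕ in atTop, ∀ w : ℝ, (N : ℝ) ^ (1 - 1 / 125 : ℝ) ≤ w → w ≤ 2 * N →
    ∀ U U' : ℕ, (N : ℝ) ^ (1 / 2 - 1 / 250 : ℝ) ≤ U → (U' : ℝ) ≤ (N : ℝ) ^ (1 / 2 + 1 / 250 : ℝ) →
    |∑ a ∈ Ioc U U', (Int.fract (w / a) - 1 / 2)| ≤ (N : ℝ) ^ (47 / 100 : ℝ) := by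
  have hev : ∀ᶠ N : ℕ in atTop, (4 : ℝ) ^ 500 ≤ N := by
    filter_upwards [eventually_ge_atTop (4 ^ 500 : ℕ)] with N hN
    exact_mod_cast hN
  filter_upwards [hev] with N hN w hw1 hw2 U U' hU hU'
  have hN0 : (0 : ℝ) ≤ N := Nat.cast_nonneg N
  set X : ℝ := (N : ℝ) ^ (1 / 500 : ℝ) with hX
  have hX0 : 0 ≤ X := Real.rpow_nonneg hN0 _
  have hXk : ∀ k : ℕ, X ^ k = (N : ℝ) ^ ((k : ℝ) / 500) := by
    intro k
    rw [hX, ← Real.rpow_natCast, ← Real.rpow_mul hN0]
    congr 1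
    ring
  have hX4 : 4 ≤ X := by
    have h1 : ((4 : ℝ) ^ 500) ^ (1 / 500 : ℝ) ≤ X :=
      Real.rpow_le_rpow (by positivity) hN (by norm_num)
    have h2 : ((4 : ℝ) ^ 500) ^ (1 / 500 : ℝ) = 4 := by
      rw [← Real.rpow_natCast, ← Real.rpow_mul (by norm_num)]
      norm_num
    rw [h2] at h1
    exact h1
  have e500 : X ^ 500 = N := by
    rw [hXk]
    norm_num
  have e496 : X ^ 496 = (N : ℝ) ^ (1 - 1 / 125 : ℝ) := by
    rw [hXk]
    norm_num
  have e248 : X ^ 248 = (N : ℝ) ^ (1 / 2 - 1 / 250 : ℝ) := by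
    rw [hXk]
    norm_num
  have e252 : X ^ 252 = (N : ℝ) ^ (1 / 2 + 1 / 250 : ℝ) := by
    rw [hXk]
    norm_num
  have e235 : X ^ 235 = (N : ℝ) ^ (47 / 100 : ℝ) := by
    rw [hXk]
    norm_num
  rw [← e235]
  exact core hX4 (by rw [e496]; exact hw1) (by rw [e500]; exact hw2) (by rw [e248]; exact hU)
    (by rw [e252]; exact hU')

end Pool.Agent.PSK
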