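import Pool.Agent.PSK.Def
import Pool.Agent.PSK.Psi

/-!
# PSK module LAT: lattice points `(a, b)`, `d ∣ a`, `e ∣ b`, `N < a b < N + h`

`a = d a'`, `A/d < a' ≤ B/d` (natural division); the number of multiples of `m = d a' e` in
`(N, N+h)` is `⌊(N+h-1)/m⌋ - ⌊N/m⌋ = (h-1)/m - (fract ((N+h-1)/m) - 1/2) + (fract (N/m) - 1/2)`.
With `w_2 = (N+h-1)/(de)`, `w_1 = N/(de)` (both in `[N^(0.992), 2N]` because `de ≤ N^(1/125)`), the
fractional parts are `fract (w_i / a')`, and `psi_sum` (`U = A/d ≥ N^(0.496)`,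
`U' = B/d ≤ B ≤ N^(0.504)`) bounds their sums by `N^(0.47)` each.
Main term `(h-1)/(de) ∑_{A/d < a' ≤ B/d} 1/a'`, and
`log ((B/d)/(A/d + 1)) ≤ ∑ ≤ log ((B/d)/(A/d - 1))` (real quotients), so
`|∑ 1/a' - log (B/A)| ≤ 2 d/A`; the corrections
`(h/(de)) (2 d/A) ≤ 2 h/A ≤ 2 N^(0.004)` and `log (B/A) ≤ log N` are `≤ N^(0.47)` for large `N`.
-/

set_option autoImplicit false

namespace Pool.Agent.PSK

open Finset Filter

/-- division with remainder as a fractional part -/
lemma LATfract (M m : ℕ) : ((M / m : ℕ) : ℝ) = (M : ℝ) / m - Int.fract ((M : ℝ) / m) := by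
  rw [Int.self_sub_fract]
  have h1 : ⌊(M : ℝ) / m⌋ = ((M / m : ℕ) : ℤ) := by
    rw [← Nat.floor_div_eq_div (K := ℝ), Int.natCast_floor_eq_floor (by positivity)]
  rw [h1]
  push_cast
  rfl

lemma LATcount_Ioc (N M m : ℕ) (hNM : N ≤ M) :
    ((Ioc N M).filter (fun n => m ∣ n)).card = M / m - N / m := by
  have h1 := Nat.Ioc_filter_dvd_card_eq_div N m
  have h2 := Nat.Ioc_filter_dvd_card_eq_div M m
  rw [← Finset.Ioc_union_Ioc_eq_Ioc (Nat.zero_le N) hNM, Finset.filter_union,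
    Finset.card_union_of_disjoint, h1] at h2
  · omega
  · apply Finset.disjoint_filter_filter
    rw [Finset.disjoint_left]
    intro x hx hx'
    rw [Finset.mem_Ioc] at hx hx'
    omega

lemma LATcount (N h m : ℕ) (hh : 1 ≤ h) :
    (((JH N h).filter (fun n => m ∣ n)).card : ℝ) = ((h : ℝ) - 1) / m
      - (Int.fract (((N + h - 1 : ℕ) : ℝ) / m) - 1 / 2) + (Int.fract ((N : ℝ) / m) - 1 / 2) := by
  have h0 : JH N h = Ioc N (N + h - 1) := by
    ext n
    rw [mem_JH, Finset.mem_Ioc]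
    omega
  rw [h0, LATcount_Ioc _ _ _ (by omega), Nat.cast_sub (Nat.div_le_div_right (by omega)),
    LATfract, LATfract]
  have h1 : ((N + h - 1 : ℕ) : ℝ) = (N : ℝ) + (h - 1) := by
    rw [Nat.add_sub_assoc hh, Nat.cast_add, Nat.cast_sub hh]
    push_cast
    ring
  rw [h1, add_div]
  ring

lemma LATset (A B d : ℕ) (hd : 1 ≤ d) :
    (Ioc A B).filter (fun k => d ∣ k) = (Ioc (A / d) (B / d)).image (fun k => d * k) := by
  ext k
  rw [Finset.mem_filter, Finset.mem_image, Finset.mem_Ioc]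
  constructor
  · rintro ⟨⟨h1, h2⟩, c, rfl⟩
    refine ⟨c, ?_, rfl⟩
    rw [Finset.mem_Ioc]
    exact ⟨(Nat.div_lt_iff_lt_mul hd).2 (by rw [mul_comm]; exact h1),
      (Nat.le_div_iff_mul_le hd).2 (by rw [mul_comm]; exact h2)⟩
  · rintro ⟨c, hc, rfl⟩
    rw [Finset.mem_Ioc] at hc
    refine ⟨⟨?_, ?_⟩, dvd_mul_right d c⟩
    · have := (Nat.div_lt_iff_lt_mul hd).1 hc.1
      rwa [mul_comm] at this
    · have := (Nat.le_div_iff_mul_le hd).1 hc.2
      rwa [mul_comm] at this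

/-- harmonic sums, upper bound -/
lemma LATharm_le (s t : ℕ) (hs : 1 ≤ s) (hst : s ≤ t) :
    ∑ k ∈ Ioc s t, 1 / (k : ℝ) ≤ Real.log ((t : ℝ) / s) := by
  induction t, hst using Nat.le_induction with
  | base =>
    have : (s : ℝ) ≠ 0 := by exact_mod_cast (by omega : s ≠ 0)
    simp [this]
  | succ t ht ih =>
    rw [Finset.sum_Ioc_succ_top (by omega)]
    have hs0 : (0 : ℝ) < s := by exact_mod_cast hs
    have ht0 : (0 : ℝ) < t := by exact_mod_cast (by omega : 0 < t)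
    have h1 := Real.one_sub_inv_le_log_of_pos (x := ((t : ℝ) + 1) / t) (by positivity)
    have h2 : 1 - (((t : ℝ) + 1) / t)⁻¹ = 1 / ((t + 1 : ℕ) : ℝ) := by
      push_cast
      field_simp
      ring
    rw [h2] at h1
    have h3 : Real.log (((t + 1 : ℕ) : ℝ) / s) =
        Real.log ((t : ℝ) / s) + Real.log (((t : ℝ) + 1) / t) := by
      rw [← Real.log_mul (by positivity) (by positivity)]
      congr 1
      push_cast
      field_simp
    rw [h3]
    linarith

/-- harmonic sums, lower bound -/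
lemma LATharm_ge (s t : ℕ) (hst : s ≤ t) :
    Real.log (((t : ℝ) + 1) / (s + 1)) ≤ ∑ k ∈ Ioc s t, 1 / (k : ℝ) := by
  induction t, hst using Nat.le_induction with
  | base =>
    have : ((s : ℝ) + 1) ≠ 0 := by positivity
    simp [this]
  | succ t ht ih =>
    rw [Finset.sum_Ioc_succ_top (by omega)]
    have h1 := Real.log_le_sub_one_of_pos (x := ((t : ℝ) + 1 + 1) / (t + 1)) (by positivity)
    have h2 : ((t : ℝ) + 1 + 1) / (t + 1) - 1 = 1 / ((t + 1 : ℕ) : ℝ) := by
      push_cast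
      field_simp
      ring
    rw [h2] at h1
    have h3 : Real.log ((((t + 1 : ℕ) : ℝ) + 1) / (s + 1)) =
        Real.log (((t : ℝ) + 1) / (s + 1)) + Real.log (((t : ℝ) + 1 + 1) / (t + 1)) := by
      rw [← Real.log_mul (by positivity) (by positivity)]
      congr 1
      push_cast
      field_simp
    rw [h3]
    linarith

/-- the harmonic sum and the logarithm -/
lemma LATharm (A B d : ℕ) (hd : 1 ≤ d) (hA : 2 * d ≤ A) (hAB : A ≤ B) :
    |(∑ k ∈ Ioc (A / d) (B / d), 1 / (k : ℝ)) - Real.log ((B : ℝ) / A)| ≤ 2 * d / A := by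
  have hd0 : (0 : ℝ) < d := by exact_mod_cast hd
  have hAd : (2 : ℝ) * d ≤ A := by exact_mod_cast hA
  have hA0 : (0 : ℝ) < A := by linarith
  have hABR : (A : ℝ) ≤ B := by exact_mod_cast hAB
  have hB0 : (0 : ℝ) < B := by linarith
  have hs : 2 ≤ A / d := (Nat.le_div_iff_mul_le hd).2 hA
  have hst : A / d ≤ B / d := Nat.div_le_div_right hAB
  have hle : ∀ M : ℕ, ((M / d : ℕ) : ℝ) ≤ (M : ℝ) / d := fun M => Nat.cast_div_le
  have hge : ∀ M : ℕ, (M : ℝ) / d ≤ ((M / d : ℕ) : ℝ) + 1 := by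
    intro M
    have := Nat.lt_floor_add_one ((M : ℝ) / d)
    rw [Nat.floor_div_natCast, Nat.floor_natCast] at this
    exact this.le
  have hs0 : (2 : ℝ) ≤ ((A / d : ℕ) : ℝ) := by exact_mod_cast hs
  have ht0 : ((A / d : ℕ) : ℝ) ≤ ((B / d : ℕ) : ℝ) := by exact_mod_cast hst
  have h1 := LATharm_le (A / d) (B / d) (le_trans (by norm_num) hs) hst
  have h2 := LATharm_ge (A / d) (B / d) hst
  rw [abs_le]
  constructor
  · -- lower bound
    have h3 : Real.log ((B : ℝ) / A) - Real.log (((A : ℝ) + d) / A) ≤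
        Real.log ((((B / d : ℕ) : ℝ) + 1) / (((A / d : ℕ) : ℝ) + 1)) := by
      rw [← Real.log_div (by positivity) (by positivity)]
      apply Real.log_le_log (by positivity)
      have h4 : (B : ℝ) / A / (((A : ℝ) + d) / A) = ((B : ℝ) / d) / ((A : ℝ) / d + 1) := by
        field_simp
      rw [h4]
      apply div_le_div₀ (by positivity) (hge B) (by positivity)
      linarith [hle A]
    have h5 : Real.log (((A : ℝ) + d) / A) ≤ d / A := by
      have := Real.log_le_sub_one_of_pos (x := ((A : ℝ) + d) / A) (by positivity)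
      have h6 : ((A : ℝ) + d) / A - 1 = d / A := by
        field_simp
        ring
      linarith
    have h7 : (d : ℝ) / A ≤ 2 * d / A := by
      apply div_le_div_of_nonneg_right _ hA0.le
      linarith
    linarith
  · have h3 : Real.log (((B / d : ℕ) : ℝ) / ((A / d : ℕ) : ℝ)) ≤
        Real.log ((B : ℝ) / A) + Real.log ((A : ℝ) / (A - d)) := by
      have hAd' : 0 < (A : ℝ) - d := by linarith
      rw [← Real.log_mul (by positivity) (by positivity)]
      apply Real.log_le_log (div_pos (by linarith) (by linarith))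
      have h4 : (B : ℝ) / A * ((A : ℝ) / (A - d)) = ((B : ℝ) / d) / ((A : ℝ) / d - 1) := by
        have : (A : ℝ) / d - 1 = (A - d) / d := by field_simp
        rw [this]
        field_simp
      rw [h4]
      apply div_le_div₀ (by positivity) (hle B)
      · have : (1 : ℝ) < (A : ℝ) / d := by
          rw [lt_div_iff₀ hd0]
          linarith
        linarith
      · linarith [hge A]
    have hAd' : 0 < (A : ℝ) - d := by linarith
    have h5 : Real.log ((A : ℝ) / (A - d)) ≤ 2 * d / A := by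
      have := Real.log_le_sub_one_of_pos (x := (A : ℝ) / (A - d)) (by positivity)
      have h6 : (A : ℝ) / (A - d) - 1 = d / (A - d) := by
        field_simp
        ring
      have h7 : (d : ℝ) / (A - d) ≤ 2 * d / A := by
        rw [div_le_div_iff₀ hAd' hA0]
        nlinarith
      linarith
    linarith

theorem lat_bound : ∀ᶠ N : ℕ in atTop, ∀ h d e A B : ℕ, 1 ≤ h → (h : ℝ) ≤ (N : ℝ) ^ (1 / 2 : ℝ) →
    1 ≤ d → 1 ≤ e → (d : ℝ) * e ≤ (N : ℝ) ^ (1 / 125 : ℝ) →
    (d : ℝ) * ((N : ℝ) ^ (1 / 2 - 1 / 250 : ℝ) + 1) ≤ A → A ≤ B →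
    (B : ℝ) ≤ (N : ℝ) ^ (1 / 2 + 1 / 250 : ℝ) →
    |(lat N h d e A B : ℝ) - (h : ℝ) / (d * e) * Real.log ((B : ℝ) / A)| ≤
      3 * (N : ℝ) ^ (47 / 100 : ℝ) := by
  have hev : ∀ᶠ x : ℝ in atTop, 2 * x ^ (1 / 250 : ℝ) + Real.log x ≤ x ^ (47 / 100 : ℝ) := by
    have h1 := (tendsto_rpow_atTop (show (0 : ℝ) < 47 / 100 - 1 / 250 by norm_num)).eventually_ge_atTop
      (4 : ℝ)
    have h2 := (isLittleO_log_rpow_atTop (show (0 : ℝ) < 47 / 100 by norm_num)).bound
      (show (0 : ℝ) < 1 / 2 by norm_num)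
    filter_upwards [h1, h2, eventually_ge_atTop (1 : ℝ)] with x hx1 hx2 hx
    have hx0 : 0 < x := by linarith
    rw [Real.norm_of_nonneg (Real.log_nonneg hx), Real.norm_of_nonneg (by positivity)] at hx2
    have h3 : x ^ (47 / 100 - 1 / 250 : ℝ) * x ^ (1 / 250 : ℝ) = x ^ (47 / 100 : ℝ) := by
      rw [← Real.rpow_add hx0]
      norm_num
    have h4 : 0 < x ^ (1 / 250 : ℝ) := Real.rpow_pos_of_pos hx0 _
    nlinarith
  filter_upwards [psi_sum, (tendsto_natCast_atTop_atTop (R := ℝ)).eventually hev,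
    eventually_ge_atTop 1] with N hpsi hN hN1
  intro h d e A B hh hhle hd he hde hA hAB hB
  have hNR : (1 : ℝ) ≤ N := by exact_mod_cast hN1
  have hN0 : (0 : ℝ) < N := by linarith
  have hd0 : (0 : ℝ) < d := by exact_mod_cast hd
  have hd1 : (1 : ℝ) ≤ d := by exact_mod_cast hd
  have he0 : (0 : ℝ) < e := by exact_mod_cast he
  have he1 : (1 : ℝ) ≤ e := by exact_mod_cast he
  have hh1 : (1 : ℝ) ≤ h := by exact_mod_cast hh
  have hlow1 : 1 ≤ (N : ℝ) ^ (1 / 2 - 1 / 250 : ℝ) := Real.one_le_rpow hNR (by norm_num)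
  have hA2 : 2 * d ≤ A := by
    have : (2 : ℝ) * d ≤ A := by nlinarith
    exact_mod_cast this
  have hA0 : (0 : ℝ) < A := by
    have : 0 < A := by omega
    exact_mod_cast this
  have hABR : (A : ℝ) ≤ B := by exact_mod_cast hAB
  set s := A / d with hs
  set t := B / d with ht
  have hs2 : 2 ≤ s := (Nat.le_div_iff_mul_le hd).2 hA2
  have hst : s ≤ t := Nat.div_le_div_right hAB
  -- the range for psi_sum
  have hsge : (N : ℝ) ^ (1 / 2 - 1 / 250 : ℝ) ≤ s := by
    have h1 : (A : ℝ) / d ≤ (s : ℝ) + 1 := by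
      have := Nat.lt_floor_add_one ((A : ℝ) / d)
      rw [Nat.floor_div_natCast, Nat.floor_natCast] at this
      exact this.le
    have h2 : (N : ℝ) ^ (1 / 2 - 1 / 250 : ℝ) + 1 ≤ (A : ℝ) / d := by
      rw [le_div_iff₀ hd0]
      linarith
    linarith
  have htle : (t : ℝ) ≤ (N : ℝ) ^ (1 / 2 + 1 / 250 : ℝ) := by
    have h1 : (t : ℝ) ≤ B := by exact_mod_cast Nat.div_le_self B d
    linarith
  have hde0 : (0 : ℝ) < d * e := by positivity
  have hde1 : (1 : ℝ) ≤ d * e := by nlinarith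
  have hw : ∀ M : ℕ, N ≤ M → (M : ℝ) ≤ 2 * N →
      |∑ a ∈ Ioc s t, (Int.fract (((M : ℝ) / (d * e)) / a) - 1 / 2)| ≤ (N : ℝ) ^ (47 / 100 : ℝ) := by
    intro M hM1 hM2
    apply hpsi ((M : ℝ) / (d * e)) _ _ s t hsge htle
    · rw [le_div_iff₀ hde0]
      have hMR : (N : ℝ) ≤ M := by exact_mod_cast hM1
      have h1 : (N : ℝ) ^ (1 - 1 / 125 : ℝ) * (N : ℝ) ^ (1 / 125 : ℝ) = N := by
        rw [← Real.rpow_add hN0]
        norm_num
      have h2 : (N : ℝ) ^ (1 - 1 / 125 : ℝ) * (d * e) ≤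
          (N : ℝ) ^ (1 - 1 / 125 : ℝ) * (N : ℝ) ^ (1 / 125 : ℝ) :=
        mul_le_mul_of_nonneg_left hde (by positivity)
      linarith
    · rw [div_le_iff₀ hde0]
      nlinarith
  have hsqrt : (N : ℝ) ^ (1 / 2 : ℝ) ≤ N := by
    calc (N : ℝ) ^ (1 / 2 : ℝ) ≤ (N : ℝ) ^ (1 : ℝ) :=
          Real.rpow_le_rpow_of_exponent_le hNR (by norm_num)
      _ = N := Real.rpow_one _
  have hM : ((N + h - 1 : ℕ) : ℝ) = (N : ℝ) + (h - 1) := by
    rw [Nat.add_sub_assoc hh, Nat.cast_add, Nat.cast_sub hh]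
    push_cast
    ring
  have hw2 := hw (N + h - 1) (by omega) (by rw [hM]; linarith)
  have hw1 := hw N (le_refl N) (by linarith)
  -- the formula
  have hlat : (lat N h d e A B : ℝ) = ((h : ℝ) - 1) / (d * e) * ∑ a ∈ Ioc s t, 1 / (a : ℝ)
      - ∑ a ∈ Ioc s t, (Int.fract ((((N + h - 1 : ℕ) : ℝ) / (d * e)) / a) - 1 / 2)
      + ∑ a ∈ Ioc s t, (Int.fract (((N : ℝ) / (d * e)) / a) - 1 / 2) := by
    unfold lat
    rw [LATset A B d hd, Finset.sum_image (fun a _ b _ hab => Nat.eq_of_mul_eq_mul_left hd hab)]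
    push_cast
    rw [Finset.mul_sum, ← Finset.sum_sub_distrib, ← Finset.sum_add_distrib]
    refine Finset.sum_congr rfl fun a ha => ?_
    rw [Finset.mem_Ioc] at ha
    have ha0 : (0 : ℝ) < a := by
      have : 0 < a := by omega
      exact_mod_cast this
    have h1 := LATcount N h (d * a * e) hh
    rw [h1]
    push_cast
    have h2 : ∀ x : ℝ, x / ((d : ℝ) * a * e) = x / (d * e) / a := by
      intro x
      field_simp
    rw [h2, h2, h2]
    ring
  have hharm := LATharm A B d hd hA2 hAB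
  rw [← hs, ← ht] at hharm
  set H := ∑ a ∈ Ioc s t, 1 / (a : ℝ) with hH
  have hH0 : 0 ≤ H := Finset.sum_nonneg (fun a _ => by positivity)
  have hHle : H ≤ Real.log N := by
    have h1 := LATharm_le s t (by omega) hst
    refine h1.trans ?_
    have hs0 : (1 : ℝ) ≤ s := by
      have : 1 ≤ s := by omega
      exact_mod_cast this
    have ht0 : (0 : ℝ) < t := by
      have : 0 < t := by omega
      exact_mod_cast this
    apply Real.log_le_log (by positivity)
    have h2 : (t : ℝ) / s ≤ t := div_le_self ht0.le hs0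
    have h3 : (N : ℝ) ^ (1 / 2 + 1 / 250 : ℝ) ≤ N := by
      calc (N : ℝ) ^ (1 / 2 + 1 / 250 : ℝ) ≤ (N : ℝ) ^ (1 : ℝ) :=
            Real.rpow_le_rpow_of_exponent_le hNR (by norm_num)
        _ = N := Real.rpow_one _
    linarith
  -- main term
  have hmain : |((h : ℝ) - 1) / (d * e) * H - (h : ℝ) / (d * e) * Real.log ((B : ℝ) / A)| ≤
      (N : ℝ) ^ (47 / 100 : ℝ) := by
    have h1 : ((h : ℝ) - 1) / (d * e) * H - (h : ℝ) / (d * e) * Real.log ((B : ℝ) / A) =
        (h : ℝ) / (d * e) * (H - Real.log ((B : ℝ) / A)) - H / (d * e) := by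
      field_simp
      ring
    rw [h1]
    have h2 : |(h : ℝ) / (d * e) * (H - Real.log ((B : ℝ) / A))| ≤ 2 * (N : ℝ) ^ (1 / 250 : ℝ) := by
      rw [abs_mul, abs_of_nonneg (by positivity)]
      calc (h : ℝ) / (d * e) * |H - Real.log ((B : ℝ) / A)| ≤ (h : ℝ) / (d * e) * (2 * d / A) :=
            mul_le_mul_of_nonneg_left hharm (by positivity)
        _ = 2 * ((h : ℝ) / A) / e := by
            field_simp
        _ ≤ 2 * ((h : ℝ) / A) := div_le_self (by positivity) he1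
        _ ≤ 2 * (N : ℝ) ^ (1 / 250 : ℝ) := by
            apply mul_le_mul_of_nonneg_left _ (by norm_num)
            rw [div_le_iff₀ hA0]
            have h3 : (N : ℝ) ^ (1 / 250 : ℝ) * (N : ℝ) ^ (1 / 2 - 1 / 250 : ℝ) =
                (N : ℝ) ^ (1 / 2 : ℝ) := by
              rw [← Real.rpow_add hN0]
              norm_num
            have h4 : (N : ℝ) ^ (1 / 2 - 1 / 250 : ℝ) ≤ A := by nlinarith
            calc (h : ℝ) ≤ (N : ℝ) ^ (1 / 2 : ℝ) := hhle
              _ = (N : ℝ) ^ (1 / 250 : ℝ) * (N : ℝ) ^ (1 / 2 - 1 / 250 : ℝ) := h3.symm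
              _ ≤ (N : ℝ) ^ (1 / 250 : ℝ) * A := mul_le_mul_of_nonneg_left h4 (by positivity)
    have h5 : |H / (d * e)| ≤ Real.log N := by
      rw [abs_of_nonneg (by positivity)]
      exact (div_le_self hH0 hde1).trans hHle
    calc |(h : ℝ) / (d * e) * (H - Real.log ((B : ℝ) / A)) - H / (d * e)|
        ≤ |(h : ℝ) / (d * e) * (H - Real.log ((B : ℝ) / A))| + |H / (d * e)| := abs_sub _ _
      _ ≤ (N : ℝ) ^ (47 / 100 : ℝ) := by linarith
  rw [hlat]
  rw [abs_le] at hw1 hw2 hmain ⊢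
  constructor <;> linarith [hw1.1, hw1.2, hw2.1, hw2.2, hmain.1, hmain.2]

end Pool.Agent.PSK
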