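import Pool.Agent.PSK.Gud

/-!
# PSK module MAS: the harmonic mass of the available factors

Let `N ≥ 1`, no prime in `JJ N`.  For `n ∈ GG N`, `n = m q`, `q > A2 N`, `q + 0 > 2 N^(1/2+δ) - 1`, so
`q ≥ A2 N + 1 > 2 N^(1/2+δ)` and `m < (N + h)/(2 N^(1/2+δ)) ≤ N^(1/2-δ)`, hence `m ≤ h = ⌊N^(1/2-δ)⌋`;
`m ≠ 1` because `n` is not prime; `m ∣ n` is rough.  For given `m ≤ h` at most `h/m + 1 ≤ 2h/m`
elements of `JJ N` are multiples of `m`.
-/

set_option autoImplicit false

namespace Pool.Agent.PSK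

open Finset Filter Pool.Agent.PSQ

theorem MAScard_mult (N h m : ℕ) (hm : 0 < m) :
    (((JH N h).filter (fun n => m ∣ n)).card : ℝ) ≤ (h : ℝ) / m + 1 := by
  have h1 : ((JH N h).filter (fun n => m ∣ n)).card ≤
      (Finset.Ioc (N / m) ((N + h) / m)).card := by
    apply Finset.card_le_card_of_injOn (fun n => n / m)
    · intro n hn
      have hn' := Finset.mem_filter.1 (Finset.mem_coe.1 hn)
      obtain ⟨hn1, hn2⟩ := hn'
      rw [mem_JH] at hn1
      obtain ⟨c, rfl⟩ := hn2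
      simp only [Finset.coe_Ioc, Set.mem_Ioc]
      rw [Nat.mul_div_cancel_left c hm]
      constructor
      · exact (Nat.div_lt_iff_lt_mul hm).2 (by rw [mul_comm]; exact hn1.1)
      · exact (Nat.le_div_iff_mul_le hm).2 (by rw [mul_comm]; exact hn1.2.le)
    · intro a ha b hb hab
      have ha' := (Finset.mem_filter.1 (Finset.mem_coe.1 ha)).2
      have hb' := (Finset.mem_filter.1 (Finset.mem_coe.1 hb)).2
      obtain ⟨c, rfl⟩ := ha'
      obtain ⟨c', rfl⟩ := hb'
      simp only [Nat.mul_div_cancel_left _ hm] at hab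
      rw [hab]
  rw [Nat.card_Ioc] at h1
  have h2 : ((((N + h) / m - N / m : ℕ)) : ℝ)
      = (((N + h) / m : ℕ) : ℝ) - ((N / m : ℕ) : ℝ) := by
    rw [Nat.cast_sub (Nat.div_le_div_right (Nat.le_add_right _ _))]
  have h3 : (((N + h) / m : ℕ) : ℝ) ≤ ((N + h : ℕ) : ℝ) / m := Nat.cast_div_le
  have h4 : (N : ℝ) / m ≤ ((N / m : ℕ) : ℝ) + 1 := by
    have := Nat.lt_floor_add_one ((N : ℝ) / m)
    rw [Nat.floor_div_natCast, Nat.floor_natCast] at this
    exact this.le
  have h5 : (((JH N h).filter (fun n => m ∣ n)).card : ℝ) ≤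
      ((((N + h) / m - N / m : ℕ)) : ℝ) := by exact_mod_cast h1
  push_cast at h3
  rw [add_div] at h3
  linarith

theorem mass_ge (N : ℕ) (hN : 1 ≤ N) (hno : ∀ q ∈ JJ N, ¬ q.Prime) :
    ((GG N).card : ℝ) ≤ 2 * hh N * ∑ m ∈ AA N, 1 / (m : ℝ) := by
  classical
  have hNR : (1 : ℝ) ≤ N := by exact_mod_cast hN
  have hN0 : (0 : ℝ) < N := by linarith
  have hdl : (0 : ℝ) < dl ∧ dl < 1 / 2 := by
    unfold dl
    constructor <;> norm_num
  have hhle : (hh N : ℝ) ≤ (N : ℝ) ^ (1 / 2 - dl) := Nat.floor_le (by positivity)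
  have hle1 : (N : ℝ) ^ (1 / 2 - dl) ≤ N := by
    calc (N : ℝ) ^ (1 / 2 - dl) ≤ (N : ℝ) ^ (1 : ℝ) :=
          Real.rpow_le_rpow_of_exponent_le hNR (by linarith [hdl.1])
      _ = N := Real.rpow_one _
  have hsub : GG N ⊆ (AA N).biUnion (fun m => (JJ N).filter (fun n => m ∣ n)) := by
    intro n hn
    rw [mem_GG] at hn
    obtain ⟨hJ, hR, q, hq, hqt, m, rfl⟩ := hn
    rw [Finset.mem_biUnion]
    have hJ' := hJ
    rw [JJ, mem_JH] at hJ'
    have hn0 : 0 < q * m := lt_of_le_of_lt (Nat.zero_le _) hJ'.1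
    have hm0 : 0 < m := by
      rcases Nat.eq_zero_or_pos m with h | h
      · subst h; simp at hn0
      · exact h
    have hqR : 2 * (N : ℝ) ^ (1 / 2 + dl) < q := by
      unfold A2 at hqt
      exact Nat.lt_of_floor_lt hqt
    have hmt : m < hh N + 1 := by
      rw [Nat.lt_succ_iff]
      apply Nat.le_floor
      by_contra hcon
      push Not at hcon
      have hpos1 : 0 < (N : ℝ) ^ (1 / 2 - dl) := Real.rpow_pos_of_pos hN0 _
      have hpos2 : 0 < (N : ℝ) ^ (1 / 2 + dl) := Real.rpow_pos_of_pos hN0 _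
      have h1 : (N : ℝ) ^ (1 / 2 + dl) * (N : ℝ) ^ (1 / 2 - dl) = N := by
        rw [← Real.rpow_add hN0]
        have : (1 / 2 + dl + (1 / 2 - dl)) = 1 := by ring
        rw [this, Real.rpow_one]
      have h2 : (q : ℝ) * m < N + hh N := by
        exact_mod_cast hJ'.2
      have h3 : 2 * (N : ℝ) ^ (1 / 2 + dl) * (N : ℝ) ^ (1 / 2 - dl) < (q : ℝ) * m :=
        mul_lt_mul'' hqR hcon (by positivity) hpos1.le
      nlinarith
    have hm1 : 1 < m := by
      rcases Nat.lt_or_ge 1 m with h | h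
      · exact h
      · exfalso
        have : m = 1 := le_antisymm h hm0
        subst this
        exact hno _ hJ (by simpa using hq)
    refine ⟨m, ?_, ?_⟩
    · rw [mem_AA]
      refine ⟨hmt, hm1, ?_, q, hq, hqt, ?_⟩
      · intro p hp hpm
        exact hR p hp (hpm.mul_left q)
      · rw [mul_comm]; exact hJ
    · rw [Finset.mem_filter]
      exact ⟨hJ, dvd_mul_left m q⟩
  have h1 : ((GG N).card : ℝ) ≤ ∑ m ∈ AA N, (((JJ N).filter (fun n => m ∣ n)).card : ℝ) := by
    have := (Finset.card_le_card hsub).trans Finset.card_biUnion_le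
    exact_mod_cast this
  refine h1.trans ?_
  rw [Finset.mul_sum]
  apply Finset.sum_le_sum
  intro m hm
  rw [mem_AA] at hm
  obtain ⟨hmt, hm1, -, -⟩ := hm
  have hm0 : 0 < m := by omega
  have h2 := MAScard_mult N (hh N) m hm0
  have hmR : (0 : ℝ) < m := by exact_mod_cast hm0
  refine h2.trans ?_
  have h3 : (m : ℝ) ≤ hh N := by
    have : m ≤ hh N := by omega
    exact_mod_cast this
  have h4 : (1 : ℝ) ≤ hh N / m := by
    rw [le_div_iff₀ hmR]; linarith
  calc (hh N : ℝ) / m + 1 ≤ hh N / m + hh N / m := by linarith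
    _ = 2 * hh N * (1 / m) := by ring

end Pool.Agent.PSK
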