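import Pool.Agent.Helper4.ST.Selberg

/-!
# PSK module PHI: `∑_{u < k ≤ v} μ²(k)/φ(k) ≤ 3 (log (v/u) + 1)`

For squarefree `k`: `k/φ(k) = ∏_{p ∣ k} (1 + 1/(p-1)) = ∑_{d ∣ k} 1/φ(d)`.  Hence the sum is at most
`∑_{d ≤ v, squarefree} 1/(d φ(d)) ∑_{⌊u/d⌋ < k' ≤ ⌊v/d⌋} 1/k'`.  The inner sum is
`≤ log (⌊v/d⌋/⌊u/d⌋) ≤ log (2 v/u)` if `d ≤ u` (`⌊u/d⌋ ≥ (u/d)/2`), and
`≤ 1 + log (v/d) ≤ 1 + log (v/u)` if `d > u`; so it is `≤ log (v/u) + 1`.
`∑_{d ≤ v, squarefree} 1/(d φ(d)) ≤ ∏_{p ≤ v} (1 + 1/(p(p-1))) ≤ exp (∑_{n ≥ 2} 1/(n(n-1))) ≤ e ≤ 3`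
(map `d ↦ d.primeFactors`, expand the product over subsets).
`L_upper`: `u = 1`: `L R ≤ 1 + 3 (log R + 1)`.
-/

set_option autoImplicit false

namespace Pool.Agent.PSK

open Finset
open Pool.Agent.Helper4.ST
open scoped ArithmeticFunction.Moebius

/-- a part of the harmonic series -/
lemma PHIharm (s t : ℕ) (hs : 1 ≤ s) (hst : s ≤ t) :
    ∑ k ∈ Ioc s t, 1 / (k : ℝ) ≤ Real.log ((t : ℝ) / s) := by
  induction t, hst using Nat.le_induction with
  | base =>
    have : (s : ℝ) ≠ 0 := by exact_mod_cast (by omega : s ≠ 0)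
    simp [this]
  | succ t ht ih =>
    rw [Finset.sum_Ioc_succ_top (by omega)]
    have hs0 : (0 : ℝ) < s := by exact_mod_cast hs
    have ht0 : (0 : ℝ) < t := by exact_mod_cast (by omega : 0 < t)
    have h1 := Real.one_sub_inv_le_log_of_pos (x := ((t : ℝ) + 1) / t) (by positivity)
    have h2 : 1 - (((t : ℝ) + 1) / t)⁻¹ = 1 / ((t + 1 : ℕ) : ℝ) := by
      push_cast
      field_simp
      ring
    rw [h2] at h1
    have h3 : Real.log (((t + 1 : ℕ) : ℝ) / s) =
        Real.log ((t : ℝ) / s) + Real.log (((t : ℝ) + 1) / t) := by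
      rw [← Real.log_mul (by positivity) (by positivity)]
      congr 1
      push_cast
      field_simp
    rw [h3]
    linarith

/-- the sum over the multiples of `d` -/
lemma PHIinner (u v d : ℕ) (hu : 1 ≤ u) (huv : u ≤ v) (hd : 1 ≤ d) :
    ∑ k ∈ (Ioc u v).filter (fun k => d ∣ k), 1 / (k : ℝ) ≤
      (1 / (d : ℝ)) * (Real.log ((v : ℝ) / u) + 1) := by
  have hd0 : (0 : ℝ) < d := by exact_mod_cast hd
  have hu0 : (0 : ℝ) < u := by exact_mod_cast hu
  have hv0 : (0 : ℝ) < v := by exact_mod_cast (by omega : 0 < v)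
  have hset : (Ioc u v).filter (fun k => d ∣ k) = (Ioc (u / d) (v / d)).image (fun k => d * k) := by
    ext k
    rw [Finset.mem_filter, Finset.mem_image, Finset.mem_Ioc]
    constructor
    · rintro ⟨⟨h1, h2⟩, c, rfl⟩
      refine ⟨c, ?_, rfl⟩
      rw [Finset.mem_Ioc]
      exact ⟨(Nat.div_lt_iff_lt_mul hd).2 (by rw [mul_comm]; exact h1),
        (Nat.le_div_iff_mul_le hd).2 (by rw [mul_comm]; exact h2)⟩
    · rintro ⟨c, hc, rfl⟩
      rw [Finset.mem_Ioc] at hc
      refine ⟨⟨?_, ?_⟩, dvd_mul_right d c⟩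
      · have := (Nat.div_lt_iff_lt_mul hd).1 hc.1
        rwa [mul_comm] at this
      · have := (Nat.le_div_iff_mul_le hd).1 hc.2
        rwa [mul_comm] at this
  rw [hset, Finset.sum_image (fun a _ b _ hab => Nat.eq_of_mul_eq_mul_left hd hab)]
  have h1 : ∑ c ∈ Ioc (u / d) (v / d), 1 / ((d * c : ℕ) : ℝ) =
      (1 / (d : ℝ)) * ∑ c ∈ Ioc (u / d) (v / d), 1 / (c : ℝ) := by
    rw [Finset.mul_sum]
    refine Finset.sum_congr rfl fun c _ => ?_
    push_cast
    rw [div_mul_div_comm, one_mul]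
  rw [h1]
  apply mul_le_mul_of_nonneg_left _ (by positivity)
  have hlog : 0 ≤ Real.log ((v : ℝ) / u) := by
    apply Real.log_nonneg
    rw [le_div_iff₀ hu0, one_mul]
    exact_mod_cast huv
  rcases Nat.lt_or_ge (u / d) (v / d) with h2 | h2
  · have h3 : ∑ c ∈ Ioc (u / d) (v / d), 1 / (c : ℝ) =
        1 / ((u / d + 1 : ℕ) : ℝ) + ∑ c ∈ Ioc (u / d + 1) (v / d), 1 / (c : ℝ) := by
      rw [← Finset.sum_Ioc_consecutive _ (Nat.le_succ (u / d)) h2]
      congr 1
      rw [Nat.succ_eq_add_one, Finset.sum_Ioc_succ_top (le_refl _), Finset.Ioc_self,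
        Finset.sum_empty, zero_add]
    rw [h3]
    have h4 := PHIharm (u / d + 1) (v / d) (Nat.le_add_left 1 _) h2
    have h5 : 1 / ((u / d + 1 : ℕ) : ℝ) ≤ 1 := by
      rw [div_le_one (by positivity)]
      exact_mod_cast Nat.le_add_left 1 (u / d)
    have h6 : Real.log (((v / d : ℕ) : ℝ) / ((u / d + 1 : ℕ) : ℝ)) ≤ Real.log ((v : ℝ) / u) := by
      apply Real.log_le_log
      · have : 0 < v / d := lt_of_le_of_lt (Nat.zero_le _) h2
        have h7 : (0 : ℝ) < ((v / d : ℕ) : ℝ) := by exact_mod_cast this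
        positivity
      · have h7 : ((v / d : ℕ) : ℝ) ≤ (v : ℝ) / d := Nat.cast_div_le
        have h8 : (u : ℝ) / d ≤ ((u / d + 1 : ℕ) : ℝ) := by
          have := Nat.lt_floor_add_one ((u : ℝ) / d)
          rw [Nat.floor_div_natCast, Nat.floor_natCast] at this
          push_cast
          exact this.le
        calc ((v / d : ℕ) : ℝ) / ((u / d + 1 : ℕ) : ℝ) ≤ ((v : ℝ) / d) / ((u : ℝ) / d) :=
              div_le_div₀ (by positivity) h7 (by positivity) h8
          _ = (v : ℝ) / u := by field_simp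
    linarith
  · rw [Finset.Ioc_eq_empty (by omega), Finset.sum_empty]
    linarith

/-- a telescoping sum -/
lemma PHItele (v : ℕ) (hv : 1 ≤ v) :
    ∑ n ∈ Icc 2 v, 1 / ((n : ℝ) * (n - 1)) = 1 - 1 / (v : ℝ) := by
  induction v, hv using Nat.le_induction with
  | base => simp
  | succ v hv ih =>
    rw [Finset.sum_Icc_succ_top (by omega), ih]
    have hv0 : (0 : ℝ) < v := by exact_mod_cast hv
    push_cast
    rw [show (v : ℝ) + 1 - 1 = v by ring]
    field_simp
    ring

/-- the product over the primes -/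
lemma PHIprod (v : ℕ) (hv : 1 ≤ v) :
    ∏ p ∈ (Icc 1 v).filter Nat.Prime, (1 + 1 / ((p : ℝ) * (p - 1))) ≤ 3 := by
  have hnn : ∀ n : ℕ, 2 ≤ n → 0 ≤ 1 / ((n : ℝ) * (n - 1)) := by
    intro n hn
    have : (2 : ℝ) ≤ n := by exact_mod_cast hn
    have h1 : 0 ≤ (n : ℝ) * (n - 1) := mul_nonneg (by linarith) (by linarith)
    positivity
  have h1 : ∏ p ∈ (Icc 1 v).filter Nat.Prime, (1 + 1 / ((p : ℝ) * (p - 1))) ≤
      ∏ p ∈ (Icc 1 v).filter Nat.Prime, Real.exp (1 / ((p : ℝ) * (p - 1))) := by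
    apply Finset.prod_le_prod
    · intro p hp
      have := hnn p (Finset.mem_filter.1 hp).2.two_le
      linarith
    · intro p _
      have := Real.add_one_le_exp (1 / ((p : ℝ) * (p - 1)))
      linarith
  rw [← Real.exp_sum] at h1
  have h2 : ∑ p ∈ (Icc 1 v).filter Nat.Prime, 1 / ((p : ℝ) * (p - 1)) ≤ 1 := by
    calc ∑ p ∈ (Icc 1 v).filter Nat.Prime, 1 / ((p : ℝ) * (p - 1))
        ≤ ∑ n ∈ Icc 2 v, 1 / ((n : ℝ) * (n - 1)) := by
          apply Finset.sum_le_sum_of_subset_of_nonneg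
          · intro p hp
            rw [Finset.mem_filter, Finset.mem_Icc] at hp
            rw [Finset.mem_Icc]
            exact ⟨hp.2.two_le, hp.1.2⟩
          · intro n hn _
            exact hnn n (Finset.mem_Icc.1 hn).1
      _ = 1 - 1 / (v : ℝ) := PHItele v hv
      _ ≤ 1 := by
          have : (0 : ℝ) ≤ 1 / (v : ℝ) := by positivity
          linarith
  calc _ ≤ Real.exp (∑ p ∈ (Icc 1 v).filter Nat.Prime, 1 / ((p : ℝ) * (p - 1))) := h1
    _ ≤ Real.exp 1 := Real.exp_le_exp.2 h2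
    _ ≤ 3 := by
        have := Real.exp_one_lt_d9
        linarith

/-- `1/φ(k)` for squarefree `k` -/
lemma PHItot {k : ℕ} (hk : Squarefree k) :
    1 / (Nat.totient k : ℝ) = (1 / (k : ℝ)) *
      ∑ S ∈ k.primeFactors.powerset, ∏ p ∈ S, 1 / ((p : ℝ) - 1) := by
  have hprod : ∏ p ∈ k.primeFactors, p = k := Nat.prod_primeFactors_of_squarefree hk
  have hk0 : 0 < k := Nat.pos_of_ne_zero hk.ne_zero
  have h1 := Nat.totient_mul_prod_primeFactors k
  rw [hprod, mul_comm] at h1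
  have h2 : Nat.totient k = ∏ p ∈ k.primeFactors, (p - 1) := Nat.eq_of_mul_eq_mul_left hk0 h1
  rw [← Finset.prod_one_add]
  have h3 : (k : ℝ) = ∏ p ∈ k.primeFactors, (p : ℝ) := by
    conv_lhs => rw [← hprod]
    push_cast
    rfl
  have h4 : (Nat.totient k : ℝ) = ∏ p ∈ k.primeFactors, ((p : ℝ) - 1) := by
    rw [h2]
    push_cast
    refine Finset.prod_congr rfl fun p hp => ?_
    rw [Nat.cast_sub (Nat.prime_of_mem_primeFactors hp).one_le]
    push_cast
    rfl
  rw [h4]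
  conv_rhs => rw [h3]
  rw [one_div, one_div, ← Finset.prod_inv_distrib, ← Finset.prod_inv_distrib, ← Finset.prod_mul_distrib]
  refine Finset.prod_congr rfl fun p hp => ?_
  have hp1 : (1 : ℝ) < p := by exact_mod_cast (Nat.prime_of_mem_primeFactors hp).one_lt
  have hp2 : (p : ℝ) - 1 ≠ 0 := by linarith
  field_simp
  ring

theorem phi_sum (u v : ℕ) (hu : 1 ≤ u) (huv : u ≤ v) :
    ∑ k ∈ Ioc u v, ((μ k : ℤ) : ℝ) ^ 2 / (Nat.totient k : ℝ) ≤
      3 * (Real.log ((v : ℝ) / u) + 1) := by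
  classical
  set P : Finset ℕ := (Icc 1 v).filter Nat.Prime with hP
  set w : Finset ℕ → ℝ := fun S => ∏ p ∈ S, 1 / ((p : ℝ) - 1) with hw
  have hPprime : ∀ p ∈ P, p.Prime := fun p hp => (Finset.mem_filter.1 hp).2
  have hwnn : ∀ S ∈ P.powerset, 0 ≤ w S := by
    intro S hS
    rw [hw]
    apply Finset.prod_nonneg
    intro p hp
    have hp1 : (1 : ℝ) < p := by
      exact_mod_cast (hPprime p (Finset.mem_powerset.1 hS hp)).one_lt
    have : 0 < (p : ℝ) - 1 := by linarith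
    positivity
  have hu0 : (0 : ℝ) < u := by exact_mod_cast hu
  have hlog : 0 ≤ Real.log ((v : ℝ) / u) := by
    apply Real.log_nonneg
    rw [le_div_iff₀ hu0, one_mul]
    exact_mod_cast huv
  -- termwise
  have hterm : ∀ k ∈ Ioc u v, ((μ k : ℤ) : ℝ) ^ 2 / (Nat.totient k : ℝ) ≤
      ∑ S ∈ P.powerset, w S * (if (∏ p ∈ S, p) ∣ k then 1 / (k : ℝ) else 0) := by
    intro k hk
    rw [Finset.mem_Ioc] at hk
    by_cases hsq : Squarefree k
    · have h1 : ((μ k : ℤ) : ℝ) ^ 2 = 1 := by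
        have := ArithmeticFunction.abs_moebius_eq_one_of_squarefree hsq
        have h2 : (μ k) ^ 2 = 1 := by
          rw [← sq_abs, this, one_pow]
        exact_mod_cast h2
      rw [h1, PHItot hsq, Finset.mul_sum]
      have hsub : k.primeFactors.powerset ⊆ P.powerset := by
        apply Finset.powerset_mono.2
        intro p hp
        rw [hP, Finset.mem_filter, Finset.mem_Icc]
        have hpp := Nat.prime_of_mem_primeFactors hp
        have := Nat.le_of_dvd (by omega) (Nat.dvd_of_mem_primeFactors hp)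
        exact ⟨⟨hpp.one_le, by omega⟩, hpp⟩
      refine le_trans ?_ (Finset.sum_le_sum_of_subset_of_nonneg hsub ?_)
      · apply Finset.sum_le_sum
        intro S hS
        rw [Finset.mem_powerset] at hS
        have hdvd : (∏ p ∈ S, p) ∣ k := by
          conv_rhs => rw [← Nat.prod_primeFactors_of_squarefree hsq]
          exact Finset.prod_dvd_prod_of_subset _ _ _ hS
        rw [if_pos hdvd, mul_comm]
      · intro S hS _
        apply mul_nonneg (hwnn S hS)
        split_ifs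
        · positivity
        · exact le_refl _
    · have h1 : μ k = 0 := ArithmeticFunction.moebius_eq_zero_of_not_squarefree hsq
      rw [h1]
      simp only [Int.cast_zero, ne_eq, OfNat.ofNat_ne_zero, not_false_eq_true, zero_pow, zero_div]
      apply Finset.sum_nonneg
      intro S hS
      apply mul_nonneg (hwnn S hS)
      split_ifs
      · positivity
      · exact le_refl _
  calc ∑ k ∈ Ioc u v, ((μ k : ℤ) : ℝ) ^ 2 / (Nat.totient k : ℝ)
      ≤ ∑ k ∈ Ioc u v, ∑ S ∈ P.powerset, w S * (if (∏ p ∈ S, p) ∣ k then 1 / (k : ℝ) else 0) :=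
        Finset.sum_le_sum hterm
    _ = ∑ S ∈ P.powerset, w S * ∑ k ∈ (Ioc u v).filter (fun k => (∏ p ∈ S, p) ∣ k), 1 / (k : ℝ) := by
        rw [Finset.sum_comm]
        refine Finset.sum_congr rfl fun S _ => ?_
        rw [Finset.sum_filter, Finset.mul_sum]
    _ ≤ ∑ S ∈ P.powerset, w S * ((1 / ((∏ p ∈ S, p : ℕ) : ℝ)) * (Real.log ((v : ℝ) / u) + 1)) := by
        apply Finset.sum_le_sum
        intro S hS
        apply mul_le_mul_of_nonneg_left _ (hwnn S hS)
        apply PHIinner u v _ hu huv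
        apply Finset.one_le_prod'
        intro p hp
        exact (hPprime p (Finset.mem_powerset.1 hS hp)).one_le
    _ = (Real.log ((v : ℝ) / u) + 1) * ∏ p ∈ P, (1 + 1 / ((p : ℝ) * (p - 1))) := by
        rw [Finset.prod_one_add, Finset.mul_sum]
        refine Finset.sum_congr rfl fun S hS => ?_
        have h1 : w S * (1 / ((∏ p ∈ S, p : ℕ) : ℝ)) = ∏ p ∈ S, 1 / ((p : ℝ) * (p - 1)) := by
          rw [hw]
          push_cast
          rw [one_div, ← Finset.prod_inv_distrib, ← Finset.prod_mul_distrib]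
          refine Finset.prod_congr rfl fun p hp => ?_
          rw [one_div, one_div, mul_inv, mul_comm]
        rw [← h1]
        ring
    _ ≤ (Real.log ((v : ℝ) / u) + 1) * 3 :=
        mul_le_mul_of_nonneg_left (PHIprod v (by omega)) (by linarith)
    _ = 3 * (Real.log ((v : ℝ) / u) + 1) := by ring

theorem L_upper (R : ℕ) (hR : 1 ≤ R) : Selberg.L R ≤ 4 + 3 * Real.log R := by
  have h1 := phi_sum 1 R (le_refl 1) hR
  unfold Selberg.L
  rw [← Finset.Ioc_insert_left hR, Finset.sum_insert (by simp)]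
  simp only [ArithmeticFunction.moebius_apply_one, Int.cast_one, one_pow, Nat.totient_one,
    Nat.cast_one, div_one] at h1 ⊢
  linarith

end Pool.Agent.PSK
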