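import Pool.Agent.Helper4.ST.Selberg

/-!
# PSK module QP: Selberg's form on the multiples of a prime

`y_k = μ(k)/(φ(k) L)`, `∑_{e ≤ R, k ∣ e} λ_e/e = y_k` (`Selberg.sum_lam_div`), `λ_e = 0` unless `e` is
squarefree.  Write `a = p^i a'`, `i ∈ {0,1}`, `p ∤ a'`:
`∑_{a,b} λ_a λ_b / lcm(p,a,b) = (1/p) ∑_{a',b'} (λ_{a'} + λ_{pa'})(λ_{b'} + λ_{pb'}) / lcm(a',b')`
`= (1/p) ∑_{k ≤ R, p ∤ k} φ(k) (∑_{a', k ∣ a'} (λ_{a'} + λ_{pa'})/a')²` (`Selberg.gcd_sum`), and the inner
sum is `(y_k - y_{pk}) + p y_{pk} = y_k + (p-1) y_{pk}` (`y_{pk} := 0` if `pk > R`), which is `0` if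
`p k ≤ R` (`y_{pk} = - y_k/(p-1)`) and `y_k` if `p k > R`.  So for `p ≤ R` the form is
`(1/p) ∑_{R/p < k ≤ R, p ∤ k} φ(k) y_k² ≤ (1/(p L²)) ∑_{R/p < k ≤ R} μ²(k)/φ(k)`.
For `p > R`: `lcm(p, lcm(a,b)) = p lcm(a,b)`, `Selberg.form_eq`.
-/

set_option autoImplicit false

namespace Pool.Agent.PSK

open Finset
open Pool.Agent.Helper4.ST
open scoped ArithmeticFunction.Moebius

/-- `∑ λ_a λ_b / lcm(p, a, b)` -/
noncomputable def QQ (R p : ℕ) : ℝ := ∑ a ∈ Icc 1 R, ∑ b ∈ Icc 1 R,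
  Selberg.lam R a * Selberg.lam R b / (Nat.lcm p (Nat.lcm a b) : ℝ)

private lemma lam_nsq {R e : ℕ} (he : ¬ Squarefree e) : Selberg.lam R e = 0 := by
  unfold Selberg.lam
  rw [Finset.sum_eq_zero, mul_zero]
  intro k hk
  have hk1 := (mem_filter.1 hk).2
  have : ¬ Squarefree k := fun h => he (h.squarefree_of_dvd hk1)
  unfold Selberg.yv
  rw [ArithmeticFunction.moebius_eq_zero_of_not_squarefree this]
  simp

private lemma lam_large {R e : ℕ} (he : R < e) : Selberg.lam R e = 0 := by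
  unfold Selberg.lam
  rw [Finset.sum_eq_zero, mul_zero]
  intro k hk
  have hk1 := mem_filter.1 hk
  have hk2 := mem_Icc.1 hk1.1
  have := Nat.le_of_dvd (by omega) hk1.2
  omega

private lemma mult_image (R e : ℕ) (he : 1 ≤ e) :
    (Icc 1 R).filter (fun k => e ∣ k) = (Icc 1 (R / e)).image (fun k => e * k) := by
  ext k
  simp only [mem_filter, mem_Icc, mem_image]
  constructor
  · rintro ⟨⟨h1, h2⟩, ⟨t, rfl⟩⟩
    refine ⟨t, ⟨?_, ?_⟩, rfl⟩
    · rcases Nat.eq_zero_or_pos t with rfl | h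
      · omega
      · exact h
    · rw [Nat.le_div_iff_mul_le he, mul_comm]
      exact h2
  · rintro ⟨t, ⟨h1, h2⟩, rfl⟩
    rw [Nat.le_div_iff_mul_le he, mul_comm] at h2
    exact ⟨⟨Nat.mul_pos he h1, h2⟩, dvd_mul_right e t⟩

private lemma split {R p : ℕ} (hp : p.Prime) (g : ℕ → ℝ) :
    ∑ a ∈ Icc 1 R, Selberg.lam R a * g a =
      ∑ a ∈ (Icc 1 R).filter (fun a => ¬ p ∣ a),
        (Selberg.lam R a * g a + Selberg.lam R (p * a) * g (p * a)) := by
  have hinj : Set.InjOn (fun k => p * k) (Icc 1 (R / p) : Finset ℕ) := by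
    intro a _ b _ hab
    exact Nat.eq_of_mul_eq_mul_left hp.pos hab
  rw [← Finset.sum_filter_add_sum_filter_not (Icc 1 R) (fun a => p ∣ a), add_comm,
    Finset.sum_add_distrib, mult_image R p hp.pos, Finset.sum_image hinj]
  congr 1
  have h1 : ∑ a ∈ Icc 1 (R / p), Selberg.lam R (p * a) * g (p * a) =
      ∑ a ∈ (Icc 1 (R / p)).filter (fun a => ¬ p ∣ a), Selberg.lam R (p * a) * g (p * a) := by
    refine (Finset.sum_filter_of_ne (s := Icc 1 (R / p)) (p := fun a => ¬ p ∣ a)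
      (f := fun a => Selberg.lam R (p * a) * g (p * a)) fun a _ hne => ?_).symm
    intro hpa
    apply hne
    have : ¬ Squarefree (p * a) := by
      intro hsq
      have h2 : p * p ∣ p * a := Nat.mul_dvd_mul_left p hpa
      exact hp.one_lt.ne' (Nat.isUnit_iff.1 (hsq p h2))
    rw [lam_nsq this, zero_mul]
  rw [h1]
  refine Finset.sum_subset ?_ ?_
  · intro a ha
    obtain ⟨h2, h3⟩ := mem_filter.1 ha
    rw [mem_Icc] at h2
    refine mem_filter.2 ⟨mem_Icc.2 ⟨h2.1, h2.2.trans (Nat.div_le_self R p)⟩, h3⟩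
  · intro a ha hna
    obtain ⟨h2, h3⟩ := mem_filter.1 ha
    rw [mem_Icc] at h2
    have h4 : R / p < a := by
      by_contra hcon
      exact hna (mem_filter.2 ⟨mem_Icc.2 ⟨h2.1, not_lt.1 hcon⟩, h3⟩)
    rw [Nat.div_lt_iff_lt_mul hp.pos, mul_comm] at h4
    rw [lam_large h4, zero_mul]

private lemma lcm_shift {p a b : ℕ} (hp : p.Prime) (hb : ¬ p ∣ b) :
    Nat.lcm p (Nat.lcm a (p * b)) = Nat.lcm p (Nat.lcm a b) := by
  have hc : Nat.Coprime p b := (Nat.Prime.coprime_iff_not_dvd hp).2 hb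
  have key : ∀ n, Nat.lcm p (Nat.lcm a (p * b)) ∣ n ↔ Nat.lcm p (Nat.lcm a b) ∣ n := by
    intro n
    rw [Nat.lcm_dvd_iff, Nat.lcm_dvd_iff, Nat.lcm_dvd_iff, Nat.lcm_dvd_iff]
    constructor
    · rintro ⟨h1, h2, h3⟩
      exact ⟨h1, h2, (dvd_mul_left b p).trans h3⟩
    · rintro ⟨h1, h2, h3⟩
      exact ⟨h1, h2, hc.mul_dvd_of_dvd_of_dvd h1 h3⟩
  exact Nat.dvd_antisymm ((key _).2 dvd_rfl) ((key _).1 dvd_rfl)

private lemma lcm_coprime {p a b : ℕ} (hp : p.Prime) (ha : ¬ p ∣ a) (hb : ¬ p ∣ b) :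
    Nat.lcm p (Nat.lcm a b) = p * Nat.lcm a b := by
  refine Nat.Coprime.lcm_eq_mul ((Nat.Prime.coprime_iff_not_dvd hp).2 fun h => ?_)
  rcases (Nat.Prime.dvd_mul hp).1 (h.trans (Nat.lcm_dvd_mul a b)) with h1 | h1
  · exact ha h1
  · exact hb h1

theorem QQ_one {R : ℕ} (hR : 1 ≤ R) : QQ R 1 = (Selberg.L R)⁻¹ := by
  rw [← Selberg.form_eq hR]
  unfold QQ
  refine Finset.sum_congr rfl fun a _ => Finset.sum_congr rfl fun b _ => ?_
  rw [Nat.lcm_one_left]

private noncomputable def ww (R p k : ℕ) : ℝ :=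
  ∑ a ∈ (Icc 1 R).filter (fun a => ¬ p ∣ a),
    if k ∣ a then (Selberg.lam R a + Selberg.lam R (p * a)) / a else 0

private lemma QQ_eq {R p : ℕ} (hp : p.Prime) :
    QQ R p = (1 / (p : ℝ)) * ∑ k ∈ Icc 1 R, (Nat.totient k : ℝ) * ww R p k ^ 2 := by
  set A := (Icc 1 R).filter (fun a => ¬ p ∣ a) with hA
  set u : ℕ → ℝ := fun a => Selberg.lam R a + Selberg.lam R (p * a) with hu
  have h1 : QQ R p = ∑ a ∈ A, ∑ b ∈ A, u a * u b / ((Nat.lcm p (Nat.lcm a b) : ℕ) : ℝ) := by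
    unfold QQ
    have e1 : ∀ a ∈ Icc 1 R, ∑ b ∈ Icc 1 R,
        Selberg.lam R a * Selberg.lam R b / ((Nat.lcm p (Nat.lcm a b) : ℕ) : ℝ) =
        Selberg.lam R a * ∑ b ∈ A, u b / ((Nat.lcm p (Nat.lcm a b) : ℕ) : ℝ) := by
      intro a _
      have e2 := split (R := R) hp (fun b => 1 / ((Nat.lcm p (Nat.lcm a b) : ℕ) : ℝ))
      have e3 : ∑ b ∈ Icc 1 R,
          Selberg.lam R a * Selberg.lam R b / ((Nat.lcm p (Nat.lcm a b) : ℕ) : ℝ) =
          Selberg.lam R a * ∑ b ∈ Icc 1 R, Selberg.lam R b *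
            (1 / ((Nat.lcm p (Nat.lcm a b) : ℕ) : ℝ)) := by
        rw [Finset.mul_sum]
        exact Finset.sum_congr rfl fun b _ => by ring
      rw [e3, e2]
      congr 1
      refine Finset.sum_congr rfl fun b hb => ?_
      rw [lcm_shift hp (mem_filter.1 hb).2]
      simp only [u]
      ring
    rw [Finset.sum_congr rfl e1, split (R := R) hp
      (fun a => ∑ b ∈ A, u b / ((Nat.lcm p (Nat.lcm a b) : ℕ) : ℝ))]
    refine Finset.sum_congr rfl fun a ha => ?_
    have e4 : ∀ b, Nat.lcm p (Nat.lcm (p * a) b) = Nat.lcm p (Nat.lcm a b) := by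
      intro b
      rw [Nat.lcm_comm (p * a) b, lcm_shift hp (mem_filter.1 ha).2, Nat.lcm_comm b a]
    simp only [e4]
    rw [← add_mul, Finset.mul_sum]
    refine Finset.sum_congr rfl fun b _ => ?_
    simp only [u]
    ring
  have h2 : ∀ a ∈ A, ∀ b ∈ A, u a * u b / ((Nat.lcm p (Nat.lcm a b) : ℕ) : ℝ) =
      ∑ k ∈ Icc 1 R, (1 / (p : ℝ)) * ((Nat.totient k : ℝ) * ((if k ∣ a then u a / a else 0) *
        (if k ∣ b then u b / b else 0))) := by
    intro a ha b hb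
    obtain ⟨ha1, ha2⟩ := mem_filter.1 ha
    obtain ⟨hb1, hb2⟩ := mem_filter.1 hb
    have ha0 : (a : ℝ) ≠ 0 := by
      have : a ≠ 0 := by have := (Finset.mem_Icc.1 ha1).1; omega
      exact_mod_cast this
    have hb0 : (b : ℝ) ≠ 0 := by
      have : b ≠ 0 := by have := (Finset.mem_Icc.1 hb1).1; omega
      exact_mod_cast this
    have hg : (Nat.gcd a b : ℝ) * (Nat.lcm a b : ℝ) = a * b := by exact_mod_cast Nat.gcd_mul_lcm a b
    have hl0 : (Nat.lcm a b : ℝ) ≠ 0 := by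
      intro h
      rw [h, mul_zero] at hg
      exact (mul_ne_zero ha0 hb0) hg.symm
    have hg0 : (Nat.gcd a b : ℝ) ≠ 0 := by
      intro h
      rw [h, zero_mul] at hg
      exact (mul_ne_zero ha0 hb0) hg.symm
    have hp0 : (p : ℝ) ≠ 0 := by exact_mod_cast hp.ne_zero
    have h3 : u a * u b / ((Nat.lcm p (Nat.lcm a b) : ℕ) : ℝ) =
        (1 / (p : ℝ)) * ((Nat.gcd a b : ℝ) * ((u a / a) * (u b / b))) := by
      rw [lcm_coprime hp ha2 hb2, Nat.cast_mul, div_mul_div_comm, ← hg]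
      field_simp
    rw [h3, Selberg.gcd_sum R a b ha1 hb1, Finset.sum_mul, Finset.sum_filter, Finset.mul_sum]
    refine Finset.sum_congr rfl fun k _ => ?_
    by_cases h3 : k ∣ a <;> by_cases h4 : k ∣ b <;> simp [h3, h4]
  rw [h1, Finset.sum_congr rfl fun a ha => Finset.sum_congr rfl fun b hb => h2 a ha b hb]
  have h3 : ∀ a ∈ A, ∑ b ∈ A, ∑ k ∈ Icc 1 R, (1 / (p : ℝ)) * ((Nat.totient k : ℝ) *
      ((if k ∣ a then u a / a else 0) * (if k ∣ b then u b / b else 0))) =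
      ∑ k ∈ Icc 1 R, (1 / (p : ℝ)) * ((Nat.totient k : ℝ) *
        ((if k ∣ a then u a / a else 0) * ww R p k)) := by
    intro a _
    rw [Finset.sum_comm]
    refine Finset.sum_congr rfl fun k hk => ?_
    rw [← Finset.mul_sum, ← Finset.mul_sum, ← Finset.mul_sum]
    rfl
  rw [Finset.sum_congr rfl h3, Finset.sum_comm, Finset.mul_sum]
  refine Finset.sum_congr rfl fun k hk => ?_
  rw [← Finset.mul_sum, ← Finset.mul_sum, ← Finset.sum_mul, pow_two]
  rfl

private lemma ww_eq {R p k : ℕ} (hp : p.Prime) (hk : k ∈ Icc 1 R) :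
    ww R p k = if ¬ p ∣ k ∧ R < p * k then Selberg.yv R k else 0 := by
  have hk1 := (mem_Icc.1 hk).1
  have hp0 : (p : ℝ) ≠ 0 := by exact_mod_cast hp.ne_zero
  have hp1 : (1 : ℝ) < p := by exact_mod_cast hp.one_lt
  by_cases hpk : p ∣ k
  · rw [if_neg (fun h => h.1 hpk)]
    unfold ww
    refine Finset.sum_eq_zero fun a ha => ?_
    rw [if_neg]
    intro hka
    exact (mem_filter.1 ha).2 (hpk.trans hka)
  · have hc : Nat.Coprime k p := ((Nat.Prime.coprime_iff_not_dvd hp).2 hpk).symm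
    -- the two parts
    set X1 : ℝ := ∑ a ∈ (Icc 1 R).filter (fun a => ¬ p ∣ a),
      if k ∣ a then Selberg.lam R a / a else 0 with hX1
    set X2 : ℝ := ∑ a ∈ (Icc 1 R).filter (fun a => ¬ p ∣ a),
      if k ∣ a then Selberg.lam R (p * a) / a else 0 with hX2
    have hw : ww R p k = X1 + X2 := by
      unfold ww
      rw [hX1, hX2, ← Finset.sum_add_distrib]
      refine Finset.sum_congr rfl fun a _ => ?_
      split_ifs
      · ring
      · ring
    have hy : Selberg.yv R k = X1 + X2 / p := by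
      rw [← Selberg.sum_lam_div R k hk, Finset.sum_filter]
      have e1 := split (R := R) hp (fun e => if k ∣ e then 1 / (e : ℝ) else 0)
      have e2 : ∑ a ∈ Icc 1 R, (if k ∣ a then Selberg.lam R a / (a : ℝ) else 0) =
          ∑ a ∈ Icc 1 R, Selberg.lam R a * (if k ∣ a then 1 / (a : ℝ) else 0) := by
        refine Finset.sum_congr rfl fun a _ => ?_
        split_ifs
        · ring
        · ring
      rw [e2, e1, hX1, hX2, Finset.sum_div, ← Finset.sum_add_distrib]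
      refine Finset.sum_congr rfl fun a _ => ?_
      have e3 : k ∣ p * a ↔ k ∣ a := hc.dvd_mul_left
      rw [if_congr e3 rfl rfl]
      push_cast
      split_ifs
      · field_simp
      · ring
    by_cases hR : R < p * k
    · rw [if_pos ⟨hpk, hR⟩, hw, hy]
      have hX0 : X2 = 0 := by
        rw [hX2]
        refine Finset.sum_eq_zero fun a ha => ?_
        split_ifs with hka
        · have ha1 := (mem_Icc.1 (mem_filter.1 ha).1).1
          have h4 : k ≤ a := Nat.le_of_dvd (by omega) hka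
          have h5 : R < p * a := hR.trans_le (Nat.mul_le_mul_left p h4)
          rw [lam_large h5, zero_div]
        · rfl
      rw [hX0]
      ring
    · rw [if_neg (fun h => hR h.2), hw]
      have hpkR : p * k ∈ Icc 1 R := mem_Icc.2 ⟨Nat.mul_pos hp.pos hk1, not_lt.1 hR⟩
      have hy2 : Selberg.yv R (p * k) = X2 / p := by
        rw [← Selberg.sum_lam_div R (p * k) hpkR, Finset.sum_filter]
        have e1 := split (R := R) hp (fun e => if p * k ∣ e then 1 / (e : ℝ) else 0)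
        have e2 : ∑ a ∈ Icc 1 R, (if p * k ∣ a then Selberg.lam R a / (a : ℝ) else 0) =
            ∑ a ∈ Icc 1 R, Selberg.lam R a * (if p * k ∣ a then 1 / (a : ℝ) else 0) := by
          refine Finset.sum_congr rfl fun a _ => ?_
          split_ifs
          · ring
          · ring
        rw [e2, e1, hX2, Finset.sum_div]
        refine Finset.sum_congr rfl fun a ha => ?_
        have hpa := (mem_filter.1 ha).2
        have e3 : ¬ p * k ∣ a := fun h => hpa ((dvd_mul_right p k).trans h)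
        have e4 : p * k ∣ p * a ↔ k ∣ a := Nat.mul_dvd_mul_iff_left hp.pos
        rw [if_neg e3, if_congr e4 rfl rfl]
        push_cast
        split_ifs
        · field_simp
          ring
        · ring
      have hy3 : Selberg.yv R (p * k) = - Selberg.yv R k / (p - 1) := by
        unfold Selberg.yv
        rw [ArithmeticFunction.isMultiplicative_moebius.map_mul_of_coprime hc.symm,
          Nat.totient_mul hc.symm, ArithmeticFunction.moebius_apply_prime hp,
          Nat.totient_prime hp]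
        have h5 : (((p - 1 : ℕ) : ℕ) : ℝ) = (p : ℝ) - 1 := by
          rw [Nat.cast_sub hp.one_lt.le, Nat.cast_one]
        push_cast
        rw [h5, neg_one_mul, neg_div, neg_div, div_div]
        congr 2
        ring
      have h6 : X2 = - p * Selberg.yv R k / (p - 1) := by
        have h7 : X2 = p * Selberg.yv R (p * k) := by
          rw [hy2]
          field_simp
        rw [h7, hy3]
        ring
      have h8 : X1 = Selberg.yv R k - X2 / p := by linarith
      rw [h8, h6]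
      have h9 : (p : ℝ) - 1 ≠ 0 := by linarith
      field_simp
      ring

theorem QQ_small {R p : ℕ} (hp : p.Prime) (hpR : p ≤ R) :
    QQ R p ≤ (1 / ((p : ℝ) * Selberg.L R ^ 2)) *
      ∑ k ∈ Ioc (R / p) R, ((μ k : ℤ) : ℝ) ^ 2 / (Nat.totient k : ℝ) := by
  have hp0 : (0 : ℝ) < p := by exact_mod_cast hp.pos
  have hL := Selberg.L_pos (show 1 ≤ R from hp.pos.trans_le hpR)
  rw [QQ_eq hp]
  have h1 : ∀ k ∈ Icc 1 R, (Nat.totient k : ℝ) * ww R p k ^ 2 =
      if ¬ p ∣ k ∧ R < p * k then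
        (1 / Selberg.L R ^ 2) * (((μ k : ℤ) : ℝ) ^ 2 / (Nat.totient k : ℝ)) else 0 := by
    intro k hk
    rw [ww_eq hp hk]
    split_ifs
    · have h6 : (Nat.totient k : ℝ) ≠ 0 := by
        have := Nat.totient_pos.2 (Finset.mem_Icc.1 hk).1
        exact_mod_cast this.ne'
      unfold Selberg.yv
      field_simp
    · ring
  rw [Finset.sum_congr rfl h1, ← Finset.sum_filter, ← Finset.mul_sum]
  have h2 : ∑ k ∈ (Icc 1 R).filter (fun k => ¬ p ∣ k ∧ R < p * k),
      ((μ k : ℤ) : ℝ) ^ 2 / (Nat.totient k : ℝ) ≤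
      ∑ k ∈ Ioc (R / p) R, ((μ k : ℤ) : ℝ) ^ 2 / (Nat.totient k : ℝ) := by
    refine Finset.sum_le_sum_of_subset_of_nonneg ?_ fun k _ _ => by positivity
    intro k hk
    obtain ⟨h3, h4, h5⟩ := mem_filter.1 hk
    rw [mem_Ioc]
    refine ⟨?_, (mem_Icc.1 h3).2⟩
    rw [Nat.div_lt_iff_lt_mul hp.pos, mul_comm]
    exact h5
  calc 1 / (p : ℝ) * (1 / Selberg.L R ^ 2 * ∑ k ∈ (Icc 1 R).filter (fun k => ¬ p ∣ k ∧ R < p * k),
        ((μ k : ℤ) : ℝ) ^ 2 / (Nat.totient k : ℝ))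
      ≤ 1 / (p : ℝ) * (1 / Selberg.L R ^ 2 * ∑ k ∈ Ioc (R / p) R,
        ((μ k : ℤ) : ℝ) ^ 2 / (Nat.totient k : ℝ)) := by gcongr
    _ = _ := by
        rw [← mul_assoc, one_div_mul_one_div]

theorem QQ_large {R p : ℕ} (hR : 1 ≤ R) (hp : p.Prime) (hpR : R < p) :
    QQ R p = 1 / ((p : ℝ) * Selberg.L R) := by
  have hp0 : (p : ℝ) ≠ 0 := by exact_mod_cast hp.ne_zero
  unfold QQ
  have h1 : ∀ a ∈ Icc 1 R, ∀ b ∈ Icc 1 R,
      Selberg.lam R a * Selberg.lam R b / ((Nat.lcm p (Nat.lcm a b) : ℕ) : ℝ) =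
      (1 / (p : ℝ)) * (Selberg.lam R a * Selberg.lam R b / ((Nat.lcm a b : ℕ) : ℝ)) := by
    intro a ha b hb
    have ha1 := mem_Icc.1 ha
    have hb1 := mem_Icc.1 hb
    have ha2 : ¬ p ∣ a := fun h => by
      have := Nat.le_of_dvd (by omega) h
      omega
    have hb2 : ¬ p ∣ b := fun h => by
      have := Nat.le_of_dvd (by omega) h
      omega
    rw [lcm_coprime hp ha2 hb2, Nat.cast_mul]
    ring
  rw [Finset.sum_congr rfl fun a ha => Finset.sum_congr rfl fun b hb => h1 a ha b hb]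
  simp only [← Finset.mul_sum]
  rw [Selberg.form_eq hR]
  ring

end Pool.Agent.PSK
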