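import Pool.Agent.PSK.Def
import Pool.Agent.PSQ.Sel
import Pool.Agent.PSQ.RJ

/-!
# PSK module RB: rough numbers in dyadic blocks (compare `Pool/Agent/PSQ/RJ.lean`)

`RB j = {m ∈ [2^j, 2^(j+1)) : zeta j - rough}`, `zeta j = ⌊2^(σ j)⌋ ≥ 1`.
* `RB_nonempty`: `j = 0`: `1`; `j ≥ 1`: a prime `2^j < p < 2^(j+1)`, `zeta j ≤ 2^(σ j) < 2^j`.
* `card_RB_le`: `rough_short` with `a = 2^j - 1`, `L = 2^j`, `R = zeta j`:
  `≤ 2 · 2^j / (σ j log 2) + 2^(4σj) ≤ C 2^j/(j+1)` (`j ≥ 1`).
* `omega_le`: the prime factors of `m ∈ RB j` are `≥ zeta j + 1 > 2^(σ j)`, so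
  `2^(σ j Ω(m)) ≤ m < 2^(j+1)`, `Ω(m) ≤ (j+1)/(σ j) ≤ 2/σ` for `j ≥ 1`; `m = 1` for `j = 0`.
* `j_le_of_dvd`: `p > 2^(σ j)`, so `j ≤ log p/(σ log 2)`.
-/

set_option autoImplicit false

namespace Pool.Agent.PSK

open Finset Pool.Agent.PSQ

private lemma sg_pos : 0 < sg := by unfold sg; positivity

private lemma sg_le : sg ≤ 1 / 1000 := by unfold sg; norm_num

private lemma log_two_half : (1 / 2 : ℝ) < Real.log 2 := by
  have := Real.log_two_gt_d9
  linarith

private lemma two_rpow_eq (x : ℝ) : (2 : ℝ) ^ x = Real.exp (x * Real.log 2) := by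
  rw [mul_comm, Real.exp_mul, Real.exp_log (by norm_num)]

private lemma lt_zeta (j : ℕ) : (2 : ℝ) ^ (sg * j) < (zeta j : ℝ) + 1 := by
  unfold zeta
  exact Nat.lt_floor_add_one _

private lemma zeta_le (j : ℕ) : (zeta j : ℝ) ≤ (2 : ℝ) ^ (sg * j) := by
  unfold zeta
  exact Nat.floor_le (by positivity)

private lemma one_le_zeta (j : ℕ) : 1 ≤ zeta j := by
  unfold zeta
  rw [Nat.one_le_floor_iff]
  exact Real.one_le_rpow (by norm_num) (mul_nonneg sg_pos.le (Nat.cast_nonneg j))

private lemma log_zeta (j : ℕ) : sg * j * Real.log 2 ≤ Real.log ((zeta j : ℝ) + 1) := by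
  rw [Real.le_log_iff_exp_le (by positivity), ← two_rpow_eq]
  exact (lt_zeta j).le

private lemma mem_RB {j m : ℕ} :
    m ∈ RB j ↔ (2 ^ j ≤ m ∧ m < 2 ^ (j + 1)) ∧ Rough (zeta j) m := by
  unfold RB
  rw [mem_filter, mem_Ico]

theorem RB_nonempty (j : ℕ) : (RB j).Nonempty := by
  rcases Nat.eq_zero_or_pos j with rfl | hj
  · refine ⟨1, mem_RB.2 ⟨by norm_num, ?_⟩⟩
    intro p hp hp1
    exact absurd hp1 (by rw [Nat.dvd_one]; exact hp.one_lt.ne')
  · obtain ⟨p, hp, hp1, hp2⟩ := Nat.exists_prime_lt_and_le_two_mul (2 ^ j) (by positivity)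
    have hp3 : p ≤ 2 ^ (j + 1) := by rw [pow_succ]; linarith
    have hne : p ≠ 2 ^ (j + 1) := by
      rintro rfl
      exact (Nat.Prime.not_prime_pow (by omega : 2 ≤ j + 1)) hp
    refine ⟨p, mem_RB.2 ⟨⟨hp1.le, lt_of_le_of_ne hp3 hne⟩, ?_⟩⟩
    intro q hq hqp
    rw [(Nat.prime_dvd_prime_iff_eq hq hp).1 hqp]
    have h1 : (zeta j : ℝ) < 2 ^ j := by
      calc (zeta j : ℝ) ≤ (2 : ℝ) ^ (sg * j) := zeta_le j
        _ < (2 : ℝ) ^ (j : ℝ) := by
            apply Real.rpow_lt_rpow_of_exponent_lt (by norm_num)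
            have hj0 : (0 : ℝ) < j := by exact_mod_cast hj
            have := sg_le
            nlinarith
        _ = 2 ^ j := Real.rpow_natCast _ _
    have h2 : zeta j < 2 ^ j := by exact_mod_cast h1
    exact h2.trans hp1

theorem card_RB_le : ∃ C : ℝ, 0 < C ∧ ∀ j : ℕ, ((RB j).card : ℝ) ≤ C * 2 ^ j / (j + 1) := by
  have hs := sg_pos
  have hsl := sg_le
  have hl := log_two_half
  refine ⟨4 / (sg * Real.log 2) + 4, by positivity, fun j => ?_⟩
  rcases Nat.eq_zero_or_pos j with rfl | hj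
  · have h1 : (RB 0).card ≤ 1 := by
      unfold RB
      refine (Finset.card_filter_le _ _).trans ?_
      simp
    have h1' : ((RB 0).card : ℝ) ≤ 1 := by exact_mod_cast h1
    refine h1'.trans ?_
    simp only [Nat.cast_zero, pow_zero, mul_one, zero_add, div_one]
    have : 0 < 4 / (sg * Real.log 2) := by positivity
    linarith
  · have hj0 : (0 : ℝ) < j := by exact_mod_cast hj
    have hj1 : (1 : ℝ) ≤ j := by exact_mod_cast hj
    have h2j : (0 : ℝ) < 2 ^ j := by positivity
    have hsub : RB j = (Finset.Ioc (2 ^ j - 1) (2 ^ j - 1 + 2 ^ j)).filter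
        (fun n => Rough (zeta j) n) := by
      ext m
      have h2 : 1 ≤ 2 ^ j := Nat.one_le_two_pow
      rw [mem_RB, mem_filter, mem_Ioc, pow_succ]
      constructor
      · rintro ⟨⟨h3, h4⟩, h5⟩
        exact ⟨⟨by omega, by omega⟩, h5⟩
      · rintro ⟨⟨h3, h4⟩, h5⟩
        exact ⟨⟨by omega, by omega⟩, h5⟩
    have h1 := rough_short (2 ^ j - 1) (2 ^ j) (zeta j) (one_le_zeta j)
    rw [← hsub] at h1
    refine h1.trans ?_
    push_cast
    have hu : 0 < sg * j * Real.log 2 := by positivity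
    have h3 : 2 * 2 ^ j / Real.log ((zeta j : ℝ) + 1) ≤
        4 / (sg * Real.log 2) * 2 ^ j / (j + 1) := by
      calc 2 * 2 ^ j / Real.log ((zeta j : ℝ) + 1) ≤ 2 * 2 ^ j / (sg * j * Real.log 2) :=
            div_le_div_of_nonneg_left (by positivity) hu (log_zeta j)
        _ = (2 / (sg * Real.log 2) * 2 ^ j) / j := by
            have : Real.log 2 ≠ 0 := by linarith
            field_simp
        _ ≤ _ := by
            rw [div_le_div_iff₀ hj0 (by linarith)]
            have h5 : 0 ≤ 2 / (sg * Real.log 2) * 2 ^ j := by positivity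
            have h6 : 4 / (sg * Real.log 2) * 2 ^ j = 2 * (2 / (sg * Real.log 2) * 2 ^ j) := by ring
            rw [h6]
            nlinarith
    have h4 : (zeta j : ℝ) ^ 4 ≤ 4 * 2 ^ j / (j + 1) := by
      rw [le_div_iff₀ (by linarith)]
      have h5 : (zeta j : ℝ) ^ 4 ≤ Real.exp (j / 50) := by
        calc (zeta j : ℝ) ^ 4 ≤ ((2 : ℝ) ^ (sg * j)) ^ 4 :=
              pow_le_pow_left₀ (Nat.cast_nonneg _) (zeta_le j) 4
          _ = Real.exp (4 * (sg * j * Real.log 2)) := by
              rw [two_rpow_eq, ← Real.exp_nat_mul]; norm_num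
          _ ≤ _ := by
              apply Real.exp_le_exp.2
              have h6 : Real.log 2 ≤ 1 := by
                have := Real.log_two_lt_d9
                linarith
              have h7 : sg * j * Real.log 2 ≤ sg * j * 1 :=
                mul_le_mul_of_nonneg_left h6 (by positivity)
              nlinarith
      have h6 : (j : ℝ) + 1 ≤ 2 * Real.exp (j / 2) := by
        have := Real.add_one_le_exp ((j : ℝ) / 2)
        linarith
      have h7 : Real.exp (j / 50) * Real.exp (j / 2) ≤ 2 ^ j := by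
        rw [← Real.exp_add, ← Real.rpow_natCast, two_rpow_eq]
        apply Real.exp_le_exp.2
        have := Real.log_two_gt_d9
        nlinarith
      calc (zeta j : ℝ) ^ 4 * (j + 1) ≤ Real.exp (j / 50) * (2 * Real.exp (j / 2)) :=
            mul_le_mul h5 h6 (by linarith) (Real.exp_pos _).le
        _ = 2 * (Real.exp (j / 50) * Real.exp (j / 2)) := by ring
        _ ≤ 4 * 2 ^ j := by linarith
    calc 2 * 2 ^ j / Real.log ((zeta j : ℝ) + 1) + (zeta j : ℝ) ^ 4
        ≤ 4 / (sg * Real.log 2) * 2 ^ j / (j + 1) + 4 * 2 ^ j / (j + 1) :=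
          add_le_add h3 h4
      _ = _ := by ring

theorem omega_le : ∃ K : ℕ, ∀ j : ℕ, ∀ m ∈ RB j, ArithmeticFunction.cardFactors m ≤ K := by
  have hs := sg_pos
  have hl := log_two_half
  refine ⟨⌈2 / sg⌉₊, fun j m hm => ?_⟩
  obtain ⟨⟨hm1, hm2⟩, hr⟩ := mem_RB.1 hm
  rcases Nat.eq_zero_or_pos j with rfl | hj
  · have : m = 1 := by
      simp at hm1 hm2
      omega
    subst this
    rw [ArithmeticFunction.cardFactors_one]
    exact Nat.zero_le _
  · have hj0 : (0 : ℝ) < j := by exact_mod_cast hj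
    have hj1 : (1 : ℝ) ≤ j := by exact_mod_cast hj
    have hm0 : m ≠ 0 := by
      have : 0 < 2 ^ j := by positivity
      omega
    have h1 : (zeta j + 1) ^ (ArithmeticFunction.cardFactors m) ≤ m := by
      have h2 : (zeta j + 1) ^ m.primeFactorsList.length ≤ m.primeFactorsList.prod := by
        apply List.pow_card_le_prod
        intro p hp
        exact hr p (Nat.prime_of_mem_primeFactorsList hp) (Nat.dvd_of_mem_primeFactorsList hp)
      rw [Nat.prod_primeFactorsList hm0] at h2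
      rwa [ArithmeticFunction.cardFactors_apply]
    have h3 : ((zeta j : ℝ) + 1) ^ (ArithmeticFunction.cardFactors m) ≤ 2 ^ (j + 1) := by
      have : (zeta j + 1) ^ (ArithmeticFunction.cardFactors m) ≤ 2 ^ (j + 1) := h1.trans hm2.le
      exact_mod_cast this
    have h4 : (ArithmeticFunction.cardFactors m : ℝ) * Real.log ((zeta j : ℝ) + 1) ≤
        (j + 1) * Real.log 2 := by
      have h5 := Real.log_le_log (by positivity) h3
      rw [Real.log_pow, Real.log_pow] at h5
      push_cast at h5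
      exact h5
    have h6 : (ArithmeticFunction.cardFactors m : ℝ) * (sg * j * Real.log 2) ≤
        (j + 1) * Real.log 2 :=
      (mul_le_mul_of_nonneg_left (log_zeta j) (Nat.cast_nonneg _)).trans h4
    have h7 : (ArithmeticFunction.cardFactors m : ℝ) * (sg * j) ≤ j + 1 := by
      refine le_of_mul_le_mul_right ?_ (show (0 : ℝ) < Real.log 2 by linarith)
      linarith
    have h8 : (ArithmeticFunction.cardFactors m : ℝ) ≤ 2 / sg := by
      rw [le_div_iff₀ hs]
      have h9 : (ArithmeticFunction.cardFactors m : ℝ) * sg * j ≤ 2 * j := by linarith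
      exact le_of_mul_le_mul_right h9 hj0
    have h10 : (ArithmeticFunction.cardFactors m : ℝ) ≤ (⌈2 / sg⌉₊ : ℝ) := h8.trans (Nat.le_ceil _)
    exact_mod_cast h10

theorem j_le_of_dvd : ∃ C : ℝ, 0 < C ∧ ∀ j : ℕ, ∀ m ∈ RB j,
    ∀ p : ℕ, p.Prime → p ∣ m → (j : ℝ) ≤ C * Real.log p := by
  have hs := sg_pos
  have hl := log_two_half
  refine ⟨1 / (sg * Real.log 2), by positivity, fun j m hm p hp hpm => ?_⟩
  obtain ⟨⟨hm1, hm2⟩, hr⟩ := mem_RB.1 hm
  have h1 : zeta j < p := hr p hp hpm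
  have h2 : sg * j * Real.log 2 ≤ Real.log p := by
    refine (log_zeta j).trans (Real.log_le_log (by positivity) ?_)
    exact_mod_cast h1
  rw [one_div, inv_mul_eq_div, le_div_iff₀ (by positivity)]
  linarith

end Pool.Agent.PSK
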