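import Pool.Agent.PSK.Tp
import Pool.Agent.PSK.Nea
import Pool.Agent.PSQ.Mer

/-!
# PSK module SMP: sums over primes

`L = L_R ≥ log (R+1)/2` (`Selberg.L_ge`), `log (R+1) ≥ δ log N`, `L_{R'} ≥ κ log N / 2`.

`sum_small` (primes `p ≤ z`, `z ≤ N^σ`, `z ≤ R`): `TT_small` and
`∑_{p ≤ z} (log p + 1)/p ≤ log z + 2 + loglog z + C ≤ 2 σ log N` for large `N` (`sum_log_div_le`,
`sum_inv_le`): `≤ 6 (h/L²) 2 σ log N + 2 R⁴ z ≤ (h/L) 24 σ/δ + 2 R⁴ z`, and `24 σ/δ = 0.0048`,
`R⁴ z ≤ N^(5δ)` is negligible against `h/L ≥ N^(0.49)`.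

`sum_primes`: weights `log p`:
* `z < p ≤ R`: `TT_small`, `∑_{p ≤ R} log p (log p + 1)/p ≤ (log R + 1)(log R + 2)`, so
  `≤ 6 (h/L²)(log R + 1)(log R + 2) + 2 R⁴ · 2 R ≤ (h/L) · 13 · log R ≤ 0.001 (h/L) log N`;
* `R < p ≤ A1`: `TT_large`: `(h/L)(log A1 + 2 - log R + 3) + 2 R⁴ · log 4 · A1`
  `≤ (h/L)(log N / 2 + 5) + 3 h/R`;
* `A1 < p ≤ A2`: `near_bound`: `log A2 (h log (A2/A1)/(L_{R'} L) + N^(0.49))` with
  `log A2 ≤ 0.51 log N`, `log (A2/A1) ≤ 7 δ log N + log 4` (`A1 ≥ N^(1/2-6δ)/2`, `A2 ≤ 2 N^(1/2+δ)`),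
  `L_{R'} ≥ κ log N/2`: `≤ (0.0358 + o(1)) (h/L) log N`.
Total `≤ 0.56 (h/L) log N`.
-/

set_option autoImplicit false

namespace Pool.Agent.PSK

open Finset Filter Pool.Agent.PSQ
open Pool.Agent.Helper4.ST

private lemma TT_nn (N h R p : ℕ) : 0 ≤ TT N h R p :=
  Finset.sum_nonneg fun n _ => Selberg.wt_nonneg R n

private lemma card_PP (z : ℕ) : ((PP z).card : ℝ) ≤ z := by
  have h : PP z ⊆ Finset.Ioc 0 z := by
    intro p hp
    rw [mem_PP] at hp
    exact Finset.mem_Ioc.2 ⟨hp.2.pos, hp.1⟩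
  have h2 := Finset.card_le_card h
  rw [Nat.card_Ioc, Nat.sub_zero] at h2
  exact_mod_cast h2

private lemma L_le (R : ℕ) : Selberg.L R ≤ R := by
  unfold Selberg.L
  have h1 : ∀ k ∈ Finset.Icc 1 R,
      ((ArithmeticFunction.moebius k : ℤ) : ℝ) ^ 2 / (Nat.totient k : ℝ) ≤ 1 := by
    intro k hk
    rw [Finset.mem_Icc] at hk
    have h2 : (1 : ℝ) ≤ (Nat.totient k : ℝ) := by
      exact_mod_cast Nat.totient_pos.2 (by omega)
    have h3 := Selberg.abs_mu_le k
    have h4 : ((ArithmeticFunction.moebius k : ℤ) : ℝ) ^ 2 ≤ 1 := by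
      rw [← sq_abs]
      exact pow_le_one₀ (abs_nonneg _) h3
    rw [div_le_one (by linarith)]
    linarith
  calc _ ≤ ∑ k ∈ Finset.Icc 1 R, (1 : ℝ) := Finset.sum_le_sum h1
    _ = R := by simp

private lemma log4_le : Real.log 4 ≤ 1.4 := by
  have : Real.log 4 = 2 * Real.log 2 := by
    rw [show (4 : ℝ) = 2 ^ 2 by norm_num, Real.log_pow]
    push_cast
    ring
  rw [this]
  have := Real.log_two_lt_d9
  norm_num at this ⊢
  linarith

private lemma part_small (N h R z : ℕ) (hR : 1 ≤ R) (hz : z ≤ R) (S : ℝ)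
    (hS : ∑ p ∈ PP z, Real.log p / p + ∑ p ∈ PP z, 1 / (p : ℝ) ≤ S) :
    ∑ p ∈ PP z, TT N h R p ≤ 6 * (h : ℝ) / Selberg.L R ^ 2 * S + 2 * (R : ℝ) ^ 4 * z := by
  have hL := Selberg.L_pos hR
  have h1 : ∀ p ∈ PP z, TT N h R p ≤
      6 * (h : ℝ) / Selberg.L R ^ 2 * (Real.log p / p + 1 / (p : ℝ)) + 2 * (R : ℝ) ^ 4 := by
    intro p hp
    rw [mem_PP] at hp
    refine (TT_small N h R p hR hp.2 (hp.1.trans hz)).trans (le_of_eq ?_)
    have hp0 : (p : ℝ) ≠ 0 := by exact_mod_cast hp.2.pos.ne'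
    field_simp
  calc ∑ p ∈ PP z, TT N h R p
      ≤ ∑ p ∈ PP z, (6 * (h : ℝ) / Selberg.L R ^ 2 * (Real.log p / p + 1 / (p : ℝ)) +
          2 * (R : ℝ) ^ 4) := Finset.sum_le_sum h1
    _ = 6 * (h : ℝ) / Selberg.L R ^ 2 * (∑ p ∈ PP z, Real.log p / p + ∑ p ∈ PP z, 1 / (p : ℝ)) +
          2 * (R : ℝ) ^ 4 * (PP z).card := by
        rw [Finset.sum_add_distrib, ← Finset.mul_sum, Finset.sum_add_distrib, Finset.sum_const,
          nsmul_eq_mul]
        ring
    _ ≤ _ := by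
        apply add_le_add
        · exact mul_le_mul_of_nonneg_left hS (by positivity)
        · exact mul_le_mul_of_nonneg_left (card_PP z) (by positivity)

private lemma part_mid (N h R : ℕ) (hR : 1 ≤ R) :
    ∑ p ∈ PP R, Real.log p * TT N h R p ≤
      6 * (h : ℝ) / Selberg.L R ^ 2 * ((Real.log R + 1) * (Real.log R + 2)) +
        2 * (R : ℝ) ^ 4 * (Real.log 4 * R) := by
  have hL := Selberg.L_pos hR
  have hlR : 0 ≤ Real.log (R : ℝ) := Real.log_natCast_nonneg R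
  have h1 : ∀ p ∈ PP R, Real.log p * TT N h R p ≤
      6 * (h : ℝ) / Selberg.L R ^ 2 * (Real.log R + 1) * (Real.log p / p) +
        2 * (R : ℝ) ^ 4 * Real.log p := by
    intro p hp
    rw [mem_PP] at hp
    have hp0 : (0 : ℝ) < (p : ℝ) := by exact_mod_cast hp.2.pos
    have hlp : 0 ≤ Real.log (p : ℝ) := Real.log_natCast_nonneg p
    have hlpR : Real.log (p : ℝ) ≤ Real.log R := Real.log_le_log hp0 (by exact_mod_cast hp.1)
    have h2 := mul_le_mul_of_nonneg_left (TT_small N h R p hR hp.2 hp.1) hlp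
    refine h2.trans ?_
    have h3 : Real.log (p : ℝ) * (6 * (h : ℝ) * (Real.log p + 1) / (p * Selberg.L R ^ 2)) =
        6 * (h : ℝ) / Selberg.L R ^ 2 * (Real.log p / p) * (Real.log p + 1) := by
      field_simp
    have h4 : 6 * (h : ℝ) / Selberg.L R ^ 2 * (Real.log p / p) * (Real.log p + 1) ≤
        6 * (h : ℝ) / Selberg.L R ^ 2 * (Real.log p / p) * (Real.log R + 1) :=
      mul_le_mul_of_nonneg_left (by linarith) (by positivity)
    calc _ = Real.log (p : ℝ) * (6 * (h : ℝ) * (Real.log p + 1) / (p * Selberg.L R ^ 2)) +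
          2 * (R : ℝ) ^ 4 * Real.log p := by ring
      _ ≤ 6 * (h : ℝ) / Selberg.L R ^ 2 * (Real.log p / p) * (Real.log R + 1) +
          2 * (R : ℝ) ^ 4 * Real.log p := by rw [h3]; linarith
      _ = _ := by ring
  calc ∑ p ∈ PP R, Real.log p * TT N h R p
      ≤ ∑ p ∈ PP R, (6 * (h : ℝ) / Selberg.L R ^ 2 * (Real.log R + 1) * (Real.log p / p) +
        2 * (R : ℝ) ^ 4 * Real.log p) := Finset.sum_le_sum h1
    _ = 6 * (h : ℝ) / Selberg.L R ^ 2 * (Real.log R + 1) * (∑ p ∈ PP R, Real.log p / p) +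
        2 * (R : ℝ) ^ 4 * (∑ p ∈ PP R, Real.log p) := by
        rw [Finset.sum_add_distrib, ← Finset.mul_sum, ← Finset.mul_sum]
    _ ≤ 6 * (h : ℝ) / Selberg.L R ^ 2 * (Real.log R + 1) * (Real.log R + 2) +
        2 * (R : ℝ) ^ 4 * (Real.log 4 * R) := by
        apply add_le_add
        · exact mul_le_mul_of_nonneg_left (sum_log_div_le R hR) (by positivity)
        · exact mul_le_mul_of_nonneg_left (sum_log_le R) (by positivity)
    _ = _ := by ring

private lemma part_large (N h R A : ℕ) (hR : 1 ≤ R) (hA : 1 ≤ A) :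
    ∑ p ∈ (PP A).filter (fun p => R < p), Real.log p * TT N h R p ≤
      (h : ℝ) / Selberg.L R * (Real.log A + 2) + 2 * (R : ℝ) ^ 4 * (Real.log 4 * A) := by
  have hL := Selberg.L_pos hR
  have h1 : ∀ p ∈ (PP A).filter (fun p => R < p), Real.log p * TT N h R p ≤
      (h : ℝ) / Selberg.L R * (Real.log p / p) + 2 * (R : ℝ) ^ 4 * Real.log p := by
    intro p hp
    rw [Finset.mem_filter, mem_PP] at hp
    have hp0 : (0 : ℝ) < (p : ℝ) := by exact_mod_cast hp.1.2.pos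
    have hlp : 0 ≤ Real.log (p : ℝ) := Real.log_natCast_nonneg p
    refine (mul_le_mul_of_nonneg_left (TT_large N h R p hR hp.1.2 hp.2) hlp).trans (le_of_eq ?_)
    field_simp
  calc ∑ p ∈ (PP A).filter (fun p => R < p), Real.log p * TT N h R p
      ≤ ∑ p ∈ (PP A).filter (fun p => R < p), ((h : ℝ) / Selberg.L R * (Real.log p / p) +
          2 * (R : ℝ) ^ 4 * Real.log p) := Finset.sum_le_sum h1
    _ ≤ ∑ p ∈ PP A, ((h : ℝ) / Selberg.L R * (Real.log p / p) +
          2 * (R : ℝ) ^ 4 * Real.log p) := by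
        apply Finset.sum_le_sum_of_subset_of_nonneg (Finset.filter_subset _ _)
        intro p _ _
        have hlp : 0 ≤ Real.log (p : ℝ) := Real.log_natCast_nonneg p
        positivity
    _ = (h : ℝ) / Selberg.L R * (∑ p ∈ PP A, Real.log p / p) +
          2 * (R : ℝ) ^ 4 * (∑ p ∈ PP A, Real.log p) := by
        rw [Finset.sum_add_distrib, ← Finset.mul_sum, ← Finset.mul_sum]
    _ ≤ _ := by
        apply add_le_add
        · exact mul_le_mul_of_nonneg_left (sum_log_div_le A hA) (by positivity)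
        · exact mul_le_mul_of_nonneg_left (sum_log_le A) (by positivity)

private lemma part_near (N h R A B : ℕ) :
    ∑ p ∈ (Finset.Ioc A B).filter Nat.Prime, Real.log p * TT N h R p ≤
      Real.log B * ∑ p ∈ (Finset.Ioc A B).filter Nat.Prime, TT N h R p := by
  rw [Finset.mul_sum]
  apply Finset.sum_le_sum
  intro p hp
  rw [Finset.mem_filter, Finset.mem_Ioc] at hp
  have hp0 : (0 : ℝ) < (p : ℝ) := by exact_mod_cast hp.2.pos
  exact mul_le_mul_of_nonneg_right (Real.log_le_log hp0 (by exact_mod_cast hp.1.2)) (TT_nn _ _ _ _)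

private lemma split_sum (N h R z A B : ℕ) :
    ∑ p ∈ (PP B).filter (fun p => z < p), Real.log p * TT N h R p ≤
      ∑ p ∈ PP R, Real.log p * TT N h R p +
      ∑ p ∈ (PP A).filter (fun p => R < p), Real.log p * TT N h R p +
      ∑ p ∈ (Finset.Ioc A B).filter Nat.Prime, Real.log p * TT N h R p := by
  have hnn : ∀ p : ℕ, 0 ≤ Real.log p * TT N h R p := fun p =>
    mul_nonneg (Real.log_natCast_nonneg p) (TT_nn _ _ _ _)
  have hsub : (PP B).filter (fun p => z < p) ⊆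
      (PP R ∪ (PP A).filter (fun p => R < p)) ∪ (Finset.Ioc A B).filter Nat.Prime := by
    intro p hp
    rw [Finset.mem_filter, mem_PP] at hp
    rw [Finset.mem_union, Finset.mem_union, mem_PP, Finset.mem_filter, mem_PP, Finset.mem_filter,
      Finset.mem_Ioc]
    by_cases h1 : p ≤ R
    · exact Or.inl (Or.inl ⟨h1, hp.1.2⟩)
    · by_cases h2 : p ≤ A
      · exact Or.inl (Or.inr ⟨⟨h2, hp.1.2⟩, by omega⟩)
      · exact Or.inr ⟨⟨by omega, hp.1.1⟩, hp.1.2⟩
  refine (Finset.sum_le_sum_of_subset_of_nonneg hsub (fun p _ _ => hnn p)).trans ?_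
  have hU : ∀ s t : Finset ℕ, ∑ p ∈ s ∪ t, Real.log p * TT N h R p ≤
      ∑ p ∈ s, Real.log p * TT N h R p + ∑ p ∈ t, Real.log p * TT N h R p := by
    intro s t
    rw [← Finset.sum_union_inter]
    have := Finset.sum_nonneg (s := s ∩ t) (fun p _ => hnn p)
    linarith
  refine (hU _ _).trans ?_
  have := hU (PP R) ((PP A).filter (fun p => R < p))
  linarith

/-! ### large `N` -/

private lemma ev_log (c : ℝ) : ∀ᶠ N : ℕ in atTop, c ≤ Real.log (N : ℝ) :=
  (Real.tendsto_log_atTop.comp tendsto_natCast_atTop_atTop).eventually_ge_atTop c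

private lemma ev_pow (a : ℝ) (ha : 0 < a) (c : ℝ) : ∀ᶠ N : ℕ in atTop, c ≤ (N : ℝ) ^ a :=
  ((tendsto_rpow_atTop ha).comp tendsto_natCast_atTop_atTop).eventually_ge_atTop c

private lemma ev_pow2 (a b : ℝ) (hab : a < b) (c : ℝ) :
    ∀ᶠ N : ℕ in atTop, c * (N : ℝ) ^ a ≤ (N : ℝ) ^ b := by
  filter_upwards [ev_pow (b - a) (by linarith) c, eventually_ge_atTop 1] with N h1 h2
  have hN : (0 : ℝ) < N := by exact_mod_cast h2
  have h3 : (N : ℝ) ^ b = (N : ℝ) ^ (b - a) * (N : ℝ) ^ a := by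
    rw [← Real.rpow_add hN]
    congr 1
    ring
  rw [h3]
  exact mul_le_mul_of_nonneg_right h1 (by positivity)

private lemma floor_half {x : ℝ} (hx : 1 ≤ x) : x / 2 ≤ (⌊x⌋₊ : ℝ) := by
  have h1 := Nat.lt_floor_add_one x
  have h2 : (1 : ℝ) ≤ (⌊x⌋₊ : ℝ) := by
    exact_mod_cast (Nat.one_le_floor_iff x).2 hx
  linarith

/-- the basic parameters -/
private lemma par : ∀ᶠ N : ℕ in atTop, 1 ≤ RR N ∧ (RR N : ℝ) ≤ (N : ℝ) ^ dl ∧
    dl * Real.log N / 2 ≤ Selberg.L (RR N) ∧ Selberg.L (RR N) ≤ RR N ∧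
    (hh N : ℝ) ≤ (N : ℝ) ^ (1 / 2 - dl) ∧ (N : ℝ) ^ (1 / 2 - dl) / 2 ≤ hh N ∧
    (N : ℝ) ^ (1 / 2 - 2 * dl) / 2 ≤ (hh N : ℝ) / Selberg.L (RR N) := by
  have hdl : (0 : ℝ) < dl := by unfold dl; norm_num
  have hdl2 : (0 : ℝ) < 1 / 2 - dl := by unfold dl; norm_num
  filter_upwards [eventually_ge_atTop 1, ev_pow dl hdl 1, ev_pow _ hdl2 1] with N h1 h2 h3
  have hN : (0 : ℝ) < N := by exact_mod_cast h1
  have hR1 : 1 ≤ RR N := (Nat.one_le_floor_iff _).2 h2
  have hR2 : (RR N : ℝ) ≤ (N : ℝ) ^ dl := Nat.floor_le (by positivity)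
  have hL : 0 < Selberg.L (RR N) := Selberg.L_pos hR1
  have hL2 : Selberg.L (RR N) ≤ RR N := L_le _
  have hh1 : (hh N : ℝ) ≤ (N : ℝ) ^ (1 / 2 - dl) := Nat.floor_le (by positivity)
  have hh2 : (N : ℝ) ^ (1 / 2 - dl) / 2 ≤ hh N := floor_half h3
  refine ⟨hR1, hR2, ?_, hL2, hh1, hh2, ?_⟩
  · refine le_trans ?_ (Selberg.L_ge (RR N))
    have h4 : (N : ℝ) ^ dl ≤ (RR N : ℝ) + 1 := (Nat.lt_floor_add_one _).le
    have h5 := Real.log_le_log (by positivity) h4
    rw [Real.log_rpow hN] at h5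
    linarith
  · rw [le_div_iff₀ hL]
    have h6 : (N : ℝ) ^ (1 / 2 - dl) = (N : ℝ) ^ (1 / 2 - 2 * dl) * (N : ℝ) ^ dl := by
      rw [← Real.rpow_add hN]
      congr 1
      ring
    calc (N : ℝ) ^ (1 / 2 - 2 * dl) / 2 * Selberg.L (RR N)
        ≤ (N : ℝ) ^ (1 / 2 - 2 * dl) / 2 * (N : ℝ) ^ dl :=
          mul_le_mul_of_nonneg_left (hL2.trans hR2) (by positivity)
      _ = (N : ℝ) ^ (1 / 2 - dl) / 2 := by rw [h6]; ring
      _ ≤ hh N := hh2

theorem sum_small : ∀ᶠ N : ℕ in atTop,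
    ∑ p ∈ PP (zN N), TT N (hh N) (RR N) p ≤ 0.01 * ((hh N : ℝ) / Selberg.L (RR N)) := by
  obtain ⟨C, hC, hinv⟩ := sum_inv_le
  have hdl : dl = 1 / 200000 := rfl
  have hsg : sg = 1 / 10 ^ 9 := rfl
  have hsg0 : (0 : ℝ) < sg := by rw [hsg]; norm_num
  have hzz : Tendsto (fun N : ℕ => (N : ℝ) ^ sg) atTop atTop :=
    (tendsto_rpow_atTop hsg0).comp tendsto_natCast_atTop_atTop
  have hll : ∀ᶠ N : ℕ in atTop, Real.log (Real.log N) ≤ sg / 2 * Real.log N := by
    have h1 : Tendsto (fun N : ℕ => Real.log (N : ℝ)) atTop atTop :=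
      Real.tendsto_log_atTop.comp tendsto_natCast_atTop_atTop
    have h2 := (Real.isLittleO_log_id_atTop.comp_tendsto h1).bound (show (0 : ℝ) < sg / 2 by positivity)
    filter_upwards [h2, ev_log 1] with N h3 h4
    simp only [Function.comp, id, Real.norm_eq_abs] at h3
    rw [abs_of_nonneg (by linarith : (0 : ℝ) ≤ Real.log N)] at h3
    exact (le_abs_self _).trans h3
  filter_upwards [par, eventually_ge_atTop 1, hll, ev_log ((2 + C) * (2 / sg)), ev_log 1,
    ev_pow sg hsg0 3, ev_pow2 (4 * dl + sg) (1 / 2 - 2 * dl) (by rw [hdl, hsg]; norm_num) 10000,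
    ev_pow2 sg dl (by rw [hdl, hsg]; norm_num) 1]
    with N hpar h1 hll hl2 hl1 hz3 hp1 hp2
  obtain ⟨hR1, hR2, hL1, hL2, hh1, hh2, hH⟩ := hpar
  have hN : (0 : ℝ) < N := by exact_mod_cast h1
  have hL : 0 < Selberg.L (RR N) := Selberg.L_pos hR1
  have hz : 3 ≤ zN N := Nat.le_floor (by exact_mod_cast hz3)
  have hz2 : (zN N : ℝ) ≤ (N : ℝ) ^ sg := Nat.floor_le (by positivity)
  have hzR : zN N ≤ RR N := by
    refine Nat.floor_le_floor ?_
    linarith
  have hz0 : (0 : ℝ) < zN N := by exact_mod_cast (by omega : 0 < zN N)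
  have hlz : Real.log (zN N) ≤ sg * Real.log N := by
    have := Real.log_le_log hz0 hz2
    rwa [Real.log_rpow hN] at this
  have hlz0 : 0 < Real.log (zN N) := Real.log_pos (by exact_mod_cast (by omega : 1 < zN N))
  have hlz1 : Real.log (Real.log (zN N)) ≤ Real.log (Real.log N) := by
    apply Real.log_le_log hlz0
    refine hlz.trans ?_
    have : sg ≤ 1 := by rw [hsg]; norm_num
    nlinarith
  have hS : ∑ p ∈ PP (zN N), Real.log p / p + ∑ p ∈ PP (zN N), 1 / (p : ℝ) ≤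
      2 * sg * Real.log N := by
    have e1 := sum_log_div_le (zN N) (by omega)
    have e2 := hinv (zN N) hz
    have e3 : 2 + C ≤ sg / 2 * Real.log N := by
      have : (2 + C) = sg / 2 * ((2 + C) * (2 / sg)) := by
        field_simp
      rw [this]
      exact mul_le_mul_of_nonneg_left hl2 (by positivity)
    linarith
  refine (part_small N (hh N) (RR N) (zN N) hR1 hzR _ hS).trans ?_
  have hl0 : 0 < Real.log (N : ℝ) := by linarith
  have t1 : 6 * (hh N : ℝ) / Selberg.L (RR N) ^ 2 * (2 * sg * Real.log N) ≤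
      0.0048 * ((hh N : ℝ) / Selberg.L (RR N)) := by
    have e1 : 6 * (hh N : ℝ) / Selberg.L (RR N) ^ 2 * (2 * sg * Real.log N) =
        ((hh N : ℝ) / Selberg.L (RR N)) * (12 * sg * Real.log N / Selberg.L (RR N)) := by
      field_simp
      ring
    have e2 : 12 * sg * Real.log N / Selberg.L (RR N) ≤ 0.0048 := by
      rw [div_le_iff₀ hL]
      rw [hdl] at hL1
      rw [hsg]
      norm_num at hL1 ⊢
      linarith
    rw [e1, mul_comm (0.0048 : ℝ)]
    exact mul_le_mul_of_nonneg_left e2 (by positivity)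
  have t2 : 2 * (RR N : ℝ) ^ 4 * (zN N) ≤ 0.0004 * ((hh N : ℝ) / Selberg.L (RR N)) := by
    have e1 : (RR N : ℝ) ^ 4 * (zN N) ≤ (N : ℝ) ^ (4 * dl + sg) := by
      rw [Real.rpow_add hN, show 4 * dl = dl * ((4 : ℕ) : ℝ) by push_cast; ring,
        Real.rpow_mul hN.le, Real.rpow_natCast]
      exact mul_le_mul (pow_le_pow_left₀ (by positivity) hR2 4) hz2 (by positivity) (by positivity)
    calc 2 * (RR N : ℝ) ^ 4 * (zN N) = 2 * ((RR N : ℝ) ^ 4 * (zN N)) := by ring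
      _ ≤ 2 * (N : ℝ) ^ (4 * dl + sg) := by linarith
      _ ≤ 0.0004 * ((N : ℝ) ^ (1 / 2 - 2 * dl) / 2) := by
          norm_num at hp1 ⊢
          linarith
      _ ≤ _ := by linarith
  have hH0 : 0 ≤ (hh N : ℝ) / Selberg.L (RR N) := by positivity
  norm_num at t1 t2 ⊢
  linarith

theorem sum_primes : ∀ᶠ N : ℕ in atTop,
    ∑ p ∈ (PP (A2 N)).filter (fun p => zN N < p), Real.log p * TT N (hh N) (RR N) p ≤
      0.56 * ((hh N : ℝ) / Selberg.L (RR N)) * Real.log N := by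
  have hdl : dl = 1 / 200000 := rfl
  have hkp : kp = 1 / 1000 := rfl
  have hdl0 : (0 : ℝ) < dl := by rw [hdl]; norm_num
  have hkp0 : (0 : ℝ) < kp := by rw [hkp]; norm_num
  filter_upwards [par, eventually_ge_atTop 1, near_bound, ev_log (10 ^ 9),
    ev_pow kp hkp0 1,
    ev_pow2 (5 * dl) (1 / 2 - 2 * dl) (by rw [hdl]; norm_num) (10 ^ 9),
    ev_pow2 (49 / 100) (1 / 2 - 2 * dl) (by rw [hdl]; norm_num) (10 ^ 9),
    ev_pow (1 / 2 - 6 * dl) (by rw [hdl]; norm_num) 12] with N hpar h1 hnear hl hk1 hp1 hp2 hp3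
  obtain ⟨hR1, hR2, hL1, hL2, hh1, hh2, hH⟩ := hpar
  have hN : (0 : ℝ) < N := by exact_mod_cast h1
  have hN1 : (1 : ℝ) ≤ N := by exact_mod_cast h1
  have hL : 0 < Selberg.L (RR N) := Selberg.L_pos hR1
  have hR0 : (0 : ℝ) < RR N := by exact_mod_cast hR1
  have hl0 : 0 < Real.log (N : ℝ) := lt_of_lt_of_le (by norm_num) hl
  set l := Real.log (N : ℝ) with hldef
  set H := (hh N : ℝ) / Selberg.L (RR N) with hHdef
  have hH0 : 0 ≤ H := le_trans (by positivity) hH
  have h4 := log4_le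
  have h40 : 0 ≤ Real.log 4 := Real.log_nonneg (by norm_num)
  -- part 1
  have p1 : ∑ p ∈ PP (RR N), Real.log p * TT N (hh N) (RR N) p ≤ 0.001 * (H * l) := by
    refine (part_mid N (hh N) (RR N) hR1).trans ?_
    have hlR : Real.log (RR N) ≤ dl * l := by
      have := Real.log_le_log hR0 hR2
      rwa [Real.log_rpow hN] at this
    have hlR0 : 0 ≤ Real.log (RR N : ℝ) := Real.log_natCast_nonneg _
    have e1 : 6 * (hh N : ℝ) / Selberg.L (RR N) ^ 2 *
        ((Real.log (RR N) + 1) * (Real.log (RR N) + 2)) =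
        H * (6 * ((Real.log (RR N) + 1) * (Real.log (RR N) + 2)) / Selberg.L (RR N)) := by
      rw [hHdef]
      field_simp
    have e2 : 6 * ((Real.log (RR N) + 1) * (Real.log (RR N) + 2)) / Selberg.L (RR N) ≤
        0.0005 * l := by
      rw [div_le_iff₀ hL]
      have a1 : (Real.log (RR N) + 1) * (Real.log (RR N) + 2) ≤ (dl * l + 1) * (dl * l + 2) := by
        apply mul_le_mul (by linarith) (by linarith) (by linarith)
        have : 0 ≤ dl * l := by positivity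
        linarith
      have a2 : 6 * ((dl * l + 1) * (dl * l + 2)) ≤ 0.0005 * l * (dl * l / 2) := by
        rw [hdl]
        norm_num at hl ⊢
        nlinarith
      have a3 : 0.0005 * l * (dl * l / 2) ≤ 0.0005 * l * Selberg.L (RR N) :=
        mul_le_mul_of_nonneg_left hL1 (by positivity)
      linarith
    have e3 : 2 * (RR N : ℝ) ^ 4 * (Real.log 4 * (RR N)) ≤ 0.0005 * (H * l) := by
      have b1 : (RR N : ℝ) ^ 5 ≤ (N : ℝ) ^ (5 * dl) := by
        rw [show 5 * dl = dl * ((5 : ℕ) : ℝ) by push_cast; ring, Real.rpow_mul hN.le,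
          Real.rpow_natCast]
        exact pow_le_pow_left₀ (by positivity) hR2 5
      calc 2 * (RR N : ℝ) ^ 4 * (Real.log 4 * (RR N)) = 2 * Real.log 4 * (RR N : ℝ) ^ 5 := by ring
        _ ≤ 3 * (N : ℝ) ^ (5 * dl) := by
            apply mul_le_mul (by norm_num at h4 ⊢; linarith) b1 (by positivity) (by norm_num)
        _ ≤ 0.0005 * (N : ℝ) ^ (1 / 2 - 2 * dl) / 2 := by
            norm_num at hp1 ⊢
            have : 0 ≤ (N : ℝ) ^ (5 * dl) := by positivity
            linarith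
        _ ≤ 0.0005 * H := by
            norm_num at hH ⊢
            linarith
        _ ≤ 0.0005 * (H * l) := by
            have : H * 1 ≤ H * l := mul_le_mul_of_nonneg_left (by linarith) hH0
            norm_num
            linarith
    rw [e1]
    have e4 := mul_le_mul_of_nonneg_left e2 hH0
    norm_num at e3 e4 ⊢
    linarith
  -- the parameters A1, A2
  have hA1r : ((A1 N : ℕ) : ℝ) ≤ (hh N : ℝ) / (RR N : ℝ) ^ 5 := by
    have := Nat.cast_div_le (α := ℝ) (m := hh N) (n := RR N ^ 5)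
    push_cast at this
    exact this
  have hR5 : (RR N : ℝ) ^ 5 ≤ (N : ℝ) ^ (5 * dl) := by
    rw [show 5 * dl = dl * ((5 : ℕ) : ℝ) by push_cast; ring, Real.rpow_mul hN.le,
      Real.rpow_natCast]
    exact pow_le_pow_left₀ (by positivity) hR2 5
  have hA1l : (N : ℝ) ^ (1 / 2 - 6 * dl) / 3 ≤ (A1 N : ℝ) := by
    have c1 : (hh N : ℝ) / (RR N : ℝ) ^ 5 < (A1 N : ℝ) + 1 := by
      rw [div_lt_iff₀ (by positivity)]
      have h6 : hh N < (hh N / RR N ^ 5 + 1) * RR N ^ 5 := by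
        have := Nat.lt_div_mul_add (a := hh N) (b := RR N ^ 5) (by positivity)
        linarith [this]
      exact_mod_cast h6
    have c2 : (N : ℝ) ^ (1 / 2 - 6 * dl) / 2 ≤ (hh N : ℝ) / (RR N : ℝ) ^ 5 := by
      rw [le_div_iff₀ (by positivity)]
      calc (N : ℝ) ^ (1 / 2 - 6 * dl) / 2 * (RR N : ℝ) ^ 5
          ≤ (N : ℝ) ^ (1 / 2 - 6 * dl) / 2 * (N : ℝ) ^ (5 * dl) :=
            mul_le_mul_of_nonneg_left hR5 (by positivity)
        _ = (N : ℝ) ^ (1 / 2 - dl) / 2 := by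
            rw [show (1 / 2 - dl : ℝ) = (1 / 2 - 6 * dl) + 5 * dl by ring, Real.rpow_add hN]
            ring
        _ ≤ hh N := hh2
    linarith
  have hA1pos : 1 ≤ A1 N := by
    have : (1 : ℝ) ≤ A1 N := by linarith
    exact_mod_cast this
  have hA10 : (0 : ℝ) < A1 N := by exact_mod_cast hA1pos
  -- part 2
  have p2 : ∑ p ∈ (PP (A1 N)).filter (fun p => RR N < p), Real.log p * TT N (hh N) (RR N) p ≤
      H * (l / 2 + 5) := by
    refine (part_large N (hh N) (RR N) (A1 N) hR1 hA1pos).trans ?_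
    have d1 : Real.log (A1 N) ≤ l / 2 := by
      have e1 : (A1 N : ℝ) ≤ (N : ℝ) ^ (1 / 2 : ℝ) := by
        have e0 : (1 : ℝ) ≤ (RR N : ℝ) ^ 5 := one_le_pow₀ (by exact_mod_cast hR1)
        calc (A1 N : ℝ) ≤ (hh N : ℝ) / (RR N : ℝ) ^ 5 := hA1r
          _ ≤ hh N := div_le_self (by positivity) e0
          _ ≤ (N : ℝ) ^ (1 / 2 - dl) := hh1
          _ ≤ (N : ℝ) ^ (1 / 2 : ℝ) := Real.rpow_le_rpow_of_exponent_le hN1 (by linarith)
      have e2 := Real.log_le_log hA10 e1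
      rw [Real.log_rpow hN] at e2
      linarith
    have d2 : 2 * (RR N : ℝ) ^ 4 * (Real.log 4 * (A1 N)) ≤ 3 * H := by
      calc 2 * (RR N : ℝ) ^ 4 * (Real.log 4 * (A1 N))
          = (2 * Real.log 4) * ((RR N : ℝ) ^ 4 * (A1 N)) := by ring
        _ ≤ 3 * ((RR N : ℝ) ^ 4 * ((hh N : ℝ) / (RR N : ℝ) ^ 5)) := by
            apply mul_le_mul (by norm_num at h4 ⊢; linarith)
              (mul_le_mul_of_nonneg_left hA1r (by positivity)) (by positivity) (by norm_num)
        _ = 3 * ((hh N : ℝ) / RR N) := by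
            field_simp
        _ ≤ 3 * H := by
            have : (hh N : ℝ) / RR N ≤ (hh N : ℝ) / Selberg.L (RR N) :=
              div_le_div_of_nonneg_left (by positivity) hL hL2
            linarith
    have d3 : H * (Real.log (A1 N) + 2) ≤ H * (l / 2 + 2) :=
      mul_le_mul_of_nonneg_left (by linarith) hH0
    linarith
  -- part 3
  have hA2r : (A2 N : ℝ) ≤ 2 * (N : ℝ) ^ (1 / 2 + dl) := Nat.floor_le (by positivity)
  have hlog2 : Real.log 2 ≤ 1 := by
    have := Real.log_two_lt_d9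
    linarith
  have hlog6 : Real.log 6 ≤ 5 := by
    have := Real.log_le_sub_one_of_pos (show (0 : ℝ) < 6 by norm_num)
    linarith
  have p3 : ∑ p ∈ (Finset.Ioc (A1 N) (A2 N)).filter Nat.Prime,
      Real.log p * TT N (hh N) (RR N) p ≤ 0.04 * (H * l) := by
    refine (part_near N (hh N) (RR N) (A1 N) (A2 N)).trans ?_
    rcases Nat.eq_zero_or_pos (A2 N) with hA2z | hA2pos
    · rw [hA2z]
      simp only [Nat.cast_zero, Real.log_zero, zero_mul]
      positivity
    have hA20 : (0 : ℝ) < A2 N := by exact_mod_cast hA2pos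
    have f1 : Real.log (A2 N) ≤ 0.51 * l := by
      have e2 := Real.log_le_log hA20 hA2r
      rw [Real.log_mul (by norm_num) (by positivity), Real.log_rpow hN, hdl] at e2
      norm_num at hl e2 ⊢
      linarith
    have f0 : 0 ≤ Real.log (A2 N : ℝ) := Real.log_natCast_nonneg _
    have f2 : Real.log ((A2 N : ℝ) / A1 N) ≤ 0.0000351 * l := by
      have e1 : (A2 N : ℝ) / A1 N ≤ 6 * (N : ℝ) ^ (7 * dl) := by
        rw [div_le_iff₀ hA10]
        calc (A2 N : ℝ) ≤ 2 * (N : ℝ) ^ (1 / 2 + dl) := hA2r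
          _ = 6 * (N : ℝ) ^ (7 * dl) * ((N : ℝ) ^ (1 / 2 - 6 * dl) / 3) := by
              rw [show (1 / 2 + dl : ℝ) = 7 * dl + (1 / 2 - 6 * dl) by ring, Real.rpow_add hN]
              ring
          _ ≤ 6 * (N : ℝ) ^ (7 * dl) * A1 N := mul_le_mul_of_nonneg_left hA1l (by positivity)
      have e2 := Real.log_le_log (by positivity) e1
      rw [Real.log_mul (by norm_num) (by positivity), Real.log_rpow hN, hdl] at e2
      norm_num at hl e2 ⊢
      linarith
    have hLP : kp * l / 2 ≤ Selberg.L (RP N) := by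
      refine le_trans ?_ (Selberg.L_ge (RP N))
      have h4 : (N : ℝ) ^ kp ≤ (RP N : ℝ) + 1 := (Nat.lt_floor_add_one _).le
      have h5 := Real.log_le_log (by positivity) h4
      rw [Real.log_rpow hN] at h5
      linarith
    have hLP0 : 0 < Selberg.L (RP N) := lt_of_lt_of_le (by positivity) hLP
    have f3 : (hh N : ℝ) * Real.log ((A2 N : ℝ) / A1 N) / (Selberg.L (RP N) * Selberg.L (RR N)) ≤
        0.0703 * H := by
      have e1 : (hh N : ℝ) * Real.log ((A2 N : ℝ) / A1 N) /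
          (Selberg.L (RP N) * Selberg.L (RR N)) =
          H * (Real.log ((A2 N : ℝ) / A1 N) / Selberg.L (RP N)) := by
        rw [hHdef]
        field_simp
      have e2 : Real.log ((A2 N : ℝ) / A1 N) / Selberg.L (RP N) ≤ 0.0703 := by
        rw [div_le_iff₀ hLP0]
        rw [hkp] at hLP
        norm_num at hLP f2 ⊢
        linarith
      rw [e1, mul_comm (0.0703 : ℝ)]
      exact mul_le_mul_of_nonneg_left e2 hH0
    have f4 : (N : ℝ) ^ (49 / 100 : ℝ) ≤ 0.0001 * H := by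
      norm_num at hp2 hH ⊢
      have : 0 ≤ (N : ℝ) ^ (49 / 100 : ℝ) := by positivity
      linarith
    have f5 : ∑ p ∈ (Finset.Ioc (A1 N) (A2 N)).filter Nat.Prime, TT N (hh N) (RR N) p ≤
        0.0704 * H := by
      norm_num at f3 f4 hnear ⊢
      linarith
    calc Real.log (A2 N) * ∑ p ∈ (Finset.Ioc (A1 N) (A2 N)).filter Nat.Prime,
          TT N (hh N) (RR N) p
        ≤ Real.log (A2 N) * (0.0704 * H) := mul_le_mul_of_nonneg_left f5 f0
      _ ≤ 0.51 * l * (0.0704 * H) := mul_le_mul_of_nonneg_right f1 (by positivity)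
      _ ≤ 0.04 * (H * l) := by
          have : 0 ≤ H * l := by positivity
          norm_num
          nlinarith
  have hsp := split_sum N (hh N) (RR N) (zN N) (A1 N) (A2 N)
  have hHl : H * 5 ≤ 0.001 * (H * l) := by
    have : H * 5000 ≤ H * l := mul_le_mul_of_nonneg_left (by linarith) hH0
    norm_num
    linarith
  have hHl0 : 0 ≤ H * l := by positivity
  have hfin : 0.56 * H * l = 0.56 * (H * l) := by ring
  rw [hfin]
  norm_num at p1 p2 p3 hHl ⊢
  linarith

end Pool.Agent.PSK
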