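import Pool.Agent.PSK.Def
import Pool.Agent.PSK.Phi
import Pool.Agent.PSK.Qp

/-!
# PSK module TP: the weighted number of multiples of `p` in `(N, N+h)`

`TT N h R p = ∑_{a,b ≤ R} λ_a λ_b #{n ∈ (N, N+h) : lcm(p, lcm(a,b)) ∣ n}` (`Selberg.wt_expand`) and
`|#{n ∈ (N, N+h) : m ∣ n} - h/m| ≤ 2`, `∑ |λ_a λ_b| ≤ R⁴` (`Selberg.abs_sum_lam`).
`TT_small`: `QQ_small`, `phi_sum` with `u = R/p ≥ 1`, `v = R`, and `R / ⌊R/p⌋ ≤ 2p`, `log 2 ≤ 1`.
-/

set_option autoImplicit false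

namespace Pool.Agent.PSK

open Finset
open Pool.Agent.Helper4.ST

/-- the number of multiples of `m` in `(N, N+h)`. -/
theorem tp_card (N h m : ℕ) (hm : 1 ≤ m) :
    |((((JH N h).filter (fun n => m ∣ n)).card : ℕ) : ℝ) - (h : ℝ) / m| ≤ 2 := by
  have hm0 : (0 : ℝ) < m := by exact_mod_cast hm
  rcases Nat.eq_zero_or_pos h with h0 | h0
  · subst h0
    have h1 : JH N 0 = ∅ := by
      unfold JH
      simp
    rw [h1]
    simp
  · have h1 : ((JH N h).filter (fun n => m ∣ n)).card + N / m = (N + h - 1) / m := by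
      rw [← Nat.Ioc_filter_dvd_card_eq_div (N + h - 1) m, ← Nat.Ioc_filter_dvd_card_eq_div N m,
        ← Finset.card_union_of_disjoint]
      · congr 1
        ext n
        simp only [Finset.mem_union, Finset.mem_filter, mem_JH, Finset.mem_Ioc]
        constructor
        · rintro (⟨⟨h2, h3⟩, h4⟩ | ⟨⟨h2, h3⟩, h4⟩)
          · exact ⟨⟨by omega, by omega⟩, h4⟩
          · exact ⟨⟨by omega, by omega⟩, h4⟩
        · rintro ⟨⟨h2, h3⟩, h4⟩
          rcases le_or_gt n N with h5 | h5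
          · exact Or.inr ⟨⟨h2, h5⟩, h4⟩
          · exact Or.inl ⟨⟨h5, by omega⟩, h4⟩
      · rw [Finset.disjoint_left]
        intro n h2 h3
        simp only [Finset.mem_filter, mem_JH, Finset.mem_Ioc] at h2 h3
        omega
    have h2 : ((((JH N h).filter (fun n => m ∣ n)).card : ℕ) : ℝ) + ((N / m : ℕ) : ℝ)
        = (((N + h - 1) / m : ℕ) : ℝ) := by exact_mod_cast h1
    have h3 : ∀ X : ℕ, ((X / m : ℕ) : ℝ) ≤ (X : ℝ) / m := fun X => Nat.cast_div_le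
    have h4 : ∀ X : ℕ, (X : ℝ) / m < ((X / m : ℕ) : ℝ) + 1 := by
      intro X
      rw [div_lt_iff₀ hm0]
      have h6 := Nat.lt_div_mul_add hm (a := X)
      have h7 : (X : ℝ) < (X / m : ℕ) * (m : ℕ) + (m : ℕ) := by exact_mod_cast h6
      linarith
    have h5 : ((N + h - 1 : ℕ) : ℝ) = N + h - 1 := by
      rw [Nat.cast_sub (by omega)]; push_cast; ring
    have h6 := h3 N
    have h7 := h4 N
    have h8 := h3 (N + h - 1)
    have h9 := h4 (N + h - 1)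
    rw [h5] at h8 h9
    have h10 : ((N : ℝ) + h - 1) / m = N / m + h / m - 1 / m := by ring
    rw [h10] at h8 h9
    have h11 : (0 : ℝ) < 1 / m := by positivity
    have h12 : (1 : ℝ) / m ≤ 1 := by
      rw [div_le_one hm0]; exact_mod_cast hm
    rw [abs_le]
    constructor <;> linarith

theorem tp_TT (N h R p : ℕ) :
    TT N h R p = ∑ a ∈ Icc 1 R, ∑ b ∈ Icc 1 R, Selberg.lam R a * Selberg.lam R b *
      ((((JH N h).filter (fun n => Nat.lcm p (Nat.lcm a b) ∣ n)).card : ℕ) : ℝ) := by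
  unfold TT
  rw [Finset.sum_congr rfl fun n _ => Selberg.wt_expand R n, Finset.sum_comm]
  refine Finset.sum_congr rfl fun a ha => ?_
  rw [Finset.sum_comm]
  refine Finset.sum_congr rfl fun b hb => ?_
  rw [← Finset.sum_filter, Finset.filter_filter, Finset.sum_const, nsmul_eq_mul, mul_comm]
  congr 2
  apply congrArg Finset.card
  apply Finset.filter_congr
  intro n _
  exact (Nat.lcm_dvd_iff (m := p) (n := Nat.lcm a b) (k := n)).symm

theorem TT_eq (N h R p : ℕ) (hR : 1 ≤ R) (hp : 1 ≤ p) :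
    |TT N h R p - (h : ℝ) * QQ R p| ≤ 2 * (R : ℝ) ^ 4 := by
  have h1 : TT N h R p - (h : ℝ) * QQ R p = ∑ a ∈ Icc 1 R, ∑ b ∈ Icc 1 R,
      Selberg.lam R a * Selberg.lam R b *
      (((((JH N h).filter (fun n => Nat.lcm p (Nat.lcm a b) ∣ n)).card : ℕ) : ℝ)
        - (h : ℝ) / (Nat.lcm p (Nat.lcm a b) : ℕ)) := by
    rw [tp_TT, QQ, Finset.mul_sum, ← Finset.sum_sub_distrib]
    refine Finset.sum_congr rfl fun a ha => ?_
    rw [Finset.mul_sum, ← Finset.sum_sub_distrib]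
    refine Finset.sum_congr rfl fun b hb => ?_
    ring
  rw [h1]
  calc |∑ a ∈ Icc 1 R, ∑ b ∈ Icc 1 R,
      Selberg.lam R a * Selberg.lam R b *
      (((((JH N h).filter (fun n => Nat.lcm p (Nat.lcm a b) ∣ n)).card : ℕ) : ℝ)
        - (h : ℝ) / (Nat.lcm p (Nat.lcm a b) : ℕ))|
      ≤ ∑ a ∈ Icc 1 R, |∑ b ∈ Icc 1 R,
      Selberg.lam R a * Selberg.lam R b *
      (((((JH N h).filter (fun n => Nat.lcm p (Nat.lcm a b) ∣ n)).card : ℕ) : ℝ)
        - (h : ℝ) / (Nat.lcm p (Nat.lcm a b) : ℕ))| := Finset.abs_sum_le_sum_abs _ _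
    _ ≤ ∑ a ∈ Icc 1 R, ∑ b ∈ Icc 1 R, 2 * |Selberg.lam R a * Selberg.lam R b| := by
        refine Finset.sum_le_sum fun a ha => ?_
        refine (Finset.abs_sum_le_sum_abs _ _).trans ?_
        refine Finset.sum_le_sum fun b hb => ?_
        rw [abs_mul, mul_comm 2]
        have hl : 1 ≤ Nat.lcm p (Nat.lcm a b) :=
          Nat.lcm_pos hp (Nat.lcm_pos (Finset.mem_Icc.1 ha).1 (Finset.mem_Icc.1 hb).1)
        exact mul_le_mul_of_nonneg_left (tp_card N h _ hl) (abs_nonneg _)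
    _ = 2 * ∑ a ∈ Icc 1 R, ∑ b ∈ Icc 1 R, |Selberg.lam R a * Selberg.lam R b| := by
        simp only [Finset.mul_sum]
    _ ≤ 2 * (R : ℝ) ^ 4 := by
        have := Selberg.abs_sum_lam hR
        linarith

theorem TT_one (N h R : ℕ) (hR : 1 ≤ R) :
    (h : ℝ) / Selberg.L R - 2 * (R : ℝ) ^ 4 ≤ TT N h R 1 := by
  have h1 := (abs_le.1 (TT_eq N h R 1 hR le_rfl)).1
  rw [QQ_one hR, ← div_eq_mul_inv] at h1
  linarith

theorem TT_small (N h R p : ℕ) (hR : 1 ≤ R) (hp : p.Prime) (hpR : p ≤ R) :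
    TT N h R p ≤ 6 * (h : ℝ) * (Real.log p + 1) / (p * Selberg.L R ^ 2) + 2 * (R : ℝ) ^ 4 := by
  have h1 := (abs_le.1 (TT_eq N h R p hR hp.one_le)).2
  have h2 := QQ_small hp hpR
  have hp0 : (0 : ℝ) < p := by exact_mod_cast hp.pos
  have hu : 1 ≤ R / p := Nat.div_pos hpR hp.pos
  have hu0 : (0 : ℝ) < ((R / p : ℕ) : ℝ) := by exact_mod_cast hu
  have hR0 : (0 : ℝ) < R := by exact_mod_cast hR
  have h3 := phi_sum (R / p) R hu (Nat.div_le_self _ _)
  have h4 : (R : ℝ) / ((R / p : ℕ) : ℝ) ≤ 2 * p := by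
    rw [div_le_iff₀ hu0]
    have h5 := Nat.lt_div_mul_add hp.pos (a := R)
    have h6 : (R : ℝ) < (R / p : ℕ) * (p : ℕ) + (p : ℕ) := by exact_mod_cast h5
    have h7 : (1 : ℝ) ≤ ((R / p : ℕ) : ℝ) := by exact_mod_cast hu
    nlinarith
  have h5 : Real.log ((R : ℝ) / ((R / p : ℕ) : ℝ)) ≤ 1 + Real.log p := by
    refine (Real.log_le_log (by positivity) h4).trans ?_
    rw [Real.log_mul (by norm_num) hp0.ne']
    have := Real.log_two_lt_d9
    linarith
  have h6 : 0 ≤ Real.log p := Real.log_nonneg (by exact_mod_cast hp.one_le)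
  have hL : 0 < Selberg.L R := Selberg.L_pos hR
  have h7 : QQ R p ≤ (1 / ((p : ℝ) * Selberg.L R ^ 2)) * (6 * (Real.log p + 1)) := by
    refine h2.trans ?_
    refine mul_le_mul_of_nonneg_left (h3.trans ?_) (by positivity)
    linarith
  have h8 : (h : ℝ) * QQ R p ≤ (h : ℝ) * ((1 / ((p : ℝ) * Selberg.L R ^ 2)) *
      (6 * (Real.log p + 1))) := mul_le_mul_of_nonneg_left h7 (Nat.cast_nonneg h)
  have h9 : (h : ℝ) * ((1 / ((p : ℝ) * Selberg.L R ^ 2)) * (6 * (Real.log p + 1)))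
      = 6 * (h : ℝ) * (Real.log p + 1) / (p * Selberg.L R ^ 2) := by
    ring
  rw [h9] at h8
  linarith

theorem TT_large (N h R p : ℕ) (hR : 1 ≤ R) (hp : p.Prime) (hpR : R < p) :
    TT N h R p ≤ (h : ℝ) / (p * Selberg.L R) + 2 * (R : ℝ) ^ 4 := by
  have h1 := (abs_le.1 (TT_eq N h R p hR hp.one_le)).2
  rw [QQ_large hR hp hpR, mul_one_div] at h1
  linarith

end Pool.Agent.PSK
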