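import Pool.Agent.PSK.Rb
import Pool.Agent.PSK.Mas

/-!
# PSK module WGT: the weights are large enough for the hitting lemma
(compare `Pool/Agent/PSQ/Wgt.lean`)

For large `N` without primes in `JJ N`: `∑_{m ∈ AA} 1/m ≥ c/(2 log N)` (`good_count`, `mass_ge`).
For `m ∈ AA N`, `j = Nat.log 2 m`: `2^j ≤ m ≤ h ≤ N^(1/2)`, so `zeta j ≤ 2^(σ j) ≤ N^(σ/2) ≤ zN N` and
`m ∈ RB j`; `m > zN N` (a prime factor of `m > 1` is `> zN N`), so `j + 1 ≥ log m / log 2 ≥ σ log N`.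
`K_j |AA ∩ RB_j|/|RB_j| ≥ C1 (j+1) (j+1)/(C 2^j) |AA ∩ RB_j| ≥ (C1/C)(j+1)² ∑_{m ∈ AA ∩ RB_j} 1/m`, so
the sum over `j < Nat.log 2 (hh N) + 1` is `≥ (C1/C)(σ log N)² c/(2 log N) ≥ 2 log N` if
`C1 ≥ 4 C/(σ² c)`.
-/

set_option autoImplicit false

namespace Pool.Agent.PSK

open Finset Filter Pool.Agent.PSQ

/-- One dyadic block. -/
theorem term_ge {C : ℝ} (hC : 0 < C)
    (hcard : ∀ j : ℕ, ((RB j).card : ℝ) ≤ C * 2 ^ j / (j + 1))
    (C1 : ℕ) (AN : Finset ℕ) (j : ℕ) (w : ℝ) (hw0 : 0 ≤ w)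
    (hw : ∀ m ∈ AN ∩ RB j, w ≤ (j : ℝ) + 1) :
    C1 * w ^ 2 / C * ∑ m ∈ AN ∩ RB j, 1 / (m : ℝ) ≤
      ((C1 * (j + 1) : ℕ) : ℝ) * ((AN ∩ RB j).card : ℝ) / ((RB j).card : ℝ) := by
  have hR0 : (0 : ℝ) < (RB j).card := by exact_mod_cast card_pos.2 (RB_nonempty j)
  rcases (AN ∩ RB j).eq_empty_or_nonempty with h | ⟨m0, hm0⟩
  · rw [h]
    simp
  have hwj := hw m0 hm0
  have hj1 : (0 : ℝ) < (j : ℝ) + 1 := by positivity
  have h2j : (0 : ℝ) < 2 ^ j := by positivity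
  have hsum : ∑ m ∈ AN ∩ RB j, 1 / (m : ℝ) ≤ ((AN ∩ RB j).card : ℝ) / 2 ^ j := by
    rw [div_eq_mul_one_div ((AN ∩ RB j).card : ℝ), ← nsmul_eq_mul]
    refine sum_le_card_nsmul _ _ _ fun m hm => ?_
    have h1 := (mem_inter.1 hm).2
    unfold RB at h1
    have h2 := (mem_Ico.1 (mem_filter.1 h1).1).1
    refine one_div_le_one_div_of_le h2j ?_
    exact_mod_cast h2
  have hn0 : (0 : ℝ) ≤ ((AN ∩ RB j).card : ℝ) := Nat.cast_nonneg _
  have hC1 : (0 : ℝ) ≤ (C1 : ℝ) := Nat.cast_nonneg _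
  push_cast
  calc C1 * w ^ 2 / C * ∑ m ∈ AN ∩ RB j, 1 / (m : ℝ)
      ≤ C1 * ((j : ℝ) + 1) ^ 2 / C * (((AN ∩ RB j).card : ℝ) / 2 ^ j) := by
        gcongr
    _ = ((C1 : ℝ) * ((j : ℝ) + 1)) * ((AN ∩ RB j).card : ℝ) / (C * 2 ^ j / (j + 1)) := by
        field_simp
    _ ≤ ((C1 : ℝ) * ((j : ℝ) + 1)) * ((AN ∩ RB j).card : ℝ) / ((RB j).card : ℝ) := by
        gcongr
        exact hcard j

theorem sg_pos : 0 < sg := by unfold sg; positivity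

theorem hh_le (N : ℕ) (hN : 1 ≤ N) : (hh N : ℝ) ≤ N := by
  have hN1 : (1 : ℝ) ≤ N := by exact_mod_cast hN
  unfold hh
  refine (Nat.floor_le (by positivity)).trans ?_
  calc (N : ℝ) ^ (1 / 2 - dl) ≤ (N : ℝ) ^ (1 : ℝ) :=
        Real.rpow_le_rpow_of_exponent_le hN1 (by unfold dl; norm_num)
    _ = N := Real.rpow_one _

theorem zeta_le {N m j : ℕ} (hN : 1 ≤ N) (hm : m ≤ hh N) (hj : 2 ^ j ≤ m) :
    zeta j ≤ zN N := by
  unfold zeta zN
  refine Nat.floor_le_floor ?_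
  have h1 : ((2 : ℝ) ^ j) ≤ N := by
    have h2 : ((2 ^ j : ℕ) : ℝ) ≤ (hh N : ℝ) := by exact_mod_cast hj.trans hm
    push_cast at h2
    exact h2.trans (hh_le N hN)
  calc (2 : ℝ) ^ (sg * j) = ((2 : ℝ) ^ (j : ℝ)) ^ sg := by
        rw [← Real.rpow_mul (by norm_num), mul_comm]
    _ = ((2 : ℝ) ^ j) ^ sg := by rw [Real.rpow_natCast]
    _ ≤ (N : ℝ) ^ sg := Real.rpow_le_rpow (by positivity) h1 sg_pos.le

theorem weights_ge : ∃ C1 N0 : ℕ, 1 ≤ C1 ∧ 2 ≤ N0 ∧ ∀ N : ℕ, N0 ≤ N →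
    (∀ q ∈ JJ N, ¬ q.Prime) →
    2 * Real.log N ≤ ∑ j ∈ range (Nat.log 2 (hh N) + 1),
      ((C1 * (j + 1) : ℕ) : ℝ) * ((AA N ∩ RB j).card : ℝ) / ((RB j).card : ℝ) := by
  obtain ⟨C, hC, hcard⟩ := card_RB_le
  obtain ⟨c, hc, hgood⟩ := good_count
  have hs := sg_pos
  have hhpos : ∀ᶠ N : ℕ in atTop, 1 ≤ hh N := by
    have h1 : Tendsto (fun N : ℕ => (N : ℝ) ^ (1 / 2 - dl)) atTop atTop :=
      (tendsto_rpow_atTop (by unfold dl; norm_num)).comp tendsto_natCast_atTop_atTop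
    filter_upwards [h1.eventually_ge_atTop 1] with N hN
    unfold hh
    exact Nat.le_floor (by push_cast; exact hN)
  obtain ⟨N1, hN1⟩ := eventually_atTop.1 (hgood.and hhpos)
  refine ⟨⌈4 * C / (c * sg ^ 2)⌉₊ + 1, max 2 N1, by omega, le_max_left _ _, fun N hN hno => ?_⟩
  set C1 : ℕ := ⌈4 * C / (c * sg ^ 2)⌉₊ + 1 with hC1
  have hC1' : 4 * C / (c * sg ^ 2) ≤ (C1 : ℝ) := by
    rw [hC1]
    push_cast
    have := Nat.le_ceil (4 * C / (c * sg ^ 2))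
    linarith
  obtain ⟨hg, hh1⟩ := hN1 N ((le_max_right _ _).trans hN)
  have hN2 : 2 ≤ N := (le_max_left _ _).trans hN
  have hN2' : (2 : ℝ) ≤ N := by exact_mod_cast hN2
  have hlog : 0 < Real.log N := Real.log_pos (by linarith)
  have hh0 : (0 : ℝ) < hh N := by exact_mod_cast hh1
  have hmass := mass_ge N (by omega) hno
  have hm2 : c / (2 * Real.log N) ≤ ∑ m ∈ AA N, 1 / (m : ℝ) := by
    have h1 : c * (hh N : ℝ) / Real.log N ≤ 2 * hh N * ∑ m ∈ AA N, 1 / (m : ℝ) := hg.trans hmass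
    have h2 : (c / (2 * Real.log N)) * (2 * hh N) ≤ (∑ m ∈ AA N, 1 / (m : ℝ)) * (2 * hh N) := by
      calc (c / (2 * Real.log N)) * (2 * hh N) = c * (hh N : ℝ) / Real.log N := by
            field_simp
        _ ≤ _ := by linarith
    exact le_of_mul_le_mul_right h2 (by positivity)
  -- membership
  have hmem : ∀ m ∈ AA N, ∃ j ∈ range (Nat.log 2 (hh N) + 1), m ∈ RB j := by
    intro m hm
    rw [mem_AA] at hm
    obtain ⟨h1, h2, h3, -⟩ := hm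
    refine ⟨Nat.log 2 m, mem_range.2 ?_, ?_⟩
    · have := Nat.log_mono_right (b := 2) (show m ≤ hh N by omega)
      omega
    · unfold RB
      refine mem_filter.2 ⟨mem_Ico.2 ⟨Nat.pow_log_le_self 2 (by omega),
        Nat.lt_pow_succ_log_self (by norm_num) m⟩, ?_⟩
      intro p hp hpm
      exact lt_of_le_of_lt (zeta_le (m := m) (by omega) (by omega)
        (Nat.pow_log_le_self 2 (by omega))) (h3 p hp hpm)
  have hsum : ∑ m ∈ AA N, 1 / (m : ℝ) ≤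
      ∑ j ∈ range (Nat.log 2 (hh N) + 1), ∑ m ∈ AA N ∩ RB j, 1 / (m : ℝ) := by
    have h1 : ∀ j, ∑ m ∈ AA N ∩ RB j, 1 / (m : ℝ)
        = ∑ m ∈ AA N, if m ∈ RB j then 1 / (m : ℝ) else 0 := by
      intro j
      rw [← sum_filter, filter_mem_eq_inter]
    rw [sum_congr rfl fun j _ => h1 j, sum_comm]
    refine sum_le_sum fun m hm => ?_
    obtain ⟨j, hj, hmj⟩ := hmem m hm
    have h2 : (1 : ℝ) / m = if m ∈ RB j then 1 / (m : ℝ) else 0 := by rw [if_pos hmj]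
    refine h2.le.trans ?_
    refine single_le_sum (f := fun j => if m ∈ RB j then 1 / (m : ℝ) else 0)
      (fun i _ => ?_) hj
    split_ifs
    · positivity
    · exact le_rfl
  have hterm : ∀ j ∈ range (Nat.log 2 (hh N) + 1),
      C1 * (sg * Real.log N) ^ 2 / C * ∑ m ∈ AA N ∩ RB j, 1 / (m : ℝ) ≤
      ((C1 * (j + 1) : ℕ) : ℝ) * ((AA N ∩ RB j).card : ℝ) / ((RB j).card : ℝ) := by
    intro j _
    refine term_ge hC hcard C1 _ j _ (by positivity) ?_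
    intro m hm
    rw [mem_inter, mem_AA] at hm
    obtain ⟨⟨h1, h2, h3, -⟩, h4⟩ := hm
    have h5 : zN N < m := by
      have hp := Nat.minFac_prime (show m ≠ 1 by omega)
      exact (h3 _ hp (Nat.minFac_dvd m)).trans_le (Nat.minFac_le (by omega))
    unfold RB at h4
    have h6 := (mem_Ico.1 (mem_filter.1 h4).1).2
    have h7 : (N : ℝ) ^ sg ≤ 2 ^ (j + 1) := by
      have h8 : (N : ℝ) ^ sg < (zN N : ℝ) + 1 := by
        unfold zN
        exact Nat.lt_floor_add_one _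
      have h9 : ((zN N + 1 : ℕ) : ℝ) ≤ ((2 ^ (j + 1) : ℕ) : ℝ) := by
        exact_mod_cast (by omega : zN N + 1 ≤ 2 ^ (j + 1))
      push_cast at h9
      linarith
    have h8 : Real.log ((N : ℝ) ^ sg) ≤ Real.log (2 ^ (j + 1)) :=
      Real.log_le_log (by positivity) h7
    rw [Real.log_rpow (by linarith), Real.log_pow] at h8
    have h9 := Real.log_two_lt_d9
    have h10 : (0 : ℝ) ≤ ((j + 1 : ℕ) : ℝ) := Nat.cast_nonneg _
    have h11 : ((j + 1 : ℕ) : ℝ) * Real.log 2 ≤ ((j + 1 : ℕ) : ℝ) * 1 :=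
      mul_le_mul_of_nonneg_left (by linarith) h10
    push_cast at *
    linarith
  calc 2 * Real.log N = (4 * C / (c * sg ^ 2)) * (sg * Real.log N) ^ 2 / C *
        (c / (2 * Real.log N)) := by
        field_simp
        ring
    _ ≤ C1 * (sg * Real.log N) ^ 2 / C * (c / (2 * Real.log N)) := by
        gcongr
    _ ≤ C1 * (sg * Real.log N) ^ 2 / C *
          ∑ j ∈ range (Nat.log 2 (hh N) + 1), ∑ m ∈ AA N ∩ RB j, 1 / (m : ℝ) :=
        mul_le_mul_of_nonneg_left (hm2.trans hsum) (by positivity)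
    _ = ∑ j ∈ range (Nat.log 2 (hh N) + 1), C1 * (sg * Real.log N) ^ 2 / C *
          ∑ m ∈ AA N ∩ RB j, 1 / (m : ℝ) := by rw [mul_sum]
    _ ≤ _ := sum_le_sum hterm

end Pool.Agent.PSK
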